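import Mathlib

set_option autoImplicit false

/-! Random orders: the numbers `(b ^ n + 1) / (b + 1)`, `n` an odd prime, where the residue of `-b` modulo each prime
`l` is replaced by an independent uniform unit. -/

namespace Pool.Agent.L5helper2.RO

open Finset MeasureTheory ProbabilityTheory Filter
open scoped ENNReal Topology

/-- `(b ^ n + 1) / (b + 1)` -/
def W (b n : ℕ) : ℕ := (b ^ n + 1) / (b + 1)

/-- the primes `l ≡ 1 (mod n)` with `l ^ 2 ≤ W b n` -/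
def T (b n : ℕ) : Finset ℕ := (range (W b n + 1)).filter (fun l => l.Prime ∧ l ^ 2 ≤ W b n ∧ l % n = 1)

/-- independent uniform units -/
structure Model {Ω : Type} [MeasurableSpace Ω] (μ : Measure Ω) (g : ℕ → Ω → ℕ) : Prop where
  meas : ∀ l, Measurable (g l)
  indep : iIndepFun g μ
  unif : ∀ l : ℕ, l.Prime → ∀ u : ℕ, 1 ≤ u → u < l → μ {ω | g l ω = u} = ((l - 1 : ℕ) : ℝ≥0∞)⁻¹

/-- no prime `l ≤ √(W b n)` divides `W b n` in the model -/
def Like (b : ℕ) (g : ℕ → ℕ) (n : ℕ) : Prop :=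
  ∀ l : ℕ, l.Prime → l ^ 2 ≤ W b n → orderOf ((g l : ℕ) : ZMod l) ≠ n

noncomputable def P (b n : ℕ) : ℝ := ∏ l ∈ T b n, (1 - ((n : ℝ) - 1) / ((l : ℝ) - 1))

/-- the primes in `(y, 2 y]` -/
def PR (y : ℕ) : Finset ℕ := (Ioc y (2 * y)).filter Nat.Prime

/-- PROB: probabilities in the model. For `l ≡ 1 (mod n)` the order of the unit `g l` is `n` with probability
`(n - 1) / (l - 1)` (`IsCyclic.card_orderOf_eq_totient`), for other `l` with probability `0`; independence over `l`;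
for two primes `n ≠ m` the two events at one `l` are disjoint and `1 - s - t ≤ (1 - s) (1 - t)`. -/
def St_PROB : Prop := ∀ (b : ℕ), 2 ≤ b → ∀ (Ω : Type) (_ : MeasurableSpace Ω) (μ : Measure Ω)
    (_ : IsProbabilityMeasure μ) (g : ℕ → Ω → ℕ), Model μ g →
    (∀ n, n.Prime → n ≠ 2 → MeasurableSet {ω | Like b (fun l => g l ω) n} ∧
      μ.real {ω | Like b (fun l => g l ω) n} = P b n) ∧
    (∀ n m, n.Prime → m.Prime → n ≠ 2 → m ≠ 2 → n ≠ m →
      μ.real ({ω | Like b (fun l => g l ω) n} ∩ {ω | Like b (fun l => g l ω) m}) ≤ P b n * P b m)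

open Classical in
/-- LAW: a strong law for events with nonpositive correlations (variance of the count at most the mean `E`;
Chebyshev at the first `x` with `E(x) ≥ k ^ 2`, Borel-Cantelli, monotonicity in between) -/
def St_LAW : Prop := ∀ (Ω : Type) (_ : MeasurableSpace Ω) (μ : Measure Ω) (_ : IsProbabilityMeasure μ)
    (G : ℕ → Set Ω) (I : Set ℕ), (∀ n ∈ I, MeasurableSet (G n)) →
    (∀ n ∈ I, ∀ m ∈ I, n ≠ m → μ.real (G n ∩ G m) ≤ μ.real (G n) * μ.real (G m)) →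
    Tendsto (fun x : ℕ => ∑ n ∈ (Icc 1 x).filter (fun n => n ∈ I), μ.real (G n)) atTop atTop →
    ∀ᵐ ω ∂μ, Tendsto (fun x : ℕ => (((Icc 1 x).filter (fun n => n ∈ I ∧ ω ∈ G n)).card : ℝ) /
      ∑ n ∈ (Icc 1 x).filter (fun n => n ∈ I), μ.real (G n)) atTop (𝓝 1)

/-- SMALL: the primes up to `y ^ 3`. Write `l = k n + 1`, `k ≤ y ^ 2`, `(n - 1) / (l - 1) ≤ 1 / k`; for fixed `k` the
number of primes `n ≤ 2 y` with `k n + 1` prime is at most `C (k / φ(k)) ^ 2 y / log ^ 2 y` (`E456.sieve_two` of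
`Pool.Agent.Helper112.PairSieve`, with `a₁ = 1, b₁ = 0, a₂ = k, b₂ = 1`), and
`∑_{k ≤ K} (1 / k) (k / φ(k)) ^ 2 ≤ C (1 + log K)` is `sum_ratio_sq` of `Pool.Agent.Helper112.Arith`. -/
def St_SMALL : Prop := ∃ C : ℝ, 0 < C ∧ ∀ y : ℕ, 2 ≤ y →
    ∑ n ∈ PR y, ∑ l ∈ (Icc 1 (y ^ 3)).filter (fun l => l.Prime ∧ l % n = 1), ((n : ℝ) - 1) / ((l : ℝ) - 1) ≤
      C * y / Real.log y

/-- LARGE: the primes in `(y ^ 3, Y]`, by Bombieri-Vinogradov -/
def St_LARGE : Prop := ∃ C : ℝ, 0 < C ∧ ∀ᶠ y : ℕ in atTop, ∀ Y : ℕ, y ^ 3 ≤ Y →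
    ∑ n ∈ PR y, ∑ l ∈ (Ioc (y ^ 3) Y).filter (fun l => l.Prime ∧ l % n = 1), ((n : ℝ) - 1) / l ≤
      (PR y).card * (Real.log (Real.log Y) - Real.log (Real.log y) + C) + C * y / Real.log y

/-- TRUE: with `-b` itself the condition of the model is primality. If `l | W b n` then `(-b) ^ n = 1` in `ZMod l`, so
the order is `1` or `n`; if it is `1` then `l | b + 1` and `W b n ≡ n (mod b + 1)` gives `l = n`. -/
def St_TRUE : Prop := ∀ b n : ℕ, 2 ≤ b → n.Prime → n ≠ 2 → ¬ n ∣ b + 1 →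
    ((W b n).Prime ↔ ∀ l : ℕ, l.Prime → l ^ 2 ≤ W b n → orderOf (-(b : ZMod l)) ≠ n)

/-- EXP: lower bound for the probability. For `n` an odd prime every `l ∈ T b n` is `k n + 1` with `k ≥ 2`, so
`t = (n - 1) / (l - 1) ≤ 1 / k ≤ 1 / 2`, `1 - t ≥ exp (- t - 2 t ^ 2)` and `∑ 2 t ^ 2 ≤ ∑_{k ≥ 2} 2 / k ^ 2 ≤ 2`. -/
def St_EXP : Prop := ∀ b n : ℕ, n.Prime → n ≠ 2 →
    Real.exp (-(∑ l ∈ T b n, ((n : ℝ) - 1) / ((l : ℝ) - 1)) - 2) ≤ P b n

end Pool.Agent.L5helper2.RO
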