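import Mathlib
import Pool.Agent.L5helper2.RO.Defs
import Pool.Agent.L5helper2.GR.MAP

set_option autoImplicit false

namespace Pool.Agent.L5helper2.RO

open Finset Filter
open scoped Topology

/-- many primes in `(y, 2 y]` -/
lemma card_PR : ∃ c : ℝ, 0 < c ∧ ∀ᶠ y : ℕ in atTop, c * y / Real.log y ≤ ((PR y).card : ℝ) := by
  obtain ⟨n0, hn0⟩ := Pool.Agent.L5helper2.GR.th_lower 2 Nat.prime_two (ε := 1 / 20) (by norm_num)
  refine ⟨1 / 4, by norm_num, ?_⟩
  filter_upwards [eventually_ge_atTop (max n0 3)] with y hy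
  have hy3 : 3 ≤ y := (le_max_right _ _).trans hy
  have hyn : n0 ≤ y := (le_max_left _ _).trans hy
  have hy0 : (0 : ℝ) < y := by exact_mod_cast (by omega : 0 < y)
  have h1 := hn0 (2 * y) (by omega)
  have h2 := Chebyshev.theta_le_log4_mul_x (x := (y : ℝ)) (Nat.cast_nonneg _)
  rw [Chebyshev.theta_eq_sum_Icc, Nat.floor_natCast] at h2
  have hl4 : Real.log 4 ≤ 1.4 := by
    have : (4 : ℝ) = 2 ^ 2 := by norm_num
    rw [this, Real.log_pow]
    have := Real.log_two_lt_d9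
    push_cast
    linarith
  have h3 : Pool.Agent.L5helper2.GR.th 2 (2 * y) ≤ ∑ p ∈ (Icc 0 y).filter Nat.Prime, Real.log p +
      ∑ p ∈ PR y, Real.log p := by
    unfold Pool.Agent.L5helper2.GR.th
    rw [← Finset.sum_union]
    · apply Finset.sum_le_sum_of_subset_of_nonneg
      · intro l hl
        rw [mem_filter, mem_Icc] at hl
        rw [mem_union]
        by_cases h : l ≤ y
        · left
          rw [mem_filter, mem_Icc]
          exact ⟨⟨by omega, h⟩, hl.2.1⟩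
        · right
          unfold PR
          rw [mem_filter, mem_Ioc]
          exact ⟨⟨by omega, hl.1.2⟩, hl.2.1⟩
      · intro l _ _
        exact Real.log_natCast_nonneg l
    · rw [Finset.disjoint_left]
      intro l h5 h6
      unfold PR at h6
      rw [mem_filter, mem_Icc] at h5
      rw [mem_filter, mem_Ioc] at h6
      omega
  have h4 : ∑ p ∈ PR y, Real.log (p : ℝ) ≤ (PR y).card * (2 * Real.log y) := by
    rw [← nsmul_eq_mul]
    apply Finset.sum_le_card_nsmul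
    intro p hp
    unfold PR at hp
    rw [mem_filter, mem_Ioc] at hp
    have h5 : (p : ℝ) ≤ (y : ℝ) ^ 2 := by
      have : p ≤ y ^ 2 := by nlinarith [hp.1.2]
      exact_mod_cast this
    have h6 := Real.log_le_log (by exact_mod_cast (by omega : 0 < p)) h5
    rw [Real.log_pow] at h6
    push_cast at h6
    exact h6
  have hly : 0 < Real.log (y : ℝ) := Real.log_pos (by exact_mod_cast (by omega : 1 < y))
  rw [div_le_iff₀ hly]
  push_cast at h1
  have h7 : Real.log 4 * (y : ℝ) ≤ 1.4 * y := mul_le_mul_of_nonneg_right hl4 hy0.le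
  norm_num at h1
  nlinarith

lemma cube_le (y : ℕ) (hy : 2 ≤ y) : y ^ 3 ≤ 4 ^ y := by
  induction y, hy using Nat.le_induction with
  | base => norm_num
  | succ y hy ih =>
    have h1 : (y + 1) ^ 3 ≤ 4 * y ^ 3 := by nlinarith [sq_nonneg (y : ℤ), hy, Nat.pow_le_pow_left hy 2]
    calc (y + 1) ^ 3 ≤ 4 * y ^ 3 := h1
      _ ≤ 4 * 4 ^ y := Nat.mul_le_mul_left 4 ih
      _ = 4 ^ (y + 1) := by ring

lemma inv_sq_sum (z Y : ℕ) (hz : 1 ≤ z) (h : z ≤ Y) :
    ∑ l ∈ Ioc z Y, 1 / (l : ℝ) ^ 2 ≤ 1 / (z : ℝ) - 1 / Y := by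
  induction Y, h using Nat.le_induction with
  | base => simp
  | succ Y hY ih =>
    rw [Finset.sum_Ioc_succ_top (by omega)]
    have hY0 : (0 : ℝ) < Y := by exact_mod_cast (by omega : 0 < Y)
    have h1 : 1 / (((Y + 1 : ℕ) : ℝ)) ^ 2 ≤ 1 / (Y : ℝ) - 1 / ((Y + 1 : ℕ) : ℝ) := by
      push_cast
      rw [div_sub_div _ _ hY0.ne' (by positivity), div_le_div_iff₀ (by positivity) (by positivity)]
      nlinarith
    linarith

lemma W_le (b n : ℕ) (hb : 1 ≤ b) : W b n ≤ b ^ n := by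
  unfold W
  have h1 : 1 ≤ b ^ n := Nat.one_le_pow _ _ hb
  calc (b ^ n + 1) / (b + 1) ≤ (b ^ n + 1) / 2 := Nat.div_le_div_left (by omega) (by norm_num)
    _ ≤ b ^ n := by omega

/-- the sum over the primes of `T b n` -/
lemma sum_T (b y n : ℕ) (hb : 2 ≤ b) (hy : 3 ≤ y) (hn : n.Prime) (hn2 : n ≤ 2 * y) (hny : y < n) :
    ∑ l ∈ T b n, ((n : ℝ) - 1) / ((l : ℝ) - 1) ≤
      ∑ l ∈ (Icc 1 (y ^ 3)).filter (fun l => l.Prime ∧ l % n = 1), ((n : ℝ) - 1) / ((l : ℝ) - 1) +
      ∑ l ∈ (Ioc (y ^ 3) (b ^ (2 * y))).filter (fun l => l.Prime ∧ l % n = 1), ((n : ℝ) - 1) / l + 1 := by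
  classical
  have hn1 : (0 : ℝ) ≤ (n : ℝ) - 1 := by
    have : (1 : ℝ) ≤ n := by exact_mod_cast hn.one_lt.le
    linarith
  have hterm : ∀ l : ℕ, l.Prime → 0 ≤ ((n : ℝ) - 1) / ((l : ℝ) - 1) := by
    intro l hl
    have : (1 : ℝ) < l := by exact_mod_cast hl.one_lt
    exact div_nonneg hn1 (by linarith)
  have hyY : y ^ 3 ≤ b ^ (2 * y) := by
    calc y ^ 3 ≤ 4 ^ y := cube_le y (by omega)
      _ = 2 ^ (2 * y) := by rw [pow_mul]; norm_num
      _ ≤ b ^ (2 * y) := Nat.pow_le_pow_left hb _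
  have h1 : T b n ⊆ (Icc 1 (y ^ 3)).filter (fun l => l.Prime ∧ l % n = 1) ∪
      (Ioc (y ^ 3) (b ^ (2 * y))).filter (fun l => l.Prime ∧ l % n = 1) := by
    intro l hl
    unfold T at hl
    rw [mem_filter, mem_range] at hl
    rw [mem_union, mem_filter, mem_filter, mem_Icc, mem_Ioc]
    have h2 : l ≤ b ^ (2 * y) := by
      calc l ≤ W b n := by omega
        _ ≤ b ^ n := W_le b n (by omega)
        _ ≤ b ^ (2 * y) := Nat.pow_le_pow_right (by omega) hn2
    have h3 := hl.2.1.one_lt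
    by_cases h : l ≤ y ^ 3
    · left
      exact ⟨⟨by omega, h⟩, hl.2.1, hl.2.2.2⟩
    · right
      exact ⟨⟨by omega, h2⟩, hl.2.1, hl.2.2.2⟩
  have h2 : ∑ l ∈ T b n, ((n : ℝ) - 1) / ((l : ℝ) - 1) ≤
      ∑ l ∈ (Icc 1 (y ^ 3)).filter (fun l => l.Prime ∧ l % n = 1), ((n : ℝ) - 1) / ((l : ℝ) - 1) +
      ∑ l ∈ (Ioc (y ^ 3) (b ^ (2 * y))).filter (fun l => l.Prime ∧ l % n = 1), ((n : ℝ) - 1) / ((l : ℝ) - 1) := by
    rw [← Finset.sum_union]
    · apply Finset.sum_le_sum_of_subset_of_nonneg h1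
      intro l hl _
      rw [mem_union, mem_filter, mem_filter] at hl
      rcases hl with hl | hl
      · exact hterm l hl.2.1
      · exact hterm l hl.2.1
    · rw [Finset.disjoint_left]
      intro l h5 h6
      rw [mem_filter, mem_Icc] at h5
      rw [mem_filter, mem_Ioc] at h6
      omega
  have h3 : ∑ l ∈ (Ioc (y ^ 3) (b ^ (2 * y))).filter (fun l => l.Prime ∧ l % n = 1), ((n : ℝ) - 1) / ((l : ℝ) - 1) ≤
      ∑ l ∈ (Ioc (y ^ 3) (b ^ (2 * y))).filter (fun l => l.Prime ∧ l % n = 1),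
        (((n : ℝ) - 1) / l + 4 * y * (1 / (l : ℝ) ^ 2)) := by
    apply Finset.sum_le_sum
    intro l hl
    rw [mem_filter, mem_Ioc] at hl
    have hl2 : (2 : ℝ) ≤ l := by exact_mod_cast hl.2.1.two_le
    have hn' : (n : ℝ) - 1 ≤ 2 * y := by
      have : (n : ℝ) ≤ ((2 * y : ℕ) : ℝ) := by exact_mod_cast hn2
      push_cast at this
      linarith
    have h4 : 1 / ((l : ℝ) - 1) ≤ 1 / l + 2 * (1 / (l : ℝ) ^ 2) := by
      have h5 : 1 / (l : ℝ) + 2 * (1 / (l : ℝ) ^ 2) = (l + 2) / (l : ℝ) ^ 2 := by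
        field_simp
      rw [h5, div_le_div_iff₀ (by linarith) (by positivity)]
      nlinarith
    calc ((n : ℝ) - 1) / ((l : ℝ) - 1) = ((n : ℝ) - 1) * (1 / ((l : ℝ) - 1)) := by ring
      _ ≤ ((n : ℝ) - 1) * (1 / l + 2 * (1 / (l : ℝ) ^ 2)) := mul_le_mul_of_nonneg_left h4 hn1
      _ = ((n : ℝ) - 1) / l + ((n : ℝ) - 1) * (2 * (1 / (l : ℝ) ^ 2)) := by ring
      _ ≤ ((n : ℝ) - 1) / l + 2 * (y : ℝ) * (2 * (1 / (l : ℝ) ^ 2)) := by
          gcongr
      _ = ((n : ℝ) - 1) / l + 4 * (y : ℝ) * (1 / (l : ℝ) ^ 2) := by ring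
  have h4 : ∑ l ∈ (Ioc (y ^ 3) (b ^ (2 * y))).filter (fun l => l.Prime ∧ l % n = 1), 4 * (y : ℝ) * (1 / (l : ℝ) ^ 2) ≤ 1 := by
    calc ∑ l ∈ (Ioc (y ^ 3) (b ^ (2 * y))).filter (fun l => l.Prime ∧ l % n = 1), 4 * (y : ℝ) * (1 / (l : ℝ) ^ 2)
        ≤ ∑ l ∈ Ioc (y ^ 3) (b ^ (2 * y)), 4 * (y : ℝ) * (1 / (l : ℝ) ^ 2) := by
          apply Finset.sum_le_sum_of_subset_of_nonneg (filter_subset _ _)
          intro l _ _
          positivity
      _ = 4 * (y : ℝ) * ∑ l ∈ Ioc (y ^ 3) (b ^ (2 * y)), 1 / (l : ℝ) ^ 2 := by rw [Finset.mul_sum]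
      _ ≤ 4 * (y : ℝ) * (1 / ((y ^ 3 : ℕ) : ℝ)) := by
          apply mul_le_mul_of_nonneg_left _ (by positivity)
          have h5 := inv_sq_sum (y ^ 3) (b ^ (2 * y)) (Nat.one_le_pow _ _ (by omega)) hyY
          have h6 : (0 : ℝ) ≤ 1 / ((b ^ (2 * y) : ℕ) : ℝ) := by positivity
          linarith
      _ ≤ 1 := by
          have hy0 : (3 : ℝ) ≤ y := by exact_mod_cast hy
          push_cast
          rw [mul_one_div, div_le_one (by positivity)]
          nlinarith [mul_pos (show (0 : ℝ) < y by linarith) (show (0 : ℝ) < y by linarith)]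
  rw [Finset.sum_add_distrib] at h3
  linarith

/-- a dyadic block contributes at least a constant -/
lemma block (hS : St_SMALL) (hL : St_LARGE) (hE : St_EXP) (b : ℕ) (hb : 2 ≤ b) :
    ∃ c : ℝ, 0 < c ∧ ∀ᶠ y : ℕ in atTop, c ≤ ∑ n ∈ PR y, P b n := by
  obtain ⟨C1, hC1, hS⟩ := hS
  obtain ⟨C2, hC2, hL⟩ := hL
  obtain ⟨c1, hc1, hM⟩ := card_PR
  set β : ℝ := Real.log (2 * Real.log b) with hβ
  set K : ℝ := C1 / c1 + C2 / c1 + C2 + β + 1 with hK
  refine ⟨c1 * Real.exp (-K - 2), by positivity, ?_⟩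
  filter_upwards [hL, hM, eventually_ge_atTop 3] with y hL hM hy
  have hy0 : (0 : ℝ) < y := by exact_mod_cast (by omega : 0 < y)
  have hly : 0 < Real.log (y : ℝ) := Real.log_pos (by exact_mod_cast (by omega : 1 < y))
  have hPR : ∀ n ∈ PR y, n.Prime ∧ y < n ∧ n ≤ 2 * y := by
    intro n hn
    unfold PR at hn
    rw [mem_filter, mem_Ioc] at hn
    exact ⟨hn.2, hn.1⟩
  have hyY : y ^ 3 ≤ b ^ (2 * y) := by
    calc y ^ 3 ≤ 4 ^ y := cube_le y (by omega)
      _ = 2 ^ (2 * y) := by rw [pow_mul]; norm_num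
      _ ≤ b ^ (2 * y) := Nat.pow_le_pow_left hb _
  set M : ℝ := ((PR y).card : ℝ) with hMdef
  set S : ℕ → ℝ := fun n => ∑ l ∈ T b n, ((n : ℝ) - 1) / ((l : ℝ) - 1) with hSdef
  set A : ℝ := Real.log y - Real.log (Real.log y) + K with hA
  have hb1 : (1 : ℝ) < b := by exact_mod_cast (by omega : 1 < b)
  have hlb : 0 < Real.log (b : ℝ) := Real.log_pos hb1
  have hloglog : Real.log (Real.log ((b ^ (2 * y) : ℕ) : ℝ)) = Real.log y + β := by
    push_cast
    rw [Real.log_pow, hβ]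
    push_cast
    rw [← Real.log_mul hy0.ne' (by positivity)]
    congr 1
    ring
  have hsum : ∑ n ∈ PR y, S n ≤ M * A := by
    have h1 : ∑ n ∈ PR y, S n ≤ ∑ n ∈ PR y,
        (∑ l ∈ (Icc 1 (y ^ 3)).filter (fun l => l.Prime ∧ l % n = 1), ((n : ℝ) - 1) / ((l : ℝ) - 1) +
        ∑ l ∈ (Ioc (y ^ 3) (b ^ (2 * y))).filter (fun l => l.Prime ∧ l % n = 1), ((n : ℝ) - 1) / l + 1) := by
      apply Finset.sum_le_sum
      intro n hn
      obtain ⟨h2, h3, h4⟩ := hPR n hn
      exact sum_T b y n hb hy h2 h4 h3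
    rw [Finset.sum_add_distrib, Finset.sum_add_distrib, Finset.sum_const, nsmul_eq_mul, mul_one] at h1
    have h2 := hS y (by omega)
    have h3 := hL (b ^ (2 * y)) hyY
    rw [hloglog] at h3
    have h4 : (y : ℝ) / Real.log y ≤ M / c1 := by
      rw [le_div_iff₀ hc1]
      calc (y : ℝ) / Real.log y * c1 = c1 * y / Real.log y := by ring
        _ ≤ M := hM
    have h5 : C1 * (y : ℝ) / Real.log y ≤ M * (C1 / c1) := by
      calc C1 * (y : ℝ) / Real.log y = C1 * (y / Real.log y) := by ring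
        _ ≤ C1 * (M / c1) := mul_le_mul_of_nonneg_left h4 hC1.le
        _ = M * (C1 / c1) := by ring
    have h6 : C2 * (y : ℝ) / Real.log y ≤ M * (C2 / c1) := by
      calc C2 * (y : ℝ) / Real.log y = C2 * (y / Real.log y) := by ring
        _ ≤ C2 * (M / c1) := mul_le_mul_of_nonneg_left h4 hC2.le
        _ = M * (C2 / c1) := by ring
    have h7 : M * A = M * (C1 / c1) + (M * (Real.log y + β - Real.log (Real.log y) + C2) + M * (C2 / c1)) + M := by
      rw [hA, hK]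
      ring
    rw [h7]
    linarith
  have hM0 : 0 ≤ M := Nat.cast_nonneg _
  calc c1 * Real.exp (-K - 2) ≤ M * (Real.exp (-A) * Real.exp (-2)) := by
        have h1 : Real.exp (-A) = Real.log y / y * Real.exp (-K) := by
          rw [hA, show -(Real.log (y : ℝ) - Real.log (Real.log y) + K) = -Real.log y + Real.log (Real.log y) + -K by ring,
            Real.exp_add, Real.exp_add, Real.exp_neg, Real.exp_log hy0, Real.exp_log hly]
          ring
        have h2 : Real.exp (-K - 2) = Real.exp (-K) * Real.exp (-2) := by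
          rw [← Real.exp_add]
          congr 1
        rw [h1, h2]
        have h3 : c1 ≤ M * (Real.log y / y) := by
          rw [mul_div_assoc', le_div_iff₀ hy0]
          rw [div_le_iff₀ hly] at hM
          exact hM
        have h4 : 0 < Real.exp (-K) * Real.exp (-2) := by positivity
        calc c1 * (Real.exp (-K) * Real.exp (-2)) ≤ (M * (Real.log y / y)) * (Real.exp (-K) * Real.exp (-2)) :=
              mul_le_mul_of_nonneg_right h3 h4.le
          _ = M * (Real.log y / y * Real.exp (-K) * Real.exp (-2)) := by ring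
    _ ≤ ∑ n ∈ PR y, Real.exp (-A) * Real.exp (-2) * (1 + A - S n) := by
        rw [← Finset.mul_sum, Finset.sum_sub_distrib, Finset.sum_const, nsmul_eq_mul]
        have h5 : M ≤ M * (1 + A) - ∑ n ∈ PR y, S n := by linarith
        have h6 : 0 ≤ Real.exp (-A) * Real.exp (-2) := by positivity
        calc M * (Real.exp (-A) * Real.exp (-2)) = Real.exp (-A) * Real.exp (-2) * M := by ring
          _ ≤ Real.exp (-A) * Real.exp (-2) * (M * (1 + A) - ∑ n ∈ PR y, S n) :=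
              mul_le_mul_of_nonneg_left h5 h6
    _ ≤ ∑ n ∈ PR y, P b n := by
        apply Finset.sum_le_sum
        intro n hn
        obtain ⟨h2, h3, h4⟩ := hPR n hn
        refine le_trans ?_ (hE b n h2 (by omega))
        have h5 : Real.exp (-(∑ l ∈ T b n, ((n : ℝ) - 1) / ((l : ℝ) - 1)) - 2) =
            Real.exp (-A) * Real.exp (-2) * Real.exp (A - S n) := by
          rw [← Real.exp_add, ← Real.exp_add]
          congr 1
          rw [hSdef]
          ring
        rw [h5]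
        apply mul_le_mul_of_nonneg_left _ (by positivity)
        have := Real.add_one_le_exp (A - S n)
        linarith

/-- the expected number -/
noncomputable def E (b x : ℕ) : ℝ := ∑ n ∈ (Icc 1 x).filter (fun n => n.Prime ∧ n ≠ 2), P b n

theorem E_lower (hS : St_SMALL) (hL : St_LARGE) (hE : St_EXP) (b : ℕ) (hb : 2 ≤ b) :
    ∃ c : ℝ, 0 < c ∧ ∀ᶠ x : ℕ in atTop, c * Real.log x ≤ E b x := by
  obtain ⟨c, hc, hblock⟩ := block hS hL hE b hb
  obtain ⟨y0, hy0⟩ := eventually_atTop.1 hblock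
  have hP : ∀ n : ℕ, n.Prime → n ≠ 2 → 0 ≤ P b n := fun n h1 h2 => (Real.exp_pos _).le.trans (hE b n h1 h2)
  set j0 : ℕ := y0 + 2 with hj0
  have hmono : ∀ x y : ℕ, x ≤ y → E b x ≤ E b y := by
    intro x y hxy
    unfold E
    apply Finset.sum_le_sum_of_subset_of_nonneg
    · intro n hn
      rw [mem_filter, mem_Icc] at hn ⊢
      exact ⟨⟨hn.1.1, hn.1.2.trans hxy⟩, hn.2⟩
    · intro n hn _
      rw [mem_filter] at hn
      exact hP n hn.2.1 hn.2.2
  have hstep : ∀ y : ℕ, y0 ≤ y → 2 ≤ y → E b y + c ≤ E b (2 * y) := by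
    intro y h1 h2
    have h3 := hy0 y h1
    have h4 : E b (2 * y) = E b y + ∑ n ∈ PR y, P b n := by
      unfold E
      rw [← Finset.sum_union]
      · apply Finset.sum_congr _ fun _ _ => rfl
        ext n
        unfold PR
        rw [mem_union, mem_filter, mem_filter, mem_filter, mem_Icc, mem_Icc, mem_Ioc]
        constructor
        · rintro ⟨⟨h5, h6⟩, h7, h8⟩
          by_cases h9 : n ≤ y
          · exact Or.inl ⟨⟨h5, h9⟩, h7, h8⟩
          · exact Or.inr ⟨⟨by omega, h6⟩, h7⟩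
        · rintro (⟨⟨h5, h6⟩, h7⟩ | ⟨⟨h5, h6⟩, h7⟩)
          · exact ⟨⟨h5, by omega⟩, h7⟩
          · exact ⟨⟨by omega, h6⟩, h7, by omega⟩
      · rw [Finset.disjoint_left]
        intro n h5 h6
        unfold PR at h6
        rw [mem_filter, mem_Icc] at h5
        rw [mem_filter, mem_Ioc] at h6
        omega
    linarith
  have hpow : ∀ j : ℕ, c * j ≤ E b (2 ^ (j0 + j)) := by
    intro j
    induction j with
    | zero =>
      simp only [Nat.cast_zero, mul_zero]
      unfold E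
      apply Finset.sum_nonneg
      intro n hn
      rw [mem_filter] at hn
      exact hP n hn.2.1 hn.2.2
    | succ j ih =>
      have h1 : 2 ^ (j0 + (j + 1)) = 2 * 2 ^ (j0 + j) := by ring
      have h2 : y0 + 2 < 2 ^ (j0 + j) := by
        calc y0 + 2 ≤ j0 + j := by omega
          _ < 2 ^ (j0 + j) := Nat.lt_two_pow_self
      have h3 := hstep (2 ^ (j0 + j)) (by omega) (by omega)
      rw [h1]
      push_cast
      linarith
  refine ⟨c / 2, by positivity, ?_⟩
  filter_upwards [eventually_ge_atTop (2 ^ (8 * j0 + 8))] with x hx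
  have hx0 : x ≠ 0 := by
    have := Nat.one_le_two_pow (n := 8 * j0 + 8)
    omega
  set j := Nat.log 2 x with hj
  have hj1 : 2 ^ j ≤ x := Nat.pow_log_le_self 2 hx0
  have hj2 : x < 2 ^ (j + 1) := Nat.lt_pow_succ_log_self (by norm_num) x
  have hj3 : 8 * j0 + 8 ≤ j := by
    rw [hj]
    exact (Nat.le_log_iff_pow_le (by norm_num) hx0).2 hx
  have h1 := hpow (j - j0)
  have h2 : j0 + (j - j0) = j := by omega
  rw [h2] at h1
  have h3 := h1.trans (hmono _ _ hj1)
  have h4 : Real.log x ≤ ((j : ℝ) + 1) * 0.7 := by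
    have h5 : Real.log (x : ℝ) ≤ Real.log (((2 ^ (j + 1) : ℕ)) : ℝ) :=
      Real.log_le_log (by exact_mod_cast Nat.pos_of_ne_zero hx0) (by exact_mod_cast hj2.le)
    push_cast at h5
    rw [Real.log_pow] at h5
    push_cast at h5
    have h6 := Real.log_two_lt_d9
    have h7 : (0 : ℝ) ≤ (j : ℝ) + 1 := by positivity
    nlinarith
  have h5 : ((j - j0 : ℕ) : ℝ) = (j : ℝ) - j0 := by rw [Nat.cast_sub (by omega)]
  rw [h5] at h3
  have h6 : (8 : ℝ) * j0 + 8 ≤ j := by exact_mod_cast hj3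
  nlinarith

end Pool.Agent.L5helper2.RO
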