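import Mathlib
import Pool.Agent.L5helper2.RO.Defs

set_option autoImplicit false

/-! Random orders, part 3: the order `log x` outside a negligible set of exponents. -/

namespace Pool.Agent.L5helper2.RO

open Finset Filter
open scoped Topology

/-- the sum of the `(n - 1) / (l - 1)` over `T b n` -/
noncomputable def Sn (b n : ℕ) : ℝ := ∑ l ∈ T b n, ((n : ℝ) - 1) / ((l : ℝ) - 1)

/-- the odd primes with `P b n ≤ C0 (log n) / n` -/
def Sg (b : ℕ) (C0 : ℝ) : Set ℕ := {n | (n.Prime ∧ n ≠ 2) ∧ P b n ≤ C0 * Real.log n / n}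

open Classical in
/-- the sum of the `P b n` over the `n ≤ x` in `S` -/
noncomputable def ES (b : ℕ) (S : Set ℕ) (x : ℕ) : ℝ := ∑ n ∈ (Icc 1 x).filter (fun n => n ∈ S), P b n

open Classical in
/-- BAD (Bombieri-Vinogradov, helper2) -/
def St_BAD : Prop := ∀ b : ℕ, 2 ≤ b → ∃ K : ℝ, ∀ A : ℕ, ∃ C : ℝ, ∀ᶠ y : ℕ in atTop,
    (((PR y).filter (fun n => Sn b n < Real.log y - Real.log (Real.log y) - K)).card : ℝ) ≤
      C * y / Real.log y ^ A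

open Classical in
/-- CNT, from BAD: `P b n ≤ exp (- Sn b n)` (`1 - t ≤ exp (-t)`, the factors are `≥ 0`), so for `n ∈ PR y` outside the
set of BAD `P b n ≤ e^K log y / y ≤ 2 e^K log n / n`; dyadic summation (`y = ⌊x / 2^(j+1)⌋` or powers of `2`; the `n`
below `√x` trivially). -/
def St_CNT : Prop := ∀ b : ℕ, 2 ≤ b → ∃ C0 : ℝ, 0 < C0 ∧ ∀ A : ℕ, ∃ C : ℝ, ∀ x : ℕ, 2 ≤ x →
    (((Icc 1 x).filter (fun n => (n.Prime ∧ n ≠ 2) ∧ ¬ (P b n ≤ C0 * Real.log n / n))).card : ℝ) ≤ C * x / Real.log x ^ A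

/-- LOWI: as `block` and `E_lower` of `Pool.Agent.L5helper2.RO.Asm` with `PR y` replaced by
`I = PR y ∩ Sg b C0` (at least half of `PR y` for large `y` by the hypothesis with `A = 2` and `card_PR`), using
`St_LARGEI` of `Pool.Agent.L5helper2.RO.Large` (`LARGEI_thm`), `SMALL_thm`, `EXP_thm`. -/
def St_LOWI : Prop := ∀ b : ℕ, 2 ≤ b → ∀ C0 : ℝ, 0 < C0 →
    (∀ A : ℕ, ∃ C : ℝ, ∀ x : ℕ, 2 ≤ x →
      (((Icc 1 x).filter (fun n => (n.Prime ∧ n ≠ 2) ∧ ¬ (P b n ≤ C0 * Real.log n / n))).card : ℝ) ≤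
        C * x / Real.log x ^ A) →
    ∃ c : ℝ, 0 < c ∧ ∀ᶠ x : ℕ in atTop, c * Real.log x ≤ ES b (Sg b C0) x

/-- UPI: `∑_{p ≤ x} (log p) / p ≤ log x + C` (Mertens) -/
def St_UPI : Prop := ∀ b : ℕ, ∀ C0 : ℝ, 0 < C0 → ∃ C : ℝ, ∀ x : ℕ, 2 ≤ x → ES b (Sg b C0) x ≤ C * Real.log x

end Pool.Agent.L5helper2.RO
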