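import Pool.Agent.L5helper2.RO.Large

set_option autoImplicit false

namespace Pool.Agent.L5helper2.RO

open Finset Filter
open scoped Topology
open Pool.Agent.H300R2.WEH (err piR err_nonneg)

lemma err_small_ev (k : ℕ) : ∀ᶠ u : ℝ in atTop, Real.log u ^ k ≤ √u := by
  have h1 : (fun u : ℝ => Real.log u ^ (k : ℝ)) =o[atTop] (fun u : ℝ => u ^ (1 / 2 : ℝ)) :=
    isLittleO_log_rpow_rpow_atTop k (by norm_num)
  filter_upwards [h1.bound (show (0 : ℝ) < 1 by norm_num), eventually_ge_atTop 1] with u h2 h3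
  have hl : 0 ≤ Real.log u := Real.log_nonneg h3
  rw [Real.norm_of_nonneg (by positivity), Real.norm_of_nonneg (by positivity), one_mul,
    Real.rpow_natCast, ← Real.sqrt_eq_rpow] at h2
  exact h2

lemma err_small (B : ℕ) : ∃ C : ℝ, 0 < C ∧ ∃ u1 : ℕ, 3 ≤ u1 ∧ ∀ u : ℕ, u1 ≤ u → ∀ n : ℕ, 2 ≤ n →
    (n : ℝ) ≤ Real.log u ^ B →
    err (u : ℝ) 1 1 + ((n : ℝ) - 1) * err (u : ℝ) n 1 ≤ C * u / Real.log u ^ 2 := by
  obtain ⟨C, hC0, x0, h⟩ := Pool.Agent.H441R3.BV.main_nat (B + 2)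
  obtain ⟨A, hA⟩ := eventually_atTop.1 (((err_small_ev B).and (err_small_ev (2 * B + 4))).and
    ((eventually_ge_atTop (Real.exp 1))))
  refine ⟨2 * C + 1, by linarith, max (max 3 x0) ⌈A⌉₊, (le_max_left 3 x0).trans (le_max_left _ _),
    fun u hu n hn hnB => ?_⟩
  have hu3 : 3 ≤ u := (le_max_left _ _).trans ((le_max_left _ _).trans hu)
  have hux : x0 ≤ u := (le_max_right _ _).trans ((le_max_left _ _).trans hu)
  have huA : A ≤ u := (Nat.le_ceil A).trans (by exact_mod_cast (le_max_right _ _).trans hu)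
  obtain ⟨⟨e1, e2⟩, e3⟩ := hA u huA
  have hu0 : (0 : ℝ) < u := by exact_mod_cast (by omega : 0 < u)
  have hl1 : 1 ≤ Real.log (u : ℝ) := by
    rw [Real.le_log_iff_exp_le hu0]
    exact e3
  have hl0 : 0 < Real.log (u : ℝ) := by linarith
  set L := Real.log (u : ℝ) with hL
  have hs : √(u : ℝ) * √(u : ℝ) = u := Real.mul_self_sqrt hu0.le
  have hs0 : 0 ≤ √(u : ℝ) := Real.sqrt_nonneg _
  have hns : (n : ℝ) ≤ √(u : ℝ) := hnB.trans e1
  have hD2 : n ^ 2 ≤ u := by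
    have : (n : ℝ) ^ 2 ≤ u := by
      rw [sq, ← hs]
      exact mul_le_mul hns hns (Nat.cast_nonneg n) hs0
    exact_mod_cast this
  have h1 := h u hux n hD2 (fun _ => (u : ℝ)) (fun d => ⟨by exact_mod_cast (by omega : 2 ≤ u), by
    rw [Nat.floor_natCast]⟩) (fun _ => 1) (fun d _ => Nat.coprime_one_left d)
  set S := ∑ d ∈ Icc 1 n, err (u : ℝ) d 1 with hS
  have s1 : err (u : ℝ) 1 1 ≤ S := Finset.single_le_sum (f := fun d => err (u : ℝ) d 1)
    (fun d _ => err_nonneg _ _ _) (mem_Icc.2 ⟨le_rfl, by omega⟩)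
  have s2 : err (u : ℝ) n 1 ≤ S := Finset.single_le_sum (f := fun d => err (u : ℝ) d 1)
    (fun d _ => err_nonneg _ _ _) (mem_Icc.2 ⟨by omega, le_rfl⟩)
  have hn1 : (1 : ℝ) ≤ n := by exact_mod_cast (by omega : 1 ≤ n)
  have hn0 : (0 : ℝ) ≤ n := by linarith
  have s3 : err (u : ℝ) 1 1 + ((n : ℝ) - 1) * err (u : ℝ) n 1 ≤ n * S := by
    have := mul_le_mul_of_nonneg_left s2 (by linarith : (0 : ℝ) ≤ (n : ℝ) - 1)
    linarith
  refine s3.trans ?_
  -- `(log log u)^2 ≤ L^2`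
  have hll : Real.log L ^ 2 ≤ L ^ 2 := by
    have h5 : 0 ≤ Real.log L := Real.log_nonneg hl1
    have h6 : Real.log L ≤ L := (Real.log_le_sub_one_of_pos hl0).trans (by linarith)
    exact pow_le_pow_left₀ h5 h6 2
  have hLB : 0 < L ^ B := by positivity
  have t1 : n * ((u : ℝ) / L ^ (B + 2)) ≤ u / L ^ 2 := by
    have e : (u : ℝ) / L ^ 2 = L ^ B * (u / L ^ (B + 2)) := by
      rw [pow_add]
      field_simp
    rw [e]
    exact mul_le_mul_of_nonneg_right hnB (by positivity)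
  have t2 : n * ((n : ℝ) * √(u : ℝ) * Real.log L ^ 2) ≤ u / L ^ 2 := by
    rw [le_div_iff₀ (by positivity)]
    calc n * ((n : ℝ) * √(u : ℝ) * Real.log L ^ 2) * L ^ 2
        = (n * n) * (√(u : ℝ) * (Real.log L ^ 2 * L ^ 2)) := by ring
      _ ≤ (L ^ B * L ^ B) * (√(u : ℝ) * (L ^ 2 * L ^ 2)) := by gcongr
      _ = √(u : ℝ) * L ^ (2 * B + 4) := by ring
      _ ≤ √(u : ℝ) * √(u : ℝ) := mul_le_mul_of_nonneg_left e2 hs0
      _ = u := hs
  calc n * S ≤ n * (C * ((u : ℝ) / L ^ (B + 2) + n * √(u : ℝ) * Real.log L ^ 2)) :=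
        mul_le_mul_of_nonneg_left h1 hn0
    _ = C * (n * ((u : ℝ) / L ^ (B + 2)) + n * (n * √(u : ℝ) * Real.log L ^ 2)) := by ring
    _ ≤ C * (u / L ^ 2 + u / L ^ 2) := by gcongr
    _ ≤ (2 * C + 1) * (u / L ^ 2) := by
        have : 0 ≤ (u : ℝ) / L ^ 2 := by positivity
        nlinarith
    _ = (2 * C + 1) * u / L ^ 2 := by ring

end Pool.Agent.L5helper2.RO
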