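import Pool.Agent.L5helper2.RO.Large
import Pool.Agent.L5helper2.RO.ERRSMALL

set_option autoImplicit false

/-! Upper bound for the probability that the model calls `W b n` prime. -/

namespace Pool.Agent.L5helper2.RO

open Finset Filter
open scoped Topology
open Pool.Agent.H300R2.WEH (err piR err_nonneg)

lemma class_ge {n : ℕ} (hn : n.Prime) (u : ℕ) :
    (piR (u : ℝ) 1 1 : ℝ) - (err (u : ℝ) 1 1 + ((n : ℝ) - 1) * err (u : ℝ) n 1) ≤
      ((n : ℝ) - 1) * piR (u : ℝ) n 1 := by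
  have hn1 : (0 : ℝ) < (n : ℝ) - 1 := by
    have : (1 : ℝ) < n := by exact_mod_cast hn.one_lt
    linarith
  have h1 : li u / ((n : ℝ) - 1) - (piR (u : ℝ) n 1 : ℝ) ≤ err (u : ℝ) n 1 := by
    have h2 := neg_abs_le ((piR (u : ℝ) n 1 : ℝ) - (∫ t in (2 : ℝ)..(u : ℝ), 1 / Real.log t) / (Nat.totient n : ℝ))
    rw [Nat.totient_prime hn, Nat.cast_sub hn.one_lt.le, Nat.cast_one] at h2
    unfold err
    rw [Nat.totient_prime hn, Nat.cast_sub hn.one_lt.le, Nat.cast_one]
    unfold li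
    linarith
  have h3 : (piR (u : ℝ) 1 1 : ℝ) - li u ≤ err (u : ℝ) 1 1 := by
    have h4 := le_abs_self ((piR (u : ℝ) 1 1 : ℝ) - (∫ t in (2 : ℝ)..(u : ℝ), 1 / Real.log t) / (Nat.totient 1 : ℝ))
    unfold err
    rw [Nat.totient_one, Nat.cast_one, div_one] at h4 ⊢
    unfold li
    linarith
  have h5 : ((n : ℝ) - 1) * (li u / ((n : ℝ) - 1) - (piR (u : ℝ) n 1 : ℝ)) ≤ ((n : ℝ) - 1) * err (u : ℝ) n 1 :=
    mul_le_mul_of_nonneg_left h1 hn1.le
  rw [mul_sub, mul_div_cancel₀ _ hn1.ne'] at h5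
  linarith

/-- lower bound of the sum over the primes `l ≡ 1 (mod n)` -/
lemma sum_ge {n : ℕ} (hn : n.Prime) (z Y : ℕ) (hz : 3 ≤ z) (h : z ≤ Y) (C : ℝ) (hC : 0 < C)
    (he : ∀ u : ℕ, z ≤ u → err (u : ℝ) 1 1 + ((n : ℝ) - 1) * err (u : ℝ) n 1 ≤ C * u / Real.log u ^ 2) :
    ∑ l ∈ (Ioc z Y).filter Nat.Prime, (1 : ℝ) / l - 4 * C ≤
      ∑ l ∈ (Ioc z Y).filter (fun l => l.Prime ∧ l ≡ 1 [MOD n]), ((n : ℝ) - 1) / l := by
  have h1 : ∑ l ∈ (Ioc z Y).filter (fun l => l.Prime ∧ l ≡ 1 [MOD n]), ((n : ℝ) - 1) / l =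
      ((n : ℝ) - 1) * ∑ l ∈ (Ioc z Y).filter (fun l => l.Prime ∧ l ≡ 1 [MOD n]), (1 : ℝ) / l := by
    rw [Finset.mul_sum]
    apply Finset.sum_congr rfl
    intro l _
    ring
  have h2 : (Ioc z Y).filter (fun l => l.Prime ∧ l ≡ 1 [MOD 1]) = (Ioc z Y).filter Nat.Prime := by
    apply Finset.filter_congr
    intro l _
    exact ⟨fun h => h.1, fun h => ⟨h, Nat.modEq_one⟩⟩
  have hl : ∀ u : ℕ, z ≤ u → 1 ≤ Real.log u := by
    intro u hu
    rw [Real.le_log_iff_exp_le (by exact_mod_cast (by omega : 0 < u))]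
    have := Real.exp_one_lt_d9
    have h3 : (3 : ℝ) ≤ u := by exact_mod_cast (by omega : 3 ≤ u)
    linarith
  have herr1 : ∀ u : ℕ, z ≤ u →
      (err (u : ℝ) 1 1 + ((n : ℝ) - 1) * err (u : ℝ) n 1) / ((u : ℝ) + 1) ≤ C := by
    intro u hu
    have hu0 : (0 : ℝ) < u := by exact_mod_cast (by omega : 0 < u)
    rw [div_le_iff₀ (by positivity)]
    refine (he u hu).trans ?_
    rw [div_le_iff₀ (by have := hl u hu; positivity)]
    have h4 : 1 ≤ Real.log (u : ℝ) ^ 2 := one_le_pow₀ (hl u hu)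
    have h5 : 0 ≤ C * u := by positivity
    have h6 : C * u ≤ C * (u + 1) := by nlinarith
    have h7 : C * (u + 1) ≤ C * (u + 1) * Real.log (u : ℝ) ^ 2 := le_mul_of_one_le_right (by positivity) h4
    linarith
  rw [h1, sum_class n z Y h, ← h2, sum_class 1 z Y h]
  have hn1 : (0 : ℝ) < (n : ℝ) - 1 := by
    have : (1 : ℝ) < n := by exact_mod_cast hn.one_lt
    linarith
  have hY0 : (0 : ℝ) < (Y : ℝ) + 1 := by positivity
  have hz0 : (0 : ℝ) < (z : ℝ) + 1 := by positivity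
  have hA : (piR (Y : ℝ) 1 1 : ℝ) / ((Y : ℝ) + 1) - C ≤
      ((n : ℝ) - 1) * ((piR (Y : ℝ) n 1 : ℝ) / ((Y : ℝ) + 1)) := by
    have h4 := class_ge hn Y
    have h5 := herr1 Y h
    rw [mul_div_assoc']
    have h6 := div_le_div_of_nonneg_right h4 hY0.le
    rw [sub_div] at h6
    linarith
  have hB : ((n : ℝ) - 1) * ((piR (z : ℝ) n 1 : ℝ) / ((z : ℝ) + 1)) ≤
      (piR (z : ℝ) 1 1 : ℝ) / ((z : ℝ) + 1) + C := by
    have h4 := class_le hn z
    have h5 := herr1 z le_rfl
    rw [mul_div_assoc']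
    have h6 := div_le_div_of_nonneg_right h4 hz0.le
    rw [add_div] at h6
    linarith
  have hD : ∑ u ∈ Ioc z Y, (piR (u : ℝ) 1 1 : ℝ) / ((u : ℝ) * (u + 1)) -
      ∑ u ∈ Ioc z Y, (err (u : ℝ) 1 1 + ((n : ℝ) - 1) * err (u : ℝ) n 1) / ((u : ℝ) * (u + 1)) ≤
      ((n : ℝ) - 1) * ∑ u ∈ Ioc z Y, (piR (u : ℝ) n 1 : ℝ) / ((u : ℝ) * (u + 1)) := by
    rw [Finset.mul_sum, ← Finset.sum_sub_distrib]
    apply Finset.sum_le_sum
    intro u _
    rw [mul_div_assoc', ← sub_div]
    exact div_le_div_of_nonneg_right (class_ge hn u) (by positivity)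
  have hE : ∑ u ∈ Ioc z Y, (err (u : ℝ) 1 1 + ((n : ℝ) - 1) * err (u : ℝ) n 1) / ((u : ℝ) * (u + 1)) ≤
      2 * C := by
    have h7 : ∀ u ∈ Ioc z Y, (err (u : ℝ) 1 1 + ((n : ℝ) - 1) * err (u : ℝ) n 1) / ((u : ℝ) * (u + 1)) ≤
        C * (1 / (((u : ℝ) + 1) * Real.log u ^ 2)) := by
      intro u hu
      rw [mem_Ioc] at hu
      have hu0 : (0 : ℝ) < u := by exact_mod_cast (by omega : 0 < u)
      have hlu : 0 < Real.log (u : ℝ) := lt_of_lt_of_le one_pos (hl u hu.1.le)
      rw [div_le_iff₀ (by positivity)]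
      refine (he u hu.1.le).trans (le_of_eq ?_)
      field_simp
    refine (Finset.sum_le_sum h7).trans ?_
    rw [← Finset.mul_sum]
    have h8 := tele z Y hz h
    have h9 : 0 ≤ 2 / Real.log ((Y : ℝ) + 1) := by
      apply div_nonneg (by norm_num)
      apply Real.log_nonneg
      have : (0 : ℝ) ≤ Y := Nat.cast_nonneg Y
      linarith
    have h10 : 2 / Real.log ((z : ℝ) + 1) ≤ 2 := by
      have h11 : 1 ≤ Real.log ((z : ℝ) + 1) := by
        have := hl (z + 1) (by omega)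
        push_cast at this
        exact this
      rw [div_le_iff₀ (by linarith)]
      linarith
    have h12 : ∑ u ∈ Ioc z Y, 1 / (((u : ℝ) + 1) * Real.log u ^ 2) ≤ 2 := by linarith
    have := mul_le_mul_of_nonneg_left h12 hC.le
    linarith
  rw [mul_add, mul_sub]
  linarith

lemma P_le_exp (b n : ℕ) (hn : n.Prime) :
    P b n ≤ Real.exp (-(∑ l ∈ T b n, ((n : ℝ) - 1) / ((l : ℝ) - 1))) := by
  rw [← Finset.sum_neg_distrib, Real.exp_sum]
  unfold P
  apply Finset.prod_le_prod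
  · intro l hl
    unfold T at hl
    rw [mem_filter] at hl
    have hln : n ≤ l := by
      by_contra hcon
      push Not at hcon
      have := hl.2.2.2
      rw [Nat.mod_eq_of_lt hcon] at this
      have := hl.2.1.one_lt
      omega
    have h1 : (1 : ℝ) < n := by exact_mod_cast hn.one_lt
    have h2 : (n : ℝ) ≤ l := by exact_mod_cast hln
    rw [sub_nonneg, div_le_one (by linarith)]
    linarith
  · intro l _
    have := Real.add_one_le_exp (-(((n : ℝ) - 1) / ((l : ℝ) - 1)))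
    linarith

lemma P_nonneg' (b n : ℕ) (hn : n.Prime) : P b n ≤ 1 := by
  refine (P_le_exp b n hn).trans ?_
  rw [Real.exp_le_one_iff, neg_nonpos]
  apply Finset.sum_nonneg
  intro l hl
  unfold T at hl
  rw [mem_filter] at hl
  have h1 : (1 : ℝ) < n := by exact_mod_cast hn.one_lt
  have h2 : (1 : ℝ) < l := by exact_mod_cast hl.2.1.one_lt
  exact div_nonneg (by linarith) (by linarith)

lemma sum_T_ge (b n z : ℕ) (hn : n.Prime) :
    ∑ l ∈ (Ioc z (Nat.sqrt (W b n))).filter (fun l => l.Prime ∧ l ≡ 1 [MOD n]), ((n : ℝ) - 1) / l ≤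
      ∑ l ∈ T b n, ((n : ℝ) - 1) / ((l : ℝ) - 1) := by
  have h1 : (1 : ℝ) < n := by exact_mod_cast hn.one_lt
  have hsub : (Ioc z (Nat.sqrt (W b n))).filter (fun l => l.Prime ∧ l ≡ 1 [MOD n]) ⊆ T b n := by
    intro l hl
    rw [mem_filter, mem_Ioc] at hl
    obtain ⟨⟨_, hlY⟩, hlp, hlm⟩ := hl
    have hl2 : l ^ 2 ≤ W b n := by
      have := Nat.le_sqrt.1 hlY
      nlinarith
    unfold T
    rw [mem_filter, mem_range]
    refine ⟨?_, hlp, hl2, ?_⟩
    · have := hlp.one_lt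
      nlinarith
    · unfold Nat.ModEq at hlm
      rw [hlm, Nat.mod_eq_of_lt hn.one_lt]
  calc ∑ l ∈ (Ioc z (Nat.sqrt (W b n))).filter (fun l => l.Prime ∧ l ≡ 1 [MOD n]), ((n : ℝ) - 1) / l
      ≤ ∑ l ∈ (Ioc z (Nat.sqrt (W b n))).filter (fun l => l.Prime ∧ l ≡ 1 [MOD n]),
          ((n : ℝ) - 1) / ((l : ℝ) - 1) := by
        apply Finset.sum_le_sum
        intro l hl
        rw [mem_filter] at hl
        have h2 : (1 : ℝ) < l := by exact_mod_cast hl.2.1.one_lt
        apply div_le_div_of_nonneg_left (by linarith) (by linarith) (by linarith)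
    _ ≤ ∑ l ∈ T b n, ((n : ℝ) - 1) / ((l : ℝ) - 1) := by
        apply Finset.sum_le_sum_of_subset_of_nonneg hsub
        intro l hl _
        unfold T at hl
        rw [mem_filter] at hl
        have h2 : (1 : ℝ) < l := by exact_mod_cast hl.2.1.one_lt
        exact div_nonneg (by linarith) (by linarith)

lemma W_ge (b n : ℕ) (hb : 2 ≤ b) (hn : 3 ≤ n) : 2 ^ (n - 2) ≤ W b n := by
  unfold W
  rw [Nat.le_div_iff_mul_le (by omega)]
  obtain ⟨m, rfl⟩ : ∃ m, n = m + 2 := ⟨n - 2, by omega⟩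
  have h1 : 2 ^ m ≤ b ^ m := Nat.pow_le_pow_left hb m
  simp only [Nat.add_sub_cancel]
  calc 2 ^ m * (b + 1) ≤ b ^ m * (b * b) := Nat.mul_le_mul h1 (by nlinarith)
    _ = b ^ (m + 2) := by ring
    _ ≤ b ^ (m + 2) + 1 := by omega

lemma logY_ge (b n : ℕ) (hb : 2 ≤ b) (hn : 7 ≤ n) :
    (n : ℝ) / 8 ≤ Real.log (Nat.sqrt (W b n) : ℝ) := by
  set Y := Nat.sqrt (W b n) with hY
  have h1 : W b n < (Y + 1) * (Y + 1) := Nat.lt_succ_sqrt (W b n)
  have h2 := W_ge b n hb (by omega)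
  have hY1 : 1 ≤ Y := by
    rw [hY, Nat.le_sqrt]
    have : 1 ≤ 2 ^ (n - 2) := Nat.one_le_two_pow
    omega
  have h3 : 2 ^ (n - 2) ≤ (2 * Y) * (2 * Y) := by
    have h4 : (Y + 1) * (Y + 1) ≤ (2 * Y) * (2 * Y) := Nat.mul_le_mul (by omega) (by omega)
    omega
  have hYr : (1 : ℝ) ≤ Y := by exact_mod_cast hY1
  have h5 : ((2 : ℝ) ^ (n - 2)) ≤ (2 * Y) ^ 2 := by
    have : ((2 ^ (n - 2) : ℕ) : ℝ) ≤ (((2 * Y) * (2 * Y) : ℕ) : ℝ) := by exact_mod_cast h3
    push_cast at this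
    nlinarith
  have h6 := Real.log_le_log (by positivity) h5
  rw [Real.log_pow, Real.log_pow, Real.log_mul (by norm_num) (by linarith)] at h6
  have h7 : ((n - 2 : ℕ) : ℝ) = n - 2 := by
    rw [Nat.cast_sub (by omega)]
    norm_num
  rw [h7] at h6
  have h8 := Real.log_two_gt_d9
  have h9 : (7 : ℝ) ≤ n := by exact_mod_cast hn
  push_cast at h6
  nlinarith

/-- upper bound for the probability -/
def St_UPPER : Prop := ∀ b : ℕ, 2 ≤ b → ∀ ε : ℝ, 0 < ε → ∃ C : ℝ, 0 < C ∧ ∀ n : ℕ, n.Prime → n ≠ 2 →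
  P b n ≤ C * (n : ℝ) ^ (ε - 1)

theorem UPPER_thm : St_UPPER := by
  intro b hb ε hε
  obtain ⟨B0, hB0⟩ := exists_nat_gt (1 / ε)
  set B : ℕ := B0 + 2 with hB
  have hBε : 1 / (B : ℝ) ≤ ε := by
    have hBp : (0 : ℝ) < B := by positivity
    have h1 : 1 / ε < B := by
      rw [hB]; push_cast; linarith
    rw [div_lt_iff₀ hε] at h1
    rw [div_le_iff₀ hBp]
    linarith
  obtain ⟨C, hC, u1, hu13, herr⟩ := err_small B
  obtain ⟨M0, hM0⟩ := Pool.Agent.H305R2.mertens_inv_tendsto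
  obtain ⟨z0, hz0⟩ := Metric.tendsto_atTop.1 hM0 (1 / 2) (by norm_num)
  set K : ℕ := max u1 (max z0 16) with hK
  set N0 : ℕ := max (K ^ B) 256 with hN0
  refine ⟨max (N0 : ℝ) (Real.exp (4 * C + 1 + Real.log 8 + Real.log 2)), by positivity, ?_⟩
  intro n hn hn2
  have hn1 : (1 : ℝ) < n := by exact_mod_cast hn.one_lt
  have hn0 : (0 : ℝ) < n := by linarith
  by_cases hsmall : n ≤ N0
  · have h1 : (1 : ℝ) ≤ N0 * (n : ℝ) ^ (ε - 1) := by
      have h2 : (n : ℝ) ^ (-1 : ℝ) ≤ (n : ℝ) ^ (ε - 1) :=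
        Real.rpow_le_rpow_of_exponent_le hn1.le (by linarith)
      rw [Real.rpow_neg_one] at h2
      have h3 : (n : ℝ) ≤ N0 := by exact_mod_cast hsmall
      calc (1 : ℝ) = n * (n : ℝ)⁻¹ := by field_simp
        _ ≤ N0 * (n : ℝ) ^ (ε - 1) := by
          apply mul_le_mul h3 h2 (by positivity) (by positivity)
    refine (P_nonneg' b n hn).trans (h1.trans ?_)
    exact mul_le_mul_of_nonneg_right (le_max_left _ _) (by positivity)
  · push Not at hsmall
    have hBp : (0 : ℝ) < B := by positivity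
    set w : ℝ := (n : ℝ) ^ (1 / (B : ℝ)) with hw
    have hw0 : 0 < w := by positivity
    have hwB : w ^ B = n := by
      rw [hw, ← Real.rpow_natCast, ← Real.rpow_mul hn0.le]
      field_simp
      exact Real.rpow_one _
    have hwK : (K : ℝ) ≤ w := by
      have h1 : ((K : ℝ)) ^ B ≤ w ^ B := by
        rw [hwB]
        have : K ^ B ≤ n := (le_max_left _ _).trans hsmall.le
        exact_mod_cast this
      exact le_of_pow_le_pow_left₀ (by omega) hw0.le h1
    set z : ℕ := ⌈Real.exp w⌉₊ with hz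
    have hzw : Real.exp w ≤ z := Nat.le_ceil _
    have hzK : K ≤ z := by
      have h1 : (K : ℝ) ≤ z := by
        have := Real.add_one_le_exp w
        linarith
      exact_mod_cast h1
    have hz3 : 3 ≤ z := by
      have : 16 ≤ K := (le_max_right _ _).trans (le_max_right _ _)
      omega
    have hzr : (0 : ℝ) < z := by exact_mod_cast (by omega : 0 < z)
    have hlogz : Real.log z ≤ 2 * w := by
      have h1 : (z : ℝ) ≤ Real.exp w + 1 := (Nat.ceil_lt_add_one (Real.exp_pos w).le).le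
      have h16 : (16 : ℝ) ≤ w := by
        have : ((16 : ℕ) : ℝ) ≤ K := by exact_mod_cast ((le_max_right _ _).trans (le_max_right _ _) : 16 ≤ K)
        push_cast at this
        linarith
      have h2 : Real.exp w + 1 ≤ Real.exp (2 * w) := by
        rw [two_mul, Real.exp_add]
        have h3 : 2 ≤ Real.exp w := by
          have := Real.add_one_le_exp w
          linarith
        nlinarith
      rw [← Real.log_exp (2 * w)]
      exact Real.log_le_log hzr (h1.trans h2)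
    have hwn : 2 * w ≤ n / 8 := by
      have h256 : 256 ≤ n := (le_max_right _ _).trans hsmall.le
      have hw1 : 1 ≤ w := by
        have : ((16 : ℕ) : ℝ) ≤ K := by exact_mod_cast ((le_max_right _ _).trans (le_max_right _ _) : 16 ≤ K)
        push_cast at this
        linarith
      have h16 : (16 : ℝ) ≤ w := by
        have : ((16 : ℕ) : ℝ) ≤ K := by exact_mod_cast ((le_max_right _ _).trans (le_max_right _ _) : 16 ≤ K)
        push_cast at this
        linarith
      have h1 : w ^ 2 ≤ n := by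
        rw [← hwB]
        exact pow_le_pow_right₀ hw1 (by omega)
      nlinarith
    set Y : ℕ := Nat.sqrt (W b n) with hY
    have h256 : 256 ≤ n := (le_max_right _ _).trans hsmall.le
    have hlogY := logY_ge b n hb (by omega)
    rw [← hY] at hlogY
    have hY0 : (0 : ℝ) < Y := by
      rcases Nat.eq_zero_or_pos Y with h | h
      · rw [h] at hlogY
        simp at hlogY
        linarith
      · exact_mod_cast h
    have hzY : z ≤ Y := by
      have h1 : Real.log z ≤ Real.log Y := by linarith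
      have h2 := (Real.log_le_log_iff hzr hY0).1 h1
      exact_mod_cast h2
    have hez : ∀ u : ℕ, z ≤ u →
        err (u : ℝ) 1 1 + ((n : ℝ) - 1) * err (u : ℝ) n 1 ≤ C * u / Real.log u ^ 2 := by
      intro u hu
      apply herr u (by have : u1 ≤ K := le_max_left _ _; omega) n hn.two_le
      have h1 : w ≤ Real.log u := by
        rw [Real.le_log_iff_exp_le (by exact_mod_cast (by omega : 0 < u))]
        exact hzw.trans (by exact_mod_cast hu)
      calc (n : ℝ) = w ^ B := hwB.symm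
        _ ≤ Real.log u ^ B := pow_le_pow_left₀ hw0.le h1 B
    have hS := sum_ge hn z Y hz3 hzY C hC hez
    have hT := sum_T_ge b n z hn
    rw [← hY] at hT
    -- Mertens
    have hMer : Real.log (Real.log Y) - Real.log (Real.log z) - 1 ≤
        ∑ l ∈ (Ioc z Y).filter Nat.Prime, (1 : ℝ) / l := by
      have hzz0 : z0 ≤ K := (le_max_left _ _).trans (le_max_right _ _)
      have h1 := hz0 Y (by omega)
      have h2 := hz0 z (by omega)
      rw [Real.dist_eq] at h1 h2
      have h3 := abs_lt.1 h1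
      have h4 := abs_lt.1 h2
      have h5 : ∑ l ∈ (Ioc z Y).filter Nat.Prime, (1 : ℝ) / l =
          ∑ p ∈ (Icc 1 Y).filter Nat.Prime, (1 : ℝ) / p - ∑ p ∈ (Icc 1 z).filter Nat.Prime, (1 : ℝ) / p := by
        rw [Finset.sum_filter, Finset.sum_filter, Finset.sum_filter]
        have h7 : Icc 1 Y = Ioc 0 Y := rfl
        have h8 : Icc 1 z = Ioc 0 z := rfl
        rw [h7, h8, ← Finset.sum_Ioc_consecutive _ (Nat.zero_le z) hzY]
        ring
      rw [h5]
      linarith [h3.1, h4.2]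
    have hllY : Real.log n - Real.log 8 ≤ Real.log (Real.log Y) := by
      rw [← Real.log_div (by linarith) (by norm_num)]
      exact Real.log_le_log (by positivity) hlogY
    have hllz : Real.log (Real.log z) ≤ (1 / (B : ℝ)) * Real.log n + Real.log 2 := by
      have h1 : 0 < Real.log (z : ℝ) := Real.log_pos (by exact_mod_cast (by omega : 1 < z))
      calc Real.log (Real.log z) ≤ Real.log (2 * w) := Real.log_le_log h1 hlogz
        _ = Real.log 2 + Real.log w := Real.log_mul (by norm_num) hw0.ne'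
        _ = (1 / (B : ℝ)) * Real.log n + Real.log 2 := by
          rw [hw, Real.log_rpow hn0]
          ring
    have hlogn : 0 < Real.log n := Real.log_pos hn1
    have hfinal : -(∑ l ∈ T b n, ((n : ℝ) - 1) / ((l : ℝ) - 1)) ≤
        (4 * C + 1 + Real.log 8 + Real.log 2) + Real.log n * (ε - 1) := by
      have h1 : (1 / (B : ℝ)) * Real.log n ≤ ε * Real.log n := mul_le_mul_of_nonneg_right hBε hlogn.le
      nlinarith
    refine (P_le_exp b n hn).trans ((Real.exp_le_exp.2 hfinal).trans ?_)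
    rw [Real.exp_add, Real.rpow_def_of_pos hn0]
    exact mul_le_mul_of_nonneg_right (le_max_right _ _) (Real.exp_pos _).le

end Pool.Agent.L5helper2.RO
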