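import Mathlib
import Pool.Agent.L5helper2.RO.Defs3
import Pool.Agent.L5helper2.RO.UPPER

set_option autoImplicit false

namespace Pool.Agent.L5helper2.RO

open Finset Filter
open scoped Topology
open Pool.Agent.H300R2.WEH (err piR err_nonneg)

/-- Bombieri-Vinogradov with any power of the logarithm -/
lemma bv_U (U : ℕ) : ∃ C : ℝ, 0 < C ∧ ∃ y0 : ℕ, 4 ≤ y0 ∧ ∀ y : ℕ, y0 ≤ y → ∀ u : ℕ, y ^ 3 ≤ u →
    ∑ n ∈ PR y, err (u : ℝ) n 1 ≤ C * u / Real.log u ^ U ∧ err (u : ℝ) 1 1 ≤ C * u / Real.log u ^ U := by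
  obtain ⟨C, hC0, x0, h⟩ := Pool.Agent.H441R3.BV.main_nat U
  have hasy : ∀ᶠ u : ℝ in atTop, Real.log u ^ U * Real.log (Real.log u) ^ 2 ≤ u ^ (1 / 6 : ℝ) / 2 := by
    have h1 : (fun u : ℝ => Real.log u ^ ((U + 2 : ℕ) : ℝ)) =o[atTop] (fun u : ℝ => u ^ (1 / 6 : ℝ)) :=
      isLittleO_log_rpow_rpow_atTop _ (by norm_num)
    filter_upwards [h1.bound (show (0 : ℝ) < 1 / 2 by norm_num), eventually_ge_atTop (Real.exp 1),
      Real.tendsto_log_atTop.eventually_ge_atTop 1] with u h2 h3 h4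
    have hu0 : 0 < u := lt_of_lt_of_le (Real.exp_pos 1) h3
    rw [Real.norm_of_nonneg (by positivity), Real.norm_of_nonneg (by positivity)] at h2
    have h5 : 0 ≤ Real.log (Real.log u) := Real.log_nonneg h4
    have h6 : Real.log (Real.log u) ≤ Real.log u := (Real.log_le_sub_one_of_pos (by linarith)).trans (by linarith)
    have h7 : Real.log (Real.log u) ^ 2 ≤ Real.log u ^ 2 := pow_le_pow_left₀ h5 h6 2
    have h8 : Real.log u ^ ((U + 2 : ℕ) : ℝ) = Real.log u ^ U * Real.log u ^ 2 := by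
      rw [Real.rpow_natCast, pow_add]
    rw [h8] at h2
    have h9 : Real.log u ^ U * Real.log (Real.log u) ^ 2 ≤ Real.log u ^ U * Real.log u ^ 2 :=
      mul_le_mul_of_nonneg_left h7 (by positivity)
    linarith
  obtain ⟨B, hB⟩ := eventually_atTop.1 hasy
  refine ⟨2 * C + 1, by linarith, max (max 4 x0) ⌈B⌉₊, (by omega), fun y hy u hu => ?_⟩
  have hy4 : 4 ≤ y := (le_max_left _ _).trans ((le_max_left _ _).trans hy)
  have hyx : x0 ≤ y := (le_max_right _ _).trans ((le_max_left _ _).trans hy)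
  have hyB : B ≤ y := (Nat.le_ceil B).trans (by exact_mod_cast (le_max_right _ _).trans hy)
  have hyu : y ≤ u := by
    calc y = y ^ 1 := (pow_one y).symm
      _ ≤ y ^ 3 := Nat.pow_le_pow_right (by omega) (by norm_num)
      _ ≤ u := hu
  have hu0 : (0 : ℝ) < u := by exact_mod_cast (by omega : 0 < u)
  have hD2 : (2 * y) ^ 2 ≤ u := by
    calc (2 * y) ^ 2 = 4 * y ^ 2 := by ring
      _ ≤ y * y ^ 2 := Nat.mul_le_mul_right _ hy4
      _ = y ^ 3 := by ring
      _ ≤ u := hu
  have hl0 : 0 < Real.log (u : ℝ) := Real.log_pos (by exact_mod_cast (by omega : 1 < u))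
  have h1 := h u (by omega) (2 * y) hD2 (fun _ => (u : ℝ)) (fun d => ⟨by exact_mod_cast (by omega : 2 ≤ u), by
    rw [Nat.floor_natCast]⟩) (fun _ => 1) (fun d _ => Nat.coprime_one_left d)
  have h2 := hB u (hyB.trans (by exact_mod_cast hyu))
  have h3 : ((2 * y : ℕ) : ℝ) * √(u : ℝ) * Real.log (Real.log u) ^ 2 ≤ u / Real.log u ^ U := by
    have hy3 : (y : ℝ) ≤ (u : ℝ) ^ (1 / 3 : ℝ) := by
      have h4 : ((y : ℝ) ^ 3) ≤ u := by exact_mod_cast hu
      calc (y : ℝ) = ((y : ℝ) ^ 3) ^ (1 / 3 : ℝ) := by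
            rw [← Real.rpow_natCast, ← Real.rpow_mul (Nat.cast_nonneg y)]
            norm_num
        _ ≤ (u : ℝ) ^ (1 / 3 : ℝ) := Real.rpow_le_rpow (by positivity) h4 (by norm_num)
    rw [le_div_iff₀ (by positivity)]
    have hs : √(u : ℝ) = (u : ℝ) ^ (1 / 2 : ℝ) := Real.sqrt_eq_rpow _
    have h5 : (u : ℝ) ^ (1 / 3 : ℝ) * (u : ℝ) ^ (1 / 2 : ℝ) * (u : ℝ) ^ (1 / 6 : ℝ) = u := by
      rw [← Real.rpow_add hu0, ← Real.rpow_add hu0]
      norm_num
    calc ((2 * y : ℕ) : ℝ) * √(u : ℝ) * Real.log (Real.log u) ^ 2 * Real.log u ^ U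
        = 2 * (y * √(u : ℝ)) * (Real.log u ^ U * Real.log (Real.log u) ^ 2) := by push_cast; ring
      _ ≤ 2 * ((u : ℝ) ^ (1 / 3 : ℝ) * √(u : ℝ)) * ((u : ℝ) ^ (1 / 6 : ℝ) / 2) := by
          apply mul_le_mul _ h2 (by positivity) (by positivity)
          apply mul_le_mul_of_nonneg_left _ (by norm_num)
          exact mul_le_mul_of_nonneg_right hy3 (Real.sqrt_nonneg _)
      _ = u := by rw [hs]; linarith
  have h6 : ∑ d ∈ Icc 1 (2 * y), err (u : ℝ) d 1 ≤ (2 * C + 1) * u / Real.log u ^ U := by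
    refine h1.trans ?_
    have h7 : C * ((u : ℝ) / Real.log u ^ U + ((2 * y : ℕ) : ℝ) * √(u : ℝ) * Real.log (Real.log u) ^ 2) ≤
        C * (2 * (u / Real.log u ^ U)) := by
      apply mul_le_mul_of_nonneg_left _ hC0
      linarith
    refine h7.trans ?_
    have h8 : 0 ≤ (u : ℝ) / Real.log u ^ U := by positivity
    have h9 : (2 * C + 1) * u / Real.log u ^ U = (2 * C + 1) * (u / Real.log u ^ U) := by ring
    rw [h9]
    nlinarith
  constructor
  · refine le_trans ?_ h6
    apply Finset.sum_le_sum_of_subset_of_nonneg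
    · intro n hn
      unfold PR at hn
      rw [mem_filter, mem_Ioc] at hn
      rw [mem_Icc]
      omega
    · intro n _ _
      exact err_nonneg _ _ _
  · refine le_trans ?_ h6
    exact Finset.single_le_sum (f := fun d => err (u : ℝ) d 1) (fun d _ => err_nonneg _ _ _)
      (mem_Icc.2 ⟨le_rfl, by omega⟩)

lemma W_mono (b : ℕ) (hb : 1 ≤ b) {m n : ℕ} (h : m ≤ n) : W b m ≤ W b n := by
  unfold W
  exact Nat.div_le_div_right (by have := Nat.pow_le_pow_right hb h; omega)

lemma W_geb (b : ℕ) (hb : 2 ≤ b) (m : ℕ) (hm : 2 ≤ m) : b ^ (m - 2) ≤ W b m := by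
  unfold W
  rw [Nat.le_div_iff_mul_le (by omega)]
  obtain ⟨k, rfl⟩ : ∃ k, m = k + 2 := ⟨m - 2, by omega⟩
  rw [Nat.add_sub_cancel]
  have h1 : b ^ (k + 2) = b * b * b ^ k := by ring
  rw [h1]
  have h2 : b ^ k * (b + 1) ≤ b * b * b ^ k := by
    have h3 : b + 1 ≤ b * b := by nlinarith
    calc b ^ k * (b + 1) = (b + 1) * b ^ k := by ring
      _ ≤ b * b * b ^ k := Nat.mul_le_mul_right _ h3
  omega

open Classical in
theorem BAD_thm : St_BAD := by
  intro b hb
  obtain ⟨M0, hM0⟩ := Pool.Agent.H305R2.mertens_inv_tendsto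
  set F : ℕ → ℝ := fun N => ∑ p ∈ (Icc 1 N).filter Nat.Prime, (1 : ℝ) / p with hF
  obtain ⟨z0, hz0⟩ := Metric.tendsto_atTop.1 hM0 (1 / 2) (by norm_num)
  refine ⟨Real.log 24 + 2, fun A => ?_⟩
  obtain ⟨C, hC, y0, hy04, hbv⟩ := bv_U (A + 2)
  have hlogy : ∀ᶠ y : ℕ in atTop, 24 * Real.log (y : ℝ) + 8 ≤ y := by
    have h1 := Real.isLittleO_log_id_atTop.bound (show (0 : ℝ) < 1 / 48 by norm_num)
    have h2 := (tendsto_natCast_atTop_atTop (R := ℝ)).eventually h1
    filter_upwards [h2, eventually_ge_atTop 16] with y h3 h4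
    have h5 : (16 : ℝ) ≤ y := by exact_mod_cast h4
    simp only [id] at h3
    rw [Real.norm_of_nonneg (Real.log_natCast_nonneg y), Real.norm_of_nonneg (Nat.cast_nonneg y)] at h3
    linarith
  refine ⟨12 * C, ?_⟩
  filter_upwards [eventually_ge_atTop (max y0 (max 16 z0)), hlogy] with y hy hlogy
  have hyy0 : y0 ≤ y := (le_max_left _ _).trans hy
  have hy16 : 16 ≤ y := (le_max_left _ _).trans ((le_max_right _ _).trans hy)
  have hyz0 : z0 ≤ y := (le_max_right _ _).trans ((le_max_right _ _).trans hy)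
  set z := y ^ 3 with hz
  set Y := Nat.sqrt (W b (y + 1)) with hY'
  have hyz : y ≤ z := by
    calc y = y ^ 1 := (pow_one y).symm
      _ ≤ y ^ 3 := Nat.pow_le_pow_right (by omega) (by norm_num)
  have hPR : ∀ n ∈ PR y, n.Prime ∧ y < n ∧ n ≤ 2 * y := by
    intro n hn
    unfold PR at hn
    rw [mem_filter, mem_Ioc] at hn
    exact ⟨hn.2, hn.1⟩
  have hy0r : (16 : ℝ) ≤ y := by exact_mod_cast hy16
  have hly : 1 ≤ Real.log (y : ℝ) := by
    rw [Real.le_log_iff_exp_le (by linarith)]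
    have := Real.exp_one_lt_d9
    linarith
  -- the size of `Y`
  have hlY : (y : ℝ) / 8 ≤ Real.log Y := by
    have h1 : (2 : ℝ) ^ (y - 1) ≤ ((Y : ℝ) + 1) ^ 2 := by
      have h2 : 2 ^ (y - 1) ≤ W b (y + 1) := by
        calc 2 ^ (y - 1) ≤ b ^ (y - 1) := Nat.pow_le_pow_left hb _
          _ = b ^ (y + 1 - 2) := by congr 1
          _ ≤ W b (y + 1) := W_geb b hb (y + 1) (by omega)
      have h3 : W b (y + 1) < (Y + 1) * (Y + 1) := Nat.lt_succ_sqrt _
      have h4 : 2 ^ (y - 1) ≤ (Y + 1) ^ 2 := by nlinarith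
      exact_mod_cast h4
    have h2 := Real.log_le_log (by positivity) h1
    rw [Real.log_pow, Real.log_pow, Nat.cast_sub (by omega : 1 ≤ y)] at h2
    push_cast at h2
    have h3 := Real.log_two_gt_d9
    have h5 : Real.log ((Y : ℝ) + 1) ≤ Real.log Y + Real.log 2 := by
      have hY1 : (1 : ℝ) ≤ Y := by
        by_contra hcon
        push Not at hcon
        have hY0 : Y = 0 := by
          have : Y < 1 := by exact_mod_cast hcon
          omega
        rw [hY0] at h2
        norm_num at h2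
        nlinarith
      rw [← Real.log_mul (by positivity) (by norm_num)]
      apply Real.log_le_log (by positivity)
      linarith
    have h6 := Real.log_two_lt_d9
    nlinarith
  have hlogz : Real.log (z : ℝ) = 3 * Real.log y := by
    rw [hz]
    push_cast
    rw [Real.log_pow]
    push_cast
    ring
  have hY0 : (0 : ℝ) < Y := by
    by_contra hcon
    push Not at hcon
    have h1 : (Y : ℝ) = 0 := le_antisymm hcon (Nat.cast_nonneg _)
    rw [h1, Real.log_zero] at hlY
    linarith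
  have hz0r : (0 : ℝ) < z := by
    have : 0 < z := by omega
    exact_mod_cast this
  have hzY : z ≤ Y := by
    have h1 : Real.log (z : ℝ) ≤ Real.log Y := by
      rw [hlogz]
      linarith
    have h2 := (Real.log_le_log_iff hz0r hY0).1 h1
    exact_mod_cast h2
  set e : ℕ → ℕ → ℝ := fun n u => err (u : ℝ) 1 1 + ((n : ℝ) - 1) * err (u : ℝ) n 1 with he
  set S1 : ℝ := ∑ l ∈ (Ioc z Y).filter (fun l => l.Prime ∧ l ≡ 1 [MOD 1]), (1 : ℝ) / l with hS1
  have hS1F : S1 = F Y - F z := by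
    rw [hS1, hF]
    simp only
    have h1 : (Ioc z Y).filter (fun l => l.Prime ∧ l ≡ 1 [MOD 1]) = (Ioc z Y).filter Nat.Prime := by
      apply Finset.filter_congr
      intro l _
      exact ⟨fun h => h.1, fun h => ⟨h, Nat.modEq_one⟩⟩
    rw [h1, Finset.sum_filter, Finset.sum_filter, Finset.sum_filter]
    have h7 : Icc 1 Y = Ioc 0 Y := rfl
    have h8 : Icc 1 z = Ioc 0 z := rfl
    rw [h7, h8, ← Finset.sum_Ioc_consecutive _ (Nat.zero_le z) hzY]
    ring
  have hS1ge : Real.log y - Real.log (Real.log y) - (Real.log 24 + 1) ≤ S1 := by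
    have h1 := hz0 Y (by omega)
    have h2 := hz0 z (by omega)
    rw [Real.dist_eq] at h1 h2
    have h3 := abs_lt.1 h1
    have h4 := abs_lt.1 h2
    have h5 : Real.log (y : ℝ) - Real.log 8 ≤ Real.log (Real.log Y) := by
      rw [← Real.log_div (by positivity) (by norm_num)]
      exact Real.log_le_log (by positivity) hlY
    have h6 : Real.log (Real.log (z : ℝ)) = Real.log 3 + Real.log (Real.log y) := by
      rw [hlogz, Real.log_mul (by norm_num) (by linarith)]
    have h7 : Real.log 24 = Real.log 8 + Real.log 3 := by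
      rw [← Real.log_mul (by norm_num) (by norm_num)]
      norm_num
    rw [hS1F]
    simp only [hF] at h3 h4 ⊢
    linarith [h3.1, h4.2]
  set G : ℕ → ℝ := fun n => e n z / ((z : ℝ) + 1) + (e n Y / ((Y : ℝ) + 1) +
    ∑ u ∈ Ioc z Y, e n u / ((u : ℝ) * (u + 1))) with hG
  have key : ∀ n ∈ PR y, S1 - G n ≤ Sn b n := by
    intro n hn
    obtain ⟨hnp, hn1, hn2⟩ := hPR n hn
    have hn10 : (0 : ℝ) ≤ (n : ℝ) - 1 := by
      have : (1 : ℝ) ≤ n := by exact_mod_cast hnp.one_lt.le
      linarith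
    have h0 : ((n : ℝ) - 1) * ∑ l ∈ (Ioc z Y).filter (fun l => l.Prime ∧ l ≡ 1 [MOD n]), (1 : ℝ) / l ≤ Sn b n := by
      unfold Sn
      rw [Finset.mul_sum]
      calc ∑ l ∈ (Ioc z Y).filter (fun l => l.Prime ∧ l ≡ 1 [MOD n]), ((n : ℝ) - 1) * ((1 : ℝ) / l)
          ≤ ∑ l ∈ (Ioc z Y).filter (fun l => l.Prime ∧ l ≡ 1 [MOD n]), ((n : ℝ) - 1) / ((l : ℝ) - 1) := by
            apply Finset.sum_le_sum
            intro l hl
            rw [mem_filter] at hl
            have hl2 : (2 : ℝ) ≤ l := by exact_mod_cast hl.2.1.two_le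
            rw [mul_one_div]
            exact div_le_div_of_nonneg_left hn10 (by linarith) (by linarith)
        _ ≤ ∑ l ∈ T b n, ((n : ℝ) - 1) / ((l : ℝ) - 1) := by
            apply Finset.sum_le_sum_of_subset_of_nonneg
            · intro l hl
              rw [mem_filter, mem_Ioc] at hl
              unfold T
              rw [mem_filter, mem_range]
              have h3 : l ^ 2 ≤ W b n := by
                calc l ^ 2 ≤ Y ^ 2 := Nat.pow_le_pow_left hl.1.2 2
                  _ ≤ W b (y + 1) := Nat.sqrt_le' _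
                  _ ≤ W b n := W_mono b (by omega) (by omega)
              have h4 : l % n = 1 := by
                have h5 := hl.2.2
                unfold Nat.ModEq at h5
                rwa [Nat.mod_eq_of_lt hnp.one_lt] at h5
              have h6 := Nat.le_self_pow (n := 2) (by norm_num) l
              exact ⟨by omega, hl.2.1, h3, h4⟩
            · intro l hl _
              unfold T at hl
              rw [mem_filter] at hl
              have : (2 : ℝ) ≤ l := by exact_mod_cast hl.2.1.two_le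
              exact div_nonneg hn10 (by linarith)
    refine le_trans ?_ h0
    rw [sum_class n z Y hzY, hS1, sum_class 1 z Y hzY, mul_add, mul_sub]
    have h2 : (piR (Y : ℝ) 1 1 : ℝ) / ((Y : ℝ) + 1) - e n Y / ((Y : ℝ) + 1) ≤
        ((n : ℝ) - 1) * ((piR (Y : ℝ) n 1 : ℝ) / ((Y : ℝ) + 1)) := by
      rw [mul_div_assoc', ← sub_div]
      exact div_le_div_of_nonneg_right (class_ge hnp Y) (by positivity)
    have h3 : ((n : ℝ) - 1) * ((piR (z : ℝ) n 1 : ℝ) / ((z : ℝ) + 1)) ≤
        (piR (z : ℝ) 1 1 : ℝ) / ((z : ℝ) + 1) + e n z / ((z : ℝ) + 1) := by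
      rw [mul_div_assoc', ← add_div]
      exact div_le_div_of_nonneg_right (class_le hnp z) (by positivity)
    have h7 : ∑ u ∈ Ioc z Y, (piR (u : ℝ) 1 1 : ℝ) / ((u : ℝ) * (u + 1)) -
          ∑ u ∈ Ioc z Y, e n u / ((u : ℝ) * (u + 1)) ≤
        ((n : ℝ) - 1) * ∑ u ∈ Ioc z Y, (piR (u : ℝ) n 1 : ℝ) / ((u : ℝ) * (u + 1)) := by
      rw [Finset.mul_sum, ← Finset.sum_sub_distrib]
      apply Finset.sum_le_sum
      intro u _
      rw [mul_div_assoc', ← sub_div]
      exact div_le_div_of_nonneg_right (class_ge hnp u) (by positivity)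
    rw [hG]
    simp only
    linarith
  have hM : ((PR y).card : ℝ) ≤ y := by
    have : (PR y).card ≤ y := by
      unfold PR
      refine (Finset.card_filter_le _ _).trans ?_
      rw [Nat.card_Ioc]
      omega
    exact_mod_cast this
  have hy0' : (0 : ℝ) < y := by linarith
  have hsum : ∀ u : ℕ, z ≤ u → ∑ n ∈ PR y, e n u ≤ 3 * y * (C * u / Real.log u ^ (A + 2)) := by
    intro u hu
    obtain ⟨h1, h2⟩ := hbv y hyy0 u hu
    have hlu : 0 ≤ Real.log (u : ℝ) := Real.log_natCast_nonneg u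
    have hpos : 0 ≤ C * (u : ℝ) / Real.log u ^ (A + 2) := by positivity
    rw [he]
    simp only
    rw [Finset.sum_add_distrib, Finset.sum_const, nsmul_eq_mul]
    have h3 : ∑ n ∈ PR y, ((n : ℝ) - 1) * err (u : ℝ) n 1 ≤ 2 * y * ∑ n ∈ PR y, err (u : ℝ) n 1 := by
      rw [Finset.mul_sum]
      apply Finset.sum_le_sum
      intro n hn
      apply mul_le_mul_of_nonneg_right _ (err_nonneg _ _ _)
      have : (n : ℝ) ≤ ((2 * y : ℕ) : ℝ) := by exact_mod_cast (hPR n hn).2.2
      push_cast at this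
      linarith
    have h4 : ((PR y).card : ℝ) * err (u : ℝ) 1 1 ≤ y * (C * u / Real.log u ^ (A + 2)) :=
      mul_le_mul hM h2 (err_nonneg _ _ _) hy0'.le
    have h5 : 2 * (y : ℝ) * ∑ n ∈ PR y, err (u : ℝ) n 1 ≤ 2 * y * (C * u / Real.log u ^ (A + 2)) :=
      mul_le_mul_of_nonneg_left h1 (by positivity)
    linarith
  -- one value of `u`
  have hone : ∀ u : ℕ, z ≤ u → (∑ n ∈ PR y, e n u) / ((u : ℝ) + 1) ≤ 3 * C * y / Real.log y ^ A := by
    intro u hu
    have hu0 : (0 : ℝ) < u := by exact_mod_cast (by omega : 0 < u)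
    have hlu : Real.log (y : ℝ) ≤ Real.log u := Real.log_le_log hy0' (by exact_mod_cast (by omega : y ≤ u))
    rw [div_le_iff₀ (by positivity)]
    refine (hsum u hu).trans ?_
    have h2 : C * (u : ℝ) / Real.log u ^ (A + 2) ≤ C * (u + 1) / Real.log y ^ A := by
      apply div_le_div₀ (by positivity) (by nlinarith) (by positivity)
      calc Real.log (y : ℝ) ^ A ≤ Real.log (y : ℝ) ^ (A + 2) := pow_le_pow_right₀ hly (by omega)
        _ ≤ Real.log (u : ℝ) ^ (A + 2) := pow_le_pow_left₀ (by linarith) hlu _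
    calc 3 * (y : ℝ) * (C * u / Real.log u ^ (A + 2)) ≤ 3 * y * (C * (u + 1) / Real.log y ^ A) :=
          mul_le_mul_of_nonneg_left h2 (by positivity)
      _ = 3 * C * y / Real.log y ^ A * (u + 1) := by ring
  have htot : ∑ n ∈ PR y, G n ≤ 12 * C * y / Real.log y ^ A := by
    rw [hG]
    simp only
    rw [Finset.sum_add_distrib, Finset.sum_add_distrib, ← Finset.sum_div, ← Finset.sum_div, Finset.sum_comm]
    have h1 := hone z le_rfl
    have h2 := hone Y hzY
    have h6 : ∑ u ∈ Ioc z Y, ∑ n ∈ PR y, e n u / ((u : ℝ) * (u + 1)) ≤ 6 * C * y / Real.log y ^ A := by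
      have h7 : ∀ u ∈ Ioc z Y, ∑ n ∈ PR y, e n u / ((u : ℝ) * (u + 1)) ≤
          3 * C * y / Real.log y ^ A * (1 / (((u : ℝ) + 1) * Real.log u ^ 2)) := by
        intro u hu
        rw [mem_Ioc] at hu
        have hu0 : (0 : ℝ) < u := by exact_mod_cast (by omega : 0 < u)
        have hlu : Real.log (y : ℝ) ≤ Real.log u := Real.log_le_log hy0' (by exact_mod_cast (by omega : y ≤ u))
        have hlu0 : 0 < Real.log (u : ℝ) := by linarith
        rw [← Finset.sum_div, div_le_iff₀ (by positivity)]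
        refine (hsum u hu.1.le).trans ?_
        have h8 : C * (u : ℝ) / Real.log u ^ (A + 2) ≤ C * u / (Real.log y ^ A * Real.log u ^ 2) := by
          apply div_le_div_of_nonneg_left (by positivity) (by positivity)
          rw [pow_add]
          apply mul_le_mul_of_nonneg_right _ (by positivity)
          exact pow_le_pow_left₀ (by linarith) hlu _
        calc 3 * (y : ℝ) * (C * u / Real.log u ^ (A + 2)) ≤ 3 * y * (C * u / (Real.log y ^ A * Real.log u ^ 2)) :=
              mul_le_mul_of_nonneg_left h8 (by positivity)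
          _ = _ := by
              field_simp
      refine (Finset.sum_le_sum h7).trans ?_
      rw [← Finset.mul_sum]
      have h8 := tele z Y (by omega) hzY
      have h9 : 0 ≤ 2 / Real.log ((Y : ℝ) + 1) := by
        apply div_nonneg (by norm_num)
        apply Real.log_nonneg
        linarith
      have h10 : 2 / Real.log ((z : ℝ) + 1) ≤ 2 := by
        rw [div_le_iff₀]
        · have h11 : Real.log (y : ℝ) ≤ Real.log ((z : ℝ) + 1) := by
            apply Real.log_le_log hy0'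
            have : (y : ℝ) ≤ z := by exact_mod_cast hyz
            linarith
          linarith
        · apply Real.log_pos
          linarith
      calc 3 * C * (y : ℝ) / Real.log y ^ A * ∑ u ∈ Ioc z Y, 1 / (((u : ℝ) + 1) * Real.log u ^ 2)
          ≤ 3 * C * y / Real.log y ^ A * 2 := by
            apply mul_le_mul_of_nonneg_left _ (by positivity)
            linarith
        _ = 6 * C * y / Real.log y ^ A := by ring
    have h11 : 12 * C * (y : ℝ) / Real.log y ^ A = 3 * C * y / Real.log y ^ A + (3 * C * y / Real.log y ^ A +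
      6 * C * y / Real.log y ^ A) := by ring
    linarith
  have he0 : ∀ n ∈ PR y, ∀ u : ℕ, 0 ≤ e n u := by
    intro n hn u
    have h1 : (1 : ℝ) ≤ n := by exact_mod_cast (hPR n hn).1.one_lt.le
    have h2 := err_nonneg (u : ℝ) 1 1
    have h3 := err_nonneg (u : ℝ) n 1
    have h4 : 0 ≤ ((n : ℝ) - 1) * err (u : ℝ) n 1 := mul_nonneg (by linarith) h3
    rw [he]
    simp only
    linarith
  have hG0 : ∀ n ∈ PR y, 0 ≤ G n := by
    intro n hn
    rw [hG]
    simp only
    have h1 := div_nonneg (he0 n hn z) (show (0 : ℝ) ≤ (z : ℝ) + 1 by positivity)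
    have h2 := div_nonneg (he0 n hn Y) (show (0 : ℝ) ≤ (Y : ℝ) + 1 by positivity)
    have h3 : 0 ≤ ∑ u ∈ Ioc z Y, e n u / ((u : ℝ) * (u + 1)) :=
      Finset.sum_nonneg fun u _ => div_nonneg (he0 n hn u) (by positivity)
    linarith
  refine le_trans ?_ htot
  calc (((PR y).filter (fun n => Sn b n < Real.log y - Real.log (Real.log y) - (Real.log 24 + 2))).card : ℝ)
      = ∑ n ∈ (PR y).filter (fun n => Sn b n < Real.log y - Real.log (Real.log y) - (Real.log 24 + 2)), (1 : ℝ) := by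
        rw [Finset.sum_const, nsmul_eq_mul, mul_one]
    _ ≤ ∑ n ∈ (PR y).filter (fun n => Sn b n < Real.log y - Real.log (Real.log y) - (Real.log 24 + 2)), G n := by
        apply Finset.sum_le_sum
        intro n hn
        rw [mem_filter] at hn
        have := key n hn.1
        linarith [hn.2]
    _ ≤ ∑ n ∈ PR y, G n := Finset.sum_le_sum_of_subset_of_nonneg (filter_subset _ _) (fun n hn _ => hG0 n hn)

end Pool.Agent.L5helper2.RO
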