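import Mathlib
import Pool.Agent.L5helper2.RO.Defs3

set_option autoImplicit false

/-! CNT: few exceptional exponents. -/

namespace Pool.Agent.L5helper2.RO

open Finset Filter
open scoped Topology

theorem P_le_exp (b n : ℕ) (hn : n.Prime) : P b n ≤ Real.exp (-(Sn b n)) := by
  unfold P Sn
  rw [← Finset.sum_neg_distrib, Real.exp_sum]
  apply Finset.prod_le_prod
  · intro l hl
    have hl' := (Finset.mem_filter.1 hl).2
    obtain ⟨hlp, -, hmod⟩ := hl'
    have hn2 := hn.two_le
    have hl2 := hlp.two_le
    have hge : n ≤ l := by
      by_contra hcon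
      push Not at hcon
      rw [Nat.mod_eq_of_lt hcon] at hmod
      omega
    have h1 : (n : ℝ) ≤ l := by exact_mod_cast hge
    have h2 : (2 : ℝ) ≤ l := by exact_mod_cast hl2
    have h3 : ((n : ℝ) - 1) / ((l : ℝ) - 1) ≤ 1 := by
      rw [div_le_one (by linarith)]
      linarith
    linarith
  · intro l _
    have := Real.add_one_le_exp (-(((n : ℝ) - 1) / ((l : ℝ) - 1)))
    linarith

open Classical in
theorem CNT_thm (h : St_BAD) : St_CNT := by
  intro b hb
  obtain ⟨K, hK⟩ := h b hb
  refine ⟨2 * Real.exp K, by positivity, fun A => ?_⟩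
  obtain ⟨C, hC⟩ := hK A
  set Ex : ℕ → Finset ℕ := fun x =>
    (Icc 1 x).filter (fun n => (n.Prime ∧ n ≠ 2) ∧ ¬ (P b n ≤ 2 * Real.exp K * Real.log n / n)) with hEx
  -- eventually
  have e1 : ∀ᶠ x : ℕ in atTop, (((PR (x / 2)).filter (fun n => Sn b n <
      Real.log (x / 2 : ℕ) - Real.log (Real.log (x / 2 : ℕ)) - K)).card : ℝ) ≤
      C * (x / 2 : ℕ) / Real.log (x / 2 : ℕ) ^ A := by
    have ht : Tendsto (fun x : ℕ => x / 2) atTop atTop := Nat.tendsto_div_const_atTop (by norm_num)
    exact ht.eventually hC
  have e2 : ∀ᶠ x : ℕ in atTop, Real.log x ^ A ≤ 5 / 4 * Real.log (x / 2 : ℕ) ^ A := by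
    have ht : Tendsto (fun x : ℕ => x / 2) atTop atTop := Nat.tendsto_div_const_atTop (by norm_num)
    have hlog : Tendsto (fun x : ℕ => Real.log (x : ℝ)) atTop atTop :=
      Real.tendsto_log_atTop.comp tendsto_natCast_atTop_atTop
    have hlog2 : Tendsto (fun x : ℕ => Real.log ((x / 2 : ℕ) : ℝ)) atTop atTop := hlog.comp ht
    -- log x / log (x/2) → 1
    have h1 : Tendsto (fun x : ℕ => Real.log (x : ℝ) / Real.log ((x / 2 : ℕ) : ℝ)) atTop (𝓝 1) := by
      have hup : Tendsto (fun x : ℕ => 1 + Real.log 3 / Real.log ((x / 2 : ℕ) : ℝ)) atTop (𝓝 1) := by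
        have := (tendsto_const_nhds (x := Real.log 3)).div_atTop hlog2
        simpa using this.const_add 1
      refine tendsto_of_tendsto_of_tendsto_of_le_of_le' tendsto_const_nhds hup ?_ ?_
      · filter_upwards [hlog2.eventually_gt_atTop 0, eventually_ge_atTop 4] with x hx hx4
        rw [le_div_iff₀ hx, one_mul]
        apply Real.log_le_log
        · have : 0 < x / 2 := by omega
          exact_mod_cast this
        · exact_mod_cast Nat.div_le_self x 2
      · filter_upwards [hlog2.eventually_gt_atTop 0, eventually_ge_atTop 4] with x hx hx4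
        rw [div_le_iff₀ hx, add_mul, one_mul, div_mul_cancel₀ _ hx.ne']
        have hpos : 0 < x / 2 := by omega
        have hposR : (0 : ℝ) < ((x / 2 : ℕ) : ℝ) := by exact_mod_cast hpos
        rw [← Real.log_mul hposR.ne' (by norm_num)]
        apply Real.log_le_log
        · have : 0 < x := by omega
          exact_mod_cast this
        · have : x ≤ x / 2 * 3 := by omega
          exact_mod_cast this
    have h2 : Tendsto (fun x : ℕ => (Real.log (x : ℝ) / Real.log ((x / 2 : ℕ) : ℝ)) ^ A) atTop (𝓝 1) := by
      simpa using h1.pow A
    filter_upwards [h2.eventually_lt_const (show (1 : ℝ) < 5 / 4 by norm_num),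
      hlog2.eventually_gt_atTop 0] with x hx hpos
    rw [div_pow, div_lt_iff₀ (pow_pos hpos A)] at hx
    exact hx.le
  have e3 : ∀ᶠ x : ℕ in atTop, Real.log x ^ A ≤ x := by
    have h0 : (fun x : ℝ => Real.log x ^ A) =o[atTop] (fun x : ℝ => x) := by
      exact Real.isLittleO_pow_log_id_atTop (n := A)
    have h1 := (h0.comp_tendsto tendsto_natCast_atTop_atTop).bound (show (0 : ℝ) < 1 by norm_num)
    filter_upwards [h1] with x hx
    simp only [Function.comp, one_mul, Real.norm_eq_abs, Nat.abs_cast] at hx
    exact (le_abs_self _).trans hx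
  obtain ⟨N0, hN0⟩ := eventually_atTop.1 (e1.and (e2.and (e3.and (eventually_ge_atTop 16))))
  set C1 : ℝ := max (Real.log N0 ^ A) (8 / 3 * (5 / 8 * |C| + 1)) with hC1
  have hC1nn : 0 ≤ C1 := le_trans (by positivity) (le_max_right _ _)
  refine ⟨C1, ?_⟩
  have key : ∀ x : ℕ, 2 ≤ x → ((Ex x).card : ℝ) ≤ C1 * x / Real.log x ^ A := by
    intro x
    induction x using Nat.strong_induction_on with
    | _ x ih =>
      intro hx2
      have hlogpos : 0 < Real.log (x : ℝ) := Real.log_pos (by exact_mod_cast (by omega : 1 < x))
      by_cases hxN : x < N0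
      · rw [le_div_iff₀ (pow_pos hlogpos A)]
        have hcard : ((Ex x).card : ℝ) ≤ x := by
          have := Finset.card_filter_le (Icc 1 x)
            (fun n => (n.Prime ∧ n ≠ 2) ∧ ¬ (P b n ≤ 2 * Real.exp K * Real.log n / n))
          rw [Nat.card_Icc, Nat.add_sub_cancel] at this
          exact_mod_cast this
        have hl : Real.log (x : ℝ) ^ A ≤ Real.log N0 ^ A := by
          apply pow_le_pow_left₀ hlogpos.le
          apply Real.log_le_log (by exact_mod_cast (by omega : 0 < x))
          exact_mod_cast hxN.le
        calc ((Ex x).card : ℝ) * Real.log x ^ A ≤ x * Real.log N0 ^ A :=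
              mul_le_mul hcard hl (by positivity) (by positivity)
          _ = Real.log N0 ^ A * x := by ring
          _ ≤ C1 * x := mul_le_mul_of_nonneg_right (le_max_left _ _) (by positivity)
      · push Not at hxN
        obtain ⟨f1, f2, f3, f4⟩ := hN0 x hxN
        set y := x / 2 with hy
        have hy2 : 2 ≤ y := by omega
        have hylt : y < x := by omega
        have hlogy : 0 < Real.log (y : ℝ) := Real.log_pos (by exact_mod_cast (by omega : 1 < y))
        have ihy := ih y hylt hy2
        -- decomposition
        have hsub : Ex x ⊆ Ex y ∪ ((PR y).filter (fun n => Sn b n <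
            Real.log y - Real.log (Real.log y) - K)) ∪ {2 * y + 1} := by
          intro n hn
          rw [hEx, Finset.mem_filter, Finset.mem_Icc] at hn
          obtain ⟨⟨hn1, hnx⟩, ⟨hnp, hn2⟩, hnP⟩ := hn
          rw [Finset.mem_union, Finset.mem_union]
          by_cases c1 : n ≤ y
          · left; left
            rw [hEx, Finset.mem_filter, Finset.mem_Icc]
            exact ⟨⟨hn1, c1⟩, ⟨hnp, hn2⟩, hnP⟩
          · push Not at c1
            by_cases c2 : n ≤ 2 * y
            · left; right
              rw [Finset.mem_filter]
              refine ⟨by rw [PR, Finset.mem_filter, Finset.mem_Ioc]; exact ⟨⟨c1, c2⟩, hnp⟩, ?_⟩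
              by_contra hS
              push Not at hS
              apply hnP
              have hyR : (0 : ℝ) < y := by exact_mod_cast (by omega : 0 < y)
              have hnR : (0 : ℝ) < n := by exact_mod_cast (by omega : 0 < n)
              have h1 : Real.exp (-(Sn b n)) ≤ Real.exp K * (Real.log y / y) := by
                have : -(Sn b n) ≤ K + (Real.log (Real.log y) - Real.log y) := by linarith
                refine (Real.exp_le_exp.2 this).trans (le_of_eq ?_)
                rw [Real.exp_add, Real.exp_sub, Real.exp_log hlogy, Real.exp_log hyR]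
              have h2 : Real.log y / y ≤ 2 * (Real.log n / n) := by
                have hln : Real.log y ≤ Real.log n :=
                  Real.log_le_log hyR (by exact_mod_cast c1.le)
                rw [div_le_iff₀ hyR]
                have hn2y : (n : ℝ) ≤ 2 * y := by exact_mod_cast c2
                have hlnn : 0 ≤ Real.log n := hlogy.le.trans hln
                calc Real.log y ≤ Real.log n := hln
                  _ = Real.log n / n * n := by field_simp
                  _ ≤ Real.log n / n * (2 * y) :=
                      mul_le_mul_of_nonneg_left hn2y (by positivity)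
                  _ = 2 * (Real.log n / n) * y := by ring
              calc P b n ≤ Real.exp (-(Sn b n)) := P_le_exp b n hnp
                _ ≤ Real.exp K * (Real.log y / y) := h1
                _ ≤ Real.exp K * (2 * (Real.log n / n)) :=
                    mul_le_mul_of_nonneg_left h2 (Real.exp_pos K).le
                _ = 2 * Real.exp K * Real.log n / n := by ring
            · right
              rw [Finset.mem_singleton]
              omega
        have hcard : ((Ex x).card : ℝ) ≤ (Ex y).card + (((PR y).filter (fun n => Sn b n <
            Real.log y - Real.log (Real.log y) - K)).card : ℝ) + 1 := by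
          have h1 := Finset.card_le_card hsub
          have h2 := Finset.card_union_le (Ex y ∪ ((PR y).filter (fun n => Sn b n <
            Real.log y - Real.log (Real.log y) - K))) {2 * y + 1}
          have h3 := Finset.card_union_le (Ex y) ((PR y).filter (fun n => Sn b n <
            Real.log y - Real.log (Real.log y) - K))
          rw [Finset.card_singleton] at h2
          have : (Ex x).card ≤ (Ex y).card + ((PR y).filter (fun n => Sn b n <
            Real.log y - Real.log (Real.log y) - K)).card + 1 := by omega
          exact_mod_cast this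
        have hyx : (y : ℝ) ≤ x / 2 := by
          have : 2 * y ≤ x := by omega
          have : (2 : ℝ) * y ≤ x := by exact_mod_cast this
          linarith
        have hxpos : (0 : ℝ) < x := by exact_mod_cast (by omega : 0 < x)
        have hLx : 0 < Real.log (x : ℝ) ^ A := pow_pos hlogpos A
        have hLy : 0 < Real.log (y : ℝ) ^ A := pow_pos hlogy A
        -- y / (log y)^A ≤ 5/8 x / (log x)^A
        have hquot : (y : ℝ) / Real.log y ^ A ≤ 5 / 8 * (x / Real.log x ^ A) := by
          rw [div_le_iff₀ hLy]
          have : (y : ℝ) * Real.log x ^ A ≤ 5 / 8 * x * Real.log y ^ A := by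
            calc (y : ℝ) * Real.log x ^ A ≤ (x / 2) * (5 / 4 * Real.log y ^ A) :=
                  mul_le_mul hyx f2 hLx.le (by positivity)
              _ = 5 / 8 * x * Real.log y ^ A := by ring
          calc (y : ℝ) = y * Real.log x ^ A / Real.log x ^ A := by field_simp
            _ ≤ (5 / 8 * x * Real.log y ^ A) / Real.log x ^ A :=
                div_le_div_of_nonneg_right this hLx.le
            _ = 5 / 8 * (x / Real.log x ^ A) * Real.log y ^ A := by ring
        have hone : (1 : ℝ) ≤ x / Real.log x ^ A := by
          rw [le_div_iff₀ hLx, one_mul]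
          exact f3
        have hC2 : 8 / 3 * (5 / 8 * |C| + 1) ≤ C1 := le_max_right _ _
        have t1 : ((Ex y).card : ℝ) ≤ C1 * (5 / 8 * (x / Real.log x ^ A)) := by
          refine ihy.trans ?_
          rw [mul_div_assoc]
          exact mul_le_mul_of_nonneg_left hquot hC1nn
        have t2 : (((PR y).filter (fun n => Sn b n <
            Real.log y - Real.log (Real.log y) - K)).card : ℝ) ≤ |C| * (5 / 8 * (x / Real.log x ^ A)) := by
          refine f1.trans ?_
          rw [mul_div_assoc]
          refine (mul_le_mul_of_nonneg_right (le_abs_self C) (by positivity)).trans ?_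
          exact mul_le_mul_of_nonneg_left hquot (abs_nonneg C)
        have hX : 0 < (x : ℝ) / Real.log x ^ A := by positivity
        rw [mul_div_assoc]
        nlinarith
  exact key

end Pool.Agent.L5helper2.RO
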