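import Mathlib
import Pool.Agent.L5helper2.RO.Defs

set_option autoImplicit false

/-! Hybrid model: true orders for the primes `l ≤ R n`, random ones above. -/

namespace Pool.Agent.L5helper2.RO

open Finset MeasureTheory ProbabilityTheory Filter
open scoped ENNReal Topology

/-- no prime `l` with `R n < l ≤ √(W b n)` divides `W b n` in the model -/
def LikeR (b : ℕ) (R : ℕ → ℕ) (g : ℕ → ℕ) (n : ℕ) : Prop :=
  ∀ l : ℕ, l.Prime → l ^ 2 ≤ W b n → R n < l → orderOf ((g l : ℕ) : ZMod l) ≠ n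

noncomputable def PRb (b : ℕ) (R : ℕ → ℕ) (n : ℕ) : ℝ :=
  ∏ l ∈ (T b n).filter (fun l => R n < l), (1 - ((n : ℝ) - 1) / ((l : ℝ) - 1))

/-- PROBR: as St_PROB, with the cutoffs `R n` -/
def St_PROBR : Prop := ∀ (b : ℕ), 2 ≤ b → ∀ (R : ℕ → ℕ) (Ω : Type) (_ : MeasurableSpace Ω) (μ : Measure Ω)
    (_ : IsProbabilityMeasure μ) (g : ℕ → Ω → ℕ), Model μ g →
    (∀ n, n.Prime → n ≠ 2 → MeasurableSet {ω | LikeR b R (fun l => g l ω) n} ∧
      μ.real {ω | LikeR b R (fun l => g l ω) n} = PRb b R n) ∧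
    (∀ n m, n.Prime → m.Prime → n ≠ 2 → m ≠ 2 → n ≠ m →
      μ.real ({ω | LikeR b R (fun l => g l ω) n} ∩ {ω | LikeR b R (fun l => g l ω) m}) ≤ PRb b R n * PRb b R m)

end Pool.Agent.L5helper2.RO
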