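import Pool.Agent.L5helper2.RO.Defs

set_option autoImplicit false

/-! Lower bound of the product (job RO EXP). -/

namespace Pool.Agent.L5helper2.RO

open Finset MeasureTheory ProbabilityTheory Filter
open scoped ENNReal Topology

private theorem exp_one_sub {t : ℝ} (h0 : 0 ≤ t) (h1 : t ≤ 1 / 2) :
    Real.exp (-t - 2 * t ^ 2) ≤ 1 - t := by
  have h2 : 1 + t + 2 * t ^ 2 ≤ Real.exp (t + 2 * t ^ 2) := by
    have := Real.add_one_le_exp (t + 2 * t ^ 2)
    linarith
  have h3 : 0 < 1 + t + 2 * t ^ 2 := by positivity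
  rw [show -t - 2 * t ^ 2 = -(t + 2 * t ^ 2) by ring, Real.exp_neg]
  rw [inv_le_iff_one_le_mul₀ (Real.exp_pos _)]
  have h4 : 1 ≤ (1 - t) * (1 + t + 2 * t ^ 2) := by nlinarith [mul_nonneg h0 h0, mul_nonneg (mul_nonneg h0 h0) (sub_nonneg.2 h1)]
  refine h4.trans (mul_le_mul_of_nonneg_left h2 (by linarith))

private theorem T_spec {b n l : ℕ} (hn : n.Prime) (hn2 : n ≠ 2) (hl : l ∈ T b n) :
    2 ≤ l / n ∧ l = n * (l / n) + 1 := by
  unfold T at hl
  rw [Finset.mem_filter] at hl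
  obtain ⟨_, hp, _, hmod⟩ := hl
  have h1 : l = n * (l / n) + 1 := by
    have := Nat.div_add_mod l n
    rw [hmod] at this
    exact this.symm
  refine ⟨?_, h1⟩
  by_contra hk
  have hk2 : l / n = 0 ∨ l / n = 1 := by
    have h5 := Nat.lt_of_not_le hk
    generalize l / n = k at h5 ⊢
    omega
  rcases hk2 with h | h
  · rw [h] at h1
    rw [h1] at hp
    exact Nat.not_prime_one (by simpa using hp)
  · rw [h, mul_one] at h1
    have hodd := hn.eq_two_or_odd.resolve_left hn2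
    have h3 : 2 ∣ l := by
      rw [h1]; omega
    have h4 := (Nat.prime_dvd_prime_iff_eq Nat.prime_two hp).1 h3
    have := hn.two_le
    omega

theorem EXP_thm : St_EXP := by
  intro b n hn hn2
  have hn3 : 3 ≤ n := by
    have := hn.two_le
    omega
  have hnR : (3 : ℝ) ≤ n := by exact_mod_cast hn3
  have key : ∀ l ∈ T b n, 0 ≤ ((n : ℝ) - 1) / ((l : ℝ) - 1) ∧
      ((n : ℝ) - 1) / ((l : ℝ) - 1) ≤ 1 / ((l / n : ℕ) : ℝ) ∧
      1 / ((l / n : ℕ) : ℝ) ≤ 1 / 2 := by
    intro l hl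
    obtain ⟨hk, hlk⟩ := T_spec hn hn2 hl
    set k := l / n with hkdef
    have hkR : (2 : ℝ) ≤ k := by exact_mod_cast hk
    have hl1 : (l : ℝ) - 1 = n * k := by
      rw [hlk]; push_cast; ring
    rw [hl1]
    refine ⟨by apply div_nonneg <;> nlinarith, ?_, ?_⟩
    · rw [div_le_div_iff₀ (by positivity) (by positivity)]
      nlinarith
    · exact one_div_le_one_div_of_le (by norm_num) hkR
  have hsq : ∑ l ∈ T b n, (((n : ℝ) - 1) / ((l : ℝ) - 1)) ^ 2 ≤ 1 := by
    have h1 : ∑ l ∈ T b n, (((n : ℝ) - 1) / ((l : ℝ) - 1)) ^ 2 ≤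
        ∑ l ∈ T b n, (((l / n : ℕ) : ℝ) ^ 2)⁻¹ := by
      refine Finset.sum_le_sum fun l hl => ?_
      obtain ⟨a1, a2, a3⟩ := key l hl
      calc (((n : ℝ) - 1) / ((l : ℝ) - 1)) ^ 2 ≤ (1 / ((l / n : ℕ) : ℝ)) ^ 2 :=
            pow_le_pow_left₀ a1 a2 2
        _ = _ := by rw [one_div, inv_pow]
    refine h1.trans ?_
    have hinj : Set.InjOn (fun l : ℕ => l / n) (T b n : Set ℕ) := by
      intro l hl l' hl' h
      have e1 := (T_spec hn hn2 hl).2
      have e2 := (T_spec hn hn2 hl').2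
      simp only at h
      rw [e1, e2, h]
    rw [← Finset.sum_image (f := fun k : ℕ => ((k : ℝ) ^ 2)⁻¹) hinj]
    set K := ((T b n).image fun l => l / n).sup id with hK
    have hsub : ((T b n).image fun l => l / n) ⊆ Finset.Ioc 1 (K + 1) := by
      intro k hk
      have hk' := hk
      rw [Finset.mem_image] at hk'
      obtain ⟨l, hl, rfl⟩ := hk'
      rw [Finset.mem_Ioc]
      have h2 := (T_spec hn hn2 hl).1
      have h3 : l / n ≤ K := Finset.le_sup (f := id) hk
      omega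
    refine (Finset.sum_le_sum_of_subset_of_nonneg hsub fun _ _ _ => by positivity).trans ?_
    refine (sum_Ioc_inv_sq_le_sub (α := ℝ) one_ne_zero (by omega)).trans ?_
    have : (0 : ℝ) ≤ ((K + 1 : ℕ) : ℝ)⁻¹ := by positivity
    simp only [Nat.cast_one, inv_one]
    linarith
  have hprod : ∏ l ∈ T b n, Real.exp (-(((n : ℝ) - 1) / ((l : ℝ) - 1)) - 2 * (((n : ℝ) - 1) / ((l : ℝ) - 1)) ^ 2)
      ≤ P b n := by
    unfold P
    refine Finset.prod_le_prod (fun _ _ => (Real.exp_pos _).le) fun l hl => ?_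
    obtain ⟨a1, a2, a3⟩ := key l hl
    exact exp_one_sub a1 (a2.trans a3)
  refine le_trans ?_ hprod
  rw [← Real.exp_sum]
  apply Real.exp_le_exp.2
  rw [Finset.sum_sub_distrib, Finset.sum_neg_distrib, ← Finset.mul_sum]
  linarith

end Pool.Agent.L5helper2.RO
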