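import Pool.Agent.L5helper2.RO.Defs

set_option autoImplicit false

namespace Pool.Agent.L5helper2.RO

open Finset MeasureTheory ProbabilityTheory Filter
open scoped ENNReal Topology

/-- the deterministic part: from a subsequence to all `x` -/
private lemma law_det (N E : ℕ → ℝ) (hN : Monotone N) (hN0 : ∀ x, 0 ≤ N x) (hE : Monotone E) (hE0 : E 0 = 0)
    (hE1 : ∀ x, E (x + 1) ≤ E x + 1) (hEt : Tendsto E atTop atTop) (X : ℕ → ℕ)
    (hX : ∀ k : ℕ, (k : ℝ) ^ 2 ≤ E (X k)) (hX' : ∀ k x : ℕ, (k : ℝ) ^ 2 ≤ E x → X k ≤ x)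
    (hr : Tendsto (fun k => N (X k) / E (X k)) atTop (𝓝 1)) :
    Tendsto (fun x => N x / E x) atTop (𝓝 1) := by
  set K : ℕ → ℕ := fun x => Nat.sqrt ⌊E x⌋₊ with hK
  have hEnn : ∀ x, 0 ≤ E x := fun x => hE0 ▸ hE (Nat.zero_le x)
  have hK1 : ∀ x, ((K x : ℕ) : ℝ) ^ 2 ≤ E x := by
    intro x
    have h1 : (K x) ^ 2 ≤ ⌊E x⌋₊ := Nat.sqrt_le' _
    have h2 : ((⌊E x⌋₊ : ℕ) : ℝ) ≤ E x := Nat.floor_le (hEnn x)
    have h3 : (((K x) ^ 2 : ℕ) : ℝ) ≤ ((⌊E x⌋₊ : ℕ) : ℝ) := by exact_mod_cast h1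
    push_cast at h3
    linarith
  have hK2 : ∀ x, E x < (((K x : ℕ) : ℝ) + 1) ^ 2 := by
    intro x
    have h1 : ⌊E x⌋₊ < (K x + 1) ^ 2 := Nat.lt_succ_sqrt' _
    have h2 : E x < (⌊E x⌋₊ : ℝ) + 1 := Nat.lt_floor_add_one _
    have h3 : (((⌊E x⌋₊ + 1 : ℕ)) : ℝ) ≤ (((K x + 1) ^ 2 : ℕ) : ℝ) := by exact_mod_cast h1
    push_cast at h3
    linarith
  have hKt : Tendsto K atTop atTop := by
    rw [tendsto_atTop]
    intro b
    filter_upwards [hEt.eventually_ge_atTop ((b : ℝ) ^ 2)] with x hx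
    have : b ^ 2 ≤ ⌊E x⌋₊ := by
      apply Nat.le_floor
      push_cast
      exact hx
    exact Nat.le_sqrt'.2 this
  have hXu : ∀ k, E (X k) ≤ (k : ℝ) ^ 2 + 1 := by
    intro k
    rcases Nat.eq_zero_or_pos (X k) with h | h
    · rw [h, hE0]; positivity
    · obtain ⟨y, hy⟩ := Nat.exists_eq_succ_of_ne_zero h.ne'
      have h1 : E y < (k : ℝ) ^ 2 := by
        by_contra hc
        push Not at hc
        have := hX' k y hc
        omega
      have h2 := hE1 y
      rw [hy]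
      simp only [Nat.succ_eq_add_one]
      linarith
  -- bounds
  have hlow : ∀ᶠ x in atTop, (N (X (K x)) / E (X (K x))) * (((K x : ℕ) : ℝ) ^ 2 / (((K x : ℕ) : ℝ) + 1) ^ 2) ≤ N x / E x := by
    filter_upwards [hKt.eventually_ge_atTop 1] with x hx
    have hk : (1 : ℝ) ≤ ((K x : ℕ) : ℝ) := by exact_mod_cast hx
    have h1 : X (K x) ≤ x := hX' _ _ (hK1 x)
    have h2 : N (X (K x)) ≤ N x := hN h1
    have h3 : (((K x : ℕ) : ℝ)) ^ 2 ≤ E (X (K x)) := hX _
    have hpos : 0 < E (X (K x)) := lt_of_lt_of_le (by positivity) h3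
    have hposx : 0 < E x := lt_of_lt_of_le hpos (hE h1)
    have h4 := hK2 x
    calc (N (X (K x)) / E (X (K x))) * (((K x : ℕ) : ℝ) ^ 2 / (((K x : ℕ) : ℝ) + 1) ^ 2)
        ≤ (N (X (K x)) / E (X (K x))) * (E (X (K x)) / E x) := by
          apply mul_le_mul_of_nonneg_left _ (div_nonneg (hN0 _) hpos.le)
          exact div_le_div₀ hpos.le h3 hposx h4.le
      _ = N (X (K x)) / E x := by field_simp
      _ ≤ N x / E x := by gcongr
  have hup : ∀ᶠ x in atTop, N x / E x ≤ (N (X (K x + 1)) / E (X (K x + 1))) * (((((K x : ℕ) : ℝ) + 1) ^ 2 + 1) / ((K x : ℕ) : ℝ) ^ 2) := by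
    filter_upwards [hKt.eventually_ge_atTop 1] with x hx
    have hk : (1 : ℝ) ≤ ((K x : ℕ) : ℝ) := by exact_mod_cast hx
    have h3 : (((K x : ℕ) : ℝ) + 1) ^ 2 ≤ E (X (K x + 1)) := by
      have := hX (K x + 1)
      push_cast at this
      exact this
    have h1 : x ≤ X (K x + 1) := by
      by_contra hc
      push Not at hc
      have h5 := hE hc.le
      have h4 := hK2 x
      linarith
    have h2 : N x ≤ N (X (K x + 1)) := hN h1
    have hpos : 0 < E (X (K x + 1)) := lt_of_lt_of_le (by positivity) h3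
    have hk1 := hK1 x
    have hposx : 0 < E x := lt_of_lt_of_le (by positivity) hk1
    have hu : E (X (K x + 1)) ≤ (((K x : ℕ) : ℝ) + 1) ^ 2 + 1 := by
      have := hXu (K x + 1)
      push_cast at this
      exact this
    calc N x / E x ≤ N (X (K x + 1)) / E x := by gcongr
      _ = (N (X (K x + 1)) / E (X (K x + 1))) * (E (X (K x + 1)) / E x) := by field_simp
      _ ≤ (N (X (K x + 1)) / E (X (K x + 1))) * (((((K x : ℕ) : ℝ) + 1) ^ 2 + 1) / ((K x : ℕ) : ℝ) ^ 2) := by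
          apply mul_le_mul_of_nonneg_left _ (div_nonneg (hN0 _) hpos.le)
          exact div_le_div₀ (by positivity) hu (by positivity) hk1
  -- the two factors tend to 1
  have hinv : Tendsto (fun k : ℕ => (1 : ℝ) / (k : ℝ)) atTop (𝓝 0) := tendsto_one_div_atTop_nhds_zero_nat
  have hf1 : Tendsto (fun k : ℕ => (k : ℝ) ^ 2 / ((k : ℝ) + 1) ^ 2) atTop (𝓝 1) := by
    have h : Tendsto (fun k : ℕ => 1 / (1 + (1 : ℝ) / (k : ℝ)) ^ 2) atTop (𝓝 (1 / (1 + 0) ^ 2)) := by
      apply Tendsto.div tendsto_const_nhds ((tendsto_const_nhds.add hinv).pow 2)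
      norm_num
    rw [show (1 : ℝ) / (1 + 0) ^ 2 = 1 by norm_num] at h
    apply h.congr'
    filter_upwards [eventually_ge_atTop 1] with k hk
    have : (0 : ℝ) < k := by exact_mod_cast hk
    field_simp
  have hf2 : Tendsto (fun k : ℕ => (((k : ℝ) + 1) ^ 2 + 1) / (k : ℝ) ^ 2) atTop (𝓝 1) := by
    have h : Tendsto (fun k : ℕ => (1 + (1 : ℝ) / (k : ℝ)) ^ 2 + ((1 : ℝ) / (k : ℝ)) ^ 2) atTop (𝓝 ((1 + 0) ^ 2 + 0 ^ 2)) :=
      ((tendsto_const_nhds.add hinv).pow 2).add (hinv.pow 2)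
    rw [show ((1 : ℝ) + 0) ^ 2 + 0 ^ 2 = 1 by norm_num] at h
    apply h.congr'
    filter_upwards [eventually_ge_atTop 1] with k hk
    have : (0 : ℝ) < k := by exact_mod_cast hk
    field_simp
  have hl : Tendsto (fun x => (N (X (K x)) / E (X (K x))) * (((K x : ℕ) : ℝ) ^ 2 / (((K x : ℕ) : ℝ) + 1) ^ 2)) atTop (𝓝 1) := by
    have := (hr.mul hf1).comp hKt
    rw [mul_one] at this
    exact this
  have hr' : Tendsto (fun k => N (X (k + 1)) / E (X (k + 1))) atTop (𝓝 1) := (tendsto_add_atTop_iff_nat (f := fun k => N (X k) / E (X k)) 1).2 hr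
  have hu : Tendsto (fun x => (N (X (K x + 1)) / E (X (K x + 1))) * (((((K x : ℕ) : ℝ) + 1) ^ 2 + 1) / ((K x : ℕ) : ℝ) ^ 2)) atTop (𝓝 1) := by
    have := (hr'.mul hf2).comp hKt
    rw [mul_one] at this
    exact this
  exact tendsto_of_tendsto_of_tendsto_of_le_of_le' hl hu hlow hup

/-- the variance bound -/
private lemma law_var {Ω : Type} [MeasurableSpace Ω] (μ : Measure Ω) [IsProbabilityMeasure μ]
    (G : ℕ → Set Ω) (A : Finset ℕ) (hG : ∀ n ∈ A, MeasurableSet (G n))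
    (hc : ∀ n ∈ A, ∀ m ∈ A, n ≠ m → μ.real (G n ∩ G m) ≤ μ.real (G n) * μ.real (G m)) :
    Integrable (fun ω => (∑ n ∈ A, ((G n).indicator (fun _ => (1 : ℝ)) ω - μ.real (G n))) ^ 2) μ ∧
    ∫ ω, (∑ n ∈ A, ((G n).indicator (fun _ => (1 : ℝ)) ω - μ.real (G n))) ^ 2 ∂μ ≤ ∑ n ∈ A, μ.real (G n) := by
  have hterm : ∀ n ∈ A, ∀ m ∈ A, ∀ ω, ((G n).indicator (fun _ => (1 : ℝ)) ω - μ.real (G n)) *
      ((G m).indicator (fun _ => (1 : ℝ)) ω - μ.real (G m)) =
      (G n ∩ G m).indicator (fun _ => (1 : ℝ)) ω - μ.real (G n) * (G m).indicator (fun _ => (1 : ℝ)) ω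
        - μ.real (G m) * (G n).indicator (fun _ => (1 : ℝ)) ω + μ.real (G n) * μ.real (G m) := by
    intro n hn m hm ω
    have : (G n ∩ G m).indicator (fun _ => (1 : ℝ)) ω = (G n).indicator (fun _ => (1 : ℝ)) ω * (G m).indicator (fun _ => (1 : ℝ)) ω := by
      by_cases h1 : ω ∈ G n <;> by_cases h2 : ω ∈ G m <;> simp [h1, h2]
    rw [this]
    ring
  have hind : ∀ n ∈ A, Integrable ((G n).indicator (fun _ => (1 : ℝ))) μ := fun n hn =>
    (integrable_const (1 : ℝ)).indicator (hG n hn)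
  have hind2 : ∀ n ∈ A, ∀ m ∈ A, Integrable ((G n ∩ G m).indicator (fun _ => (1 : ℝ))) μ := fun n hn m hm =>
    (integrable_const (1 : ℝ)).indicator ((hG n hn).inter (hG m hm))
  have hint : ∀ n ∈ A, ∀ m ∈ A, Integrable (fun ω => ((G n).indicator (fun _ => (1 : ℝ)) ω - μ.real (G n)) *
      ((G m).indicator (fun _ => (1 : ℝ)) ω - μ.real (G m))) μ := by
    intro n hn m hm
    simp_rw [hterm n hn m hm]
    exact (((hind2 n hn m hm).sub ((hind m hm).const_mul _)).sub ((hind n hn).const_mul _)).add (integrable_const _)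
  have hval : ∀ n ∈ A, ∀ m ∈ A, ∫ ω, ((G n).indicator (fun _ => (1 : ℝ)) ω - μ.real (G n)) *
      ((G m).indicator (fun _ => (1 : ℝ)) ω - μ.real (G m)) ∂μ = μ.real (G n ∩ G m) - μ.real (G n) * μ.real (G m) := by
    intro n hn m hm
    simp_rw [hterm n hn m hm]
    have e0 : Integrable (fun ω => μ.real (G n) * (G m).indicator (fun _ => (1 : ℝ)) ω) μ := (hind m hm).const_mul _
    have e0' : Integrable (fun ω => μ.real (G m) * (G n).indicator (fun _ => (1 : ℝ)) ω) μ := (hind n hn).const_mul _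
    have e1 : Integrable (fun ω => (G n ∩ G m).indicator (fun _ => (1 : ℝ)) ω -
        μ.real (G n) * (G m).indicator (fun _ => (1 : ℝ)) ω) μ := (hind2 n hn m hm).sub e0
    have e2 : Integrable (fun ω => (G n ∩ G m).indicator (fun _ => (1 : ℝ)) ω -
        μ.real (G n) * (G m).indicator (fun _ => (1 : ℝ)) ω - μ.real (G m) * (G n).indicator (fun _ => (1 : ℝ)) ω) μ :=
      e1.sub e0'
    rw [integral_add e2 (integrable_const _), integral_sub e1 e0', integral_sub (hind2 n hn m hm) e0,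
      integral_const_mul, integral_const_mul,
      integral_indicator_const _ ((hG n hn).inter (hG m hm)), integral_indicator_const _ (hG n hn),
      integral_indicator_const _ (hG m hm)]
    simp
    ring
  have hsq : ∀ ω, (∑ n ∈ A, ((G n).indicator (fun _ => (1 : ℝ)) ω - μ.real (G n))) ^ 2 =
      ∑ n ∈ A, ∑ m ∈ A, ((G n).indicator (fun _ => (1 : ℝ)) ω - μ.real (G n)) *
        ((G m).indicator (fun _ => (1 : ℝ)) ω - μ.real (G m)) := by
    intro ω
    rw [sq, Finset.sum_mul_sum]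
  simp_rw [hsq]
  refine ⟨integrable_finsetSum _ fun n hn => integrable_finsetSum _ fun m hm => hint n hn m hm, ?_⟩
  rw [integral_finsetSum _ fun n hn => integrable_finsetSum _ fun m hm => hint n hn m hm]
  apply Finset.sum_le_sum
  intro n hn
  rw [integral_finsetSum _ fun m hm => hint n hn m hm]
  rw [← Finset.add_sum_erase _ _ hn, hval n hn n hn]
  have h1 : ∑ m ∈ A.erase n, ∫ ω, ((G n).indicator (fun _ => (1 : ℝ)) ω - μ.real (G n)) *
      ((G m).indicator (fun _ => (1 : ℝ)) ω - μ.real (G m)) ∂μ ≤ 0 := by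
    apply Finset.sum_nonpos
    intro m hm
    rw [Finset.mem_erase] at hm
    rw [hval n hn m hm.2]
    have := hc n hn m hm.2 (Ne.symm hm.1)
    linarith
  have h2 : 0 ≤ μ.real (G n) * μ.real (G n) := mul_self_nonneg _
  rw [Set.inter_self]
  linarith

open Classical in
theorem LAW_thm : St_LAW := by
  intro Ω _ μ _ G I hG hc hE
  set p : ℕ → ℝ := fun n => μ.real (G n) with hp
  set A : ℕ → Finset ℕ := fun x => (Icc 1 x).filter (fun n => n ∈ I) with hA
  set E : ℕ → ℝ := fun x => ∑ n ∈ A x, p n with hEdef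
  set N : Ω → ℕ → ℝ := fun ω x => (((Icc 1 x).filter (fun n => n ∈ I ∧ ω ∈ G n)).card : ℝ) with hN
  have hAmono : ∀ x y, x ≤ y → A x ⊆ A y := by
    intro x y hxy
    apply Finset.filter_subset_filter
    exact Finset.Icc_subset_Icc le_rfl hxy
  have hEm : Monotone E := by
    intro x y hxy
    exact Finset.sum_le_sum_of_subset_of_nonneg (hAmono x y hxy) (fun i _ _ => measureReal_nonneg)
  have hE0 : E 0 = 0 := by simp [hEdef, hA]
  have hE1 : ∀ x, E (x + 1) ≤ E x + 1 := by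
    intro x
    have hsub : A (x + 1) ⊆ insert (x + 1) (A x) := by
      intro n hn
      simp only [hA, Finset.mem_filter, Finset.mem_Icc, Finset.mem_insert] at hn ⊢
      by_cases h : n = x + 1
      · exact Or.inl h
      · right
        exact ⟨⟨hn.1.1, by omega⟩, hn.2⟩
    have h1 : E (x + 1) ≤ ∑ n ∈ insert (x + 1) (A x), p n :=
      Finset.sum_le_sum_of_subset_of_nonneg hsub (fun i _ _ => measureReal_nonneg)
    have h2 : (x + 1) ∉ A x := by simp [hA]
    rw [Finset.sum_insert h2] at h1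
    have h3 : p (x + 1) ≤ 1 := measureReal_le_one
    show E (x + 1) ≤ E x + 1
    have h4 : E x = ∑ n ∈ A x, p n := rfl
    linarith
  have hex : ∀ k : ℕ, ∃ x, (k : ℝ) ^ 2 ≤ E x := fun k => (hE.eventually_ge_atTop _).exists
  set X : ℕ → ℕ := fun k => Nat.find (hex k) with hX
  have hX1 : ∀ k : ℕ, (k : ℝ) ^ 2 ≤ E (X k) := fun k => Nat.find_spec (hex k)
  have hX2 : ∀ k x : ℕ, (k : ℝ) ^ 2 ≤ E x → X k ≤ x := fun k x h => Nat.find_min' (hex k) h
  have hNsum : ∀ ω x, N ω x - E x = ∑ n ∈ A x, ((G n).indicator (fun _ => (1 : ℝ)) ω - p n) := by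
    intro ω x
    rw [Finset.sum_sub_distrib]
    congr 1
    simp only [hN, hA]
    rw [Finset.card_eq_sum_ones, ← Finset.filter_filter]
    push_cast
    rw [Finset.sum_filter]
    apply Finset.sum_congr rfl
    intro n _
    by_cases h : ω ∈ G n <;> simp [h]
  have hvar := fun x => law_var μ G (A x) (fun n hn => hG n (Finset.mem_filter.1 hn).2)
    (fun n hn m hm h => hc n (Finset.mem_filter.1 hn).2 m (Finset.mem_filter.1 hm).2 h)
  -- the summable series
  have hmeas : ∀ k, AEMeasurable (fun ω => ENNReal.ofReal (((N ω (X (k + 1)) - E (X (k + 1))) / E (X (k + 1))) ^ 2)) μ := by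
    intro k
    apply AEMeasurable.ennreal_ofReal
    have h1 := ((hvar (X (k + 1))).1.div_const ((E (X (k + 1))) ^ 2)).aemeasurable
    apply h1.congr
    filter_upwards with ω
    rw [hNsum, div_pow]
  have hbound : ∀ k : ℕ, ∫⁻ ω, ENNReal.ofReal (((N ω (X (k + 1)) - E (X (k + 1))) / E (X (k + 1))) ^ 2) ∂μ ≤
      ENNReal.ofReal (1 / ((k : ℝ) + 1) ^ 2) := by
    intro k
    have hk := hX1 (k + 1)
    push_cast at hk
    have hpos : 0 < E (X (k + 1)) := lt_of_lt_of_le (by positivity) hk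
    have h1 := (hvar (X (k + 1))).1.div_const ((E (X (k + 1))) ^ 2)
    have h2 : ∫⁻ ω, ENNReal.ofReal (((N ω (X (k + 1)) - E (X (k + 1))) / E (X (k + 1))) ^ 2) ∂μ =
        ∫⁻ ω, ENNReal.ofReal ((∑ n ∈ A (X (k + 1)), ((G n).indicator (fun _ => (1 : ℝ)) ω - μ.real (G n))) ^ 2 / (E (X (k + 1))) ^ 2) ∂μ := by
      congr 1
      ext ω
      rw [hNsum, div_pow]
    rw [h2, ← ofReal_integral_eq_lintegral_ofReal h1 (ae_of_all _ fun ω => by positivity), integral_div]
    apply ENNReal.ofReal_le_ofReal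
    have h3 := (hvar (X (k + 1))).2
    calc _ ≤ E (X (k + 1)) / E (X (k + 1)) ^ 2 := by
          apply div_le_div_of_nonneg_right h3 (by positivity)
      _ = 1 / E (X (k + 1)) := by field_simp
      _ ≤ 1 / ((k : ℝ) + 1) ^ 2 := by
          apply one_div_le_one_div_of_le (by positivity) hk
  have hsum : ∑' k : ℕ, ENNReal.ofReal (1 / ((k : ℝ) + 1) ^ 2) ≠ ∞ := by
    have h1 : Summable (fun k : ℕ => 1 / ((k : ℝ) + 1) ^ 2) := by
      have := (summable_nat_add_iff 1).2 (Real.summable_one_div_nat_pow.2 (by norm_num : 1 < 2))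
      simpa using this
    rw [← ENNReal.ofReal_tsum_of_nonneg (fun k => by positivity) h1]
    exact ENNReal.ofReal_ne_top
  have hlt : ∫⁻ ω, ∑' k : ℕ, ENNReal.ofReal (((N ω (X (k + 1)) - E (X (k + 1))) / E (X (k + 1))) ^ 2) ∂μ ≠ ∞ := by
    rw [lintegral_tsum hmeas]
    exact ne_top_of_le_ne_top hsum (ENNReal.tsum_le_tsum hbound)
  have hae := ae_lt_top' (AEMeasurable.ennreal_tsum hmeas) hlt
  filter_upwards [hae] with ω hω
  have h1 := ENNReal.tendsto_atTop_zero_of_tsum_ne_top hω.ne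
  have h2 : Tendsto (fun k => (((N ω (X (k + 1)) - E (X (k + 1))) / E (X (k + 1))) ^ 2)) atTop (𝓝 0) := by
    have h3 := (ENNReal.tendsto_toReal ENNReal.zero_ne_top).comp h1
    simp only [ENNReal.toReal_zero] at h3
    apply h3.congr
    intro k
    simp only [Function.comp]
    rw [ENNReal.toReal_ofReal (sq_nonneg _)]
  have h3 : Tendsto (fun k => ((N ω (X (k + 1)) - E (X (k + 1))) / E (X (k + 1)))) atTop (𝓝 0) := by
    have h4 : Tendsto (fun k => |((N ω (X (k + 1)) - E (X (k + 1))) / E (X (k + 1)))|) atTop (𝓝 0) := by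
      have h5 := (Real.continuous_sqrt.tendsto 0).comp h2
      rw [Real.sqrt_zero] at h5
      apply h5.congr
      intro k
      simp only [Function.comp]
      rw [Real.sqrt_sq_eq_abs]
    exact (tendsto_zero_iff_abs_tendsto_zero _).2 h4
  have h4 : Tendsto (fun k => N ω (X (k + 1)) / E (X (k + 1))) atTop (𝓝 1) := by
    have h5 := h3.add_const 1
    rw [zero_add] at h5
    apply h5.congr
    intro k
    have hk := hX1 (k + 1)
    push_cast at hk
    have hpos : 0 < E (X (k + 1)) := lt_of_lt_of_le (by positivity) hk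
    field_simp
    ring
  have h5 : Tendsto (fun k => N ω (X k) / E (X k)) atTop (𝓝 1) :=
    (tendsto_add_atTop_iff_nat (f := fun k => N ω (X k) / E (X k)) 1).1 h4
  refine law_det (N ω) E ?_ (fun x => Nat.cast_nonneg _) hEm hE0 hE1 hE X hX1 hX2 h5
  intro x y hxy
  simp only [hN]
  exact_mod_cast Finset.card_le_card (Finset.filter_subset_filter _ (Finset.Icc_subset_Icc le_rfl hxy))

end Pool.Agent.L5helper2.RO
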