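import Mathlib
import Pool.Agent.L5helper2.RO.Defs
import Pool.Agent.H441R3.BV.Fin
import Pool.Agent.H305R2.MertensM

set_option autoImplicit false

namespace Pool.Agent.L5helper2.RO

open Finset Filter
open scoped Topology
open Pool.Agent.H300R2.WEH (err piR err_nonneg)

/-- the discrete Abel summation -/
lemma abel_id (c : ℕ → ℝ) (z Y : ℕ) (h : z ≤ Y) :
    ∑ u ∈ Ioc z Y, (c u - c (u - 1)) / (u : ℝ) =
      c Y / ((Y : ℝ) + 1) - c z / ((z : ℝ) + 1) + ∑ u ∈ Ioc z Y, c u / ((u : ℝ) * (u + 1)) := by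
  induction Y, h using Nat.le_induction with
  | base => simp
  | succ Y hY ih =>
    rw [Finset.sum_Ioc_succ_top (by omega), Finset.sum_Ioc_succ_top (by omega), ih]
    have e1 : Y + 1 - 1 = Y := by omega
    rw [e1]
    have h1 : (0 : ℝ) < (Y : ℝ) + 1 := by positivity
    have h2 : (0 : ℝ) < (Y : ℝ) + 2 := by positivity
    push_cast
    have e2 : (Y : ℝ) + 1 + 1 = Y + 2 := by ring
    rw [e2]
    field_simp
    ring

lemma piR_sub (n u : ℕ) (hu : 1 ≤ u) : (piR (u : ℝ) n 1 : ℝ) - piR ((u - 1 : ℕ) : ℝ) n 1 =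
    if u.Prime ∧ u ≡ 1 [MOD n] then 1 else 0 := by
  unfold piR
  rw [Nat.floor_natCast, Nat.floor_natCast]
  obtain ⟨v, rfl⟩ : ∃ v, u = v + 1 := ⟨u - 1, by omega⟩
  rw [Nat.add_sub_cancel, ← Finset.insert_Icc_right_eq_Icc_add_one (by omega), Finset.filter_insert]
  split_ifs with h
  · rw [Finset.card_insert_of_notMem (by simp)]
    push_cast
    ring
  · ring

lemma sum_class (n z Y : ℕ) (h : z ≤ Y) :
    ∑ l ∈ (Ioc z Y).filter (fun l => l.Prime ∧ l ≡ 1 [MOD n]), (1 : ℝ) / l =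
      (piR (Y : ℝ) n 1 : ℝ) / ((Y : ℝ) + 1) - (piR (z : ℝ) n 1 : ℝ) / ((z : ℝ) + 1) +
        ∑ u ∈ Ioc z Y, (piR (u : ℝ) n 1 : ℝ) / ((u : ℝ) * (u + 1)) := by
  rw [← abel_id (fun u => (piR (u : ℝ) n 1 : ℝ)) z Y h, Finset.sum_filter]
  apply Finset.sum_congr rfl
  intro u hu
  rw [mem_Ioc] at hu
  rw [piR_sub n u (by omega)]
  split_ifs <;> simp

/-- Bombieri-Vinogradov for the primes in `(y, 2 y]` and all `u ≥ y ^ 3` -/
lemma bv_u : ∃ C : ℝ, 0 < C ∧ ∃ y0 : ℕ, 3 ≤ y0 ∧ ∀ y : ℕ, y0 ≤ y → ∀ u : ℕ, y ^ 3 ≤ u →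
    ∑ n ∈ PR y, err (u : ℝ) n 1 ≤ C * u / Real.log u ^ 2 ∧ err (u : ℝ) 1 1 ≤ C * u / Real.log u ^ 2 := by
  obtain ⟨C, hC0, x0, h⟩ := Pool.Agent.H441R3.BV.main_nat 2
  have hasy : ∀ᶠ u : ℝ in atTop, Real.log u ^ 2 * Real.log (Real.log u) ^ 2 ≤ u ^ (1 / 6 : ℝ) / 2 := by
    have h1 : (fun u : ℝ => Real.log u ^ (4 : ℝ)) =o[atTop] (fun u : ℝ => u ^ (1 / 6 : ℝ)) :=
      isLittleO_log_rpow_rpow_atTop 4 (by norm_num)
    filter_upwards [h1.bound (show (0 : ℝ) < 1 / 2 by norm_num), eventually_ge_atTop (Real.exp 1),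
      Real.tendsto_log_atTop.eventually_ge_atTop 1] with u h2 h3 h4
    have hu0 : 0 < u := lt_of_lt_of_le (Real.exp_pos 1) h3
    rw [Real.norm_of_nonneg (by positivity), Real.norm_of_nonneg (by positivity)] at h2
    have h5 : 0 ≤ Real.log (Real.log u) := Real.log_nonneg h4
    have h6 : Real.log (Real.log u) ≤ Real.log u := (Real.log_le_sub_one_of_pos (by linarith)).trans (by linarith)
    have h7 : Real.log (Real.log u) ^ 2 ≤ Real.log u ^ 2 := pow_le_pow_left₀ h5 h6 2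
    have h8 : Real.log u ^ (4 : ℝ) = Real.log u ^ 2 * Real.log u ^ 2 := by
      rw [show (4 : ℝ) = ((4 : ℕ) : ℝ) by norm_num, Real.rpow_natCast]
      ring
    rw [h8] at h2
    have h9 : Real.log u ^ 2 * Real.log (Real.log u) ^ 2 ≤ Real.log u ^ 2 * Real.log u ^ 2 :=
      mul_le_mul_of_nonneg_left h7 (by positivity)
    linarith
  obtain ⟨B, hB⟩ := eventually_atTop.1 hasy
  refine ⟨2 * C + 1, by linarith, max (max 4 x0) ⌈B⌉₊, (by omega), fun y hy u hu => ?_⟩
  have hy4 : 4 ≤ y := (le_max_left _ _).trans ((le_max_left _ _).trans hy)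
  have hyx : x0 ≤ y := (le_max_right _ _).trans ((le_max_left _ _).trans hy)
  have hyB : B ≤ y := (Nat.le_ceil B).trans (by exact_mod_cast (le_max_right _ _).trans hy)
  have hyu : y ≤ u := by
    calc y = y ^ 1 := (pow_one y).symm
      _ ≤ y ^ 3 := Nat.pow_le_pow_right (by omega) (by norm_num)
      _ ≤ u := hu
  have hu0 : (0 : ℝ) < u := by exact_mod_cast (by omega : 0 < u)
  have hD2 : (2 * y) ^ 2 ≤ u := by
    calc (2 * y) ^ 2 = 4 * y ^ 2 := by ring
      _ ≤ y * y ^ 2 := Nat.mul_le_mul_right _ hy4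
      _ = y ^ 3 := by ring
      _ ≤ u := hu
  have hl0 : 0 < Real.log (u : ℝ) := Real.log_pos (by exact_mod_cast (by omega : 1 < u))
  have h1 := h u (by omega) (2 * y) hD2 (fun _ => (u : ℝ)) (fun d => ⟨by exact_mod_cast (by omega : 2 ≤ u), by
    rw [Nat.floor_natCast]⟩) (fun _ => 1) (fun d _ => Nat.coprime_one_left d)
  have h2 := hB u (hyB.trans (by exact_mod_cast hyu))
  -- `2 y √u (log log u)^2 ≤ u / log^2 u`
  have h3 : ((2 * y : ℕ) : ℝ) * √(u : ℝ) * Real.log (Real.log u) ^ 2 ≤ u / Real.log u ^ 2 := by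
    have hy3 : (y : ℝ) ≤ (u : ℝ) ^ (1 / 3 : ℝ) := by
      have h4 : ((y : ℝ) ^ 3) ≤ u := by exact_mod_cast hu
      calc (y : ℝ) = ((y : ℝ) ^ 3) ^ (1 / 3 : ℝ) := by
            rw [← Real.rpow_natCast, ← Real.rpow_mul (Nat.cast_nonneg y)]
            norm_num
        _ ≤ (u : ℝ) ^ (1 / 3 : ℝ) := Real.rpow_le_rpow (by positivity) h4 (by norm_num)
    rw [le_div_iff₀ (by positivity)]
    have hs : √(u : ℝ) = (u : ℝ) ^ (1 / 2 : ℝ) := Real.sqrt_eq_rpow _
    have h5 : (u : ℝ) ^ (1 / 3 : ℝ) * (u : ℝ) ^ (1 / 2 : ℝ) * (u : ℝ) ^ (1 / 6 : ℝ) = u := by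
      rw [← Real.rpow_add hu0, ← Real.rpow_add hu0]
      norm_num
    calc ((2 * y : ℕ) : ℝ) * √(u : ℝ) * Real.log (Real.log u) ^ 2 * Real.log u ^ 2
        = 2 * (y * √(u : ℝ)) * (Real.log u ^ 2 * Real.log (Real.log u) ^ 2) := by push_cast; ring
      _ ≤ 2 * ((u : ℝ) ^ (1 / 3 : ℝ) * √(u : ℝ)) * ((u : ℝ) ^ (1 / 6 : ℝ) / 2) := by
          apply mul_le_mul _ h2 (by positivity) (by positivity)
          apply mul_le_mul_of_nonneg_left _ (by norm_num)
          exact mul_le_mul_of_nonneg_right hy3 (Real.sqrt_nonneg _)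
      _ = u := by rw [hs]; linarith
  have h6 : ∑ d ∈ Icc 1 (2 * y), err (u : ℝ) d 1 ≤ (2 * C + 1) * u / Real.log u ^ 2 := by
    refine h1.trans ?_
    have h7 : C * ((u : ℝ) / Real.log u ^ 2 + ((2 * y : ℕ) : ℝ) * √(u : ℝ) * Real.log (Real.log u) ^ 2) ≤
        C * (2 * (u / Real.log u ^ 2)) := by
      apply mul_le_mul_of_nonneg_left _ hC0
      linarith
    refine h7.trans ?_
    have h8 : 0 ≤ (u : ℝ) / Real.log u ^ 2 := by positivity
    have h9 : (2 * C + 1) * u / Real.log u ^ 2 = (2 * C + 1) * (u / Real.log u ^ 2) := by ring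
    rw [h9]
    nlinarith
  constructor
  · refine le_trans ?_ h6
    apply Finset.sum_le_sum_of_subset_of_nonneg
    · intro n hn
      unfold PR at hn
      rw [mem_filter, mem_Ioc] at hn
      rw [mem_Icc]
      omega
    · intro n _ _
      exact err_nonneg _ _ _
  · refine le_trans ?_ h6
    exact Finset.single_le_sum (f := fun d => err (u : ℝ) d 1) (fun d _ => err_nonneg _ _ _)
      (mem_Icc.2 ⟨le_rfl, by omega⟩)

lemma tele (z Y : ℕ) (hz : 3 ≤ z) (h : z ≤ Y) :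
    ∑ u ∈ Ioc z Y, 1 / (((u : ℝ) + 1) * Real.log u ^ 2) ≤
      2 / Real.log ((z : ℝ) + 1) - 2 / Real.log ((Y : ℝ) + 1) := by
  induction Y, h using Nat.le_induction with
  | base => simp
  | succ Y hY ih =>
    rw [Finset.sum_Ioc_succ_top (by omega)]
    have hY0 : (0 : ℝ) < Y := by exact_mod_cast (by omega : 0 < Y)
    have hY3 : (3 : ℝ) ≤ Y := by exact_mod_cast (by omega : 3 ≤ Y)
    have e1 : ((Y + 1 : ℕ) : ℝ) = Y + 1 := by push_cast; ring
    rw [e1]
    set a := Real.log ((Y : ℝ) + 1) with ha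
    set b := Real.log ((Y : ℝ) + 1 + 1) with hb
    have ha0 : 0 < a := Real.log_pos (by linarith)
    have hab : a ≤ b := Real.log_le_log (by linarith) (by linarith)
    have hb2 : b ≤ 2 * a := by
      rw [hb, ha, ← Real.log_rpow (by linarith)]
      apply Real.log_le_log (by linarith)
      rw [show (2 : ℝ) = ((2 : ℕ) : ℝ) by norm_num, Real.rpow_natCast]
      push_cast
      nlinarith
    have h1 : 1 / ((Y : ℝ) + 1 + 1) ≤ b - a := by
      rw [hb, ha, ← Real.log_div (by positivity) (by positivity)]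
      have h2 := Real.one_sub_inv_le_log_of_pos (show 0 < ((Y : ℝ) + 1 + 1) / ((Y : ℝ) + 1) by positivity)
      rw [inv_div] at h2
      refine le_trans (le_of_eq ?_) h2
      field_simp
      ring
    have h3 : 1 / (((Y : ℝ) + 1 + 1) * a ^ 2) ≤ 2 / a - 2 / b := by
      have hb0 : 0 < b := by linarith
      have h4 : 2 / a - 2 / b = 2 * (b - a) / (a * b) := by
        field_simp
      rw [h4]
      calc 1 / (((Y : ℝ) + 1 + 1) * a ^ 2) = (1 / ((Y : ℝ) + 1 + 1)) / a ^ 2 := by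
            rw [div_div]
        _ ≤ (b - a) / a ^ 2 := div_le_div_of_nonneg_right h1 (by positivity)
        _ ≤ 2 * (b - a) / (a * b) := by
            rw [div_le_div_iff₀ (by positivity) (by positivity)]
            have h5 : 0 ≤ b - a := by linarith
            have h6 : a * b ≤ 2 * a ^ 2 := by nlinarith
            nlinarith
    linarith

/-- the integral logarithm -/
noncomputable def li (u : ℝ) : ℝ := ∫ t in (2 : ℝ)..u, 1 / Real.log t

lemma class_le {n : ℕ} (hn : n.Prime) (u : ℕ) :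
    ((n : ℝ) - 1) * piR (u : ℝ) n 1 ≤
      piR (u : ℝ) 1 1 + (err (u : ℝ) 1 1 + ((n : ℝ) - 1) * err (u : ℝ) n 1) := by
  have hn1 : (0 : ℝ) < (n : ℝ) - 1 := by
    have : (1 : ℝ) < n := by exact_mod_cast hn.one_lt
    linarith
  have h1 : (piR (u : ℝ) n 1 : ℝ) - li u / ((n : ℝ) - 1) ≤ err (u : ℝ) n 1 := by
    have h2 := le_abs_self ((piR (u : ℝ) n 1 : ℝ) - (∫ t in (2 : ℝ)..(u : ℝ), 1 / Real.log t) / (Nat.totient n : ℝ))
    rw [Nat.totient_prime hn, Nat.cast_sub hn.one_lt.le, Nat.cast_one] at h2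
    unfold err
    rw [Nat.totient_prime hn, Nat.cast_sub hn.one_lt.le, Nat.cast_one]
    exact h2
  have h3 : li u - (piR (u : ℝ) 1 1 : ℝ) ≤ err (u : ℝ) 1 1 := by
    have h4 := neg_abs_le ((piR (u : ℝ) 1 1 : ℝ) - (∫ t in (2 : ℝ)..(u : ℝ), 1 / Real.log t) / (Nat.totient 1 : ℝ))
    unfold err
    rw [Nat.totient_one, Nat.cast_one, div_one] at h4 ⊢
    unfold li
    linarith
  have h5 : ((n : ℝ) - 1) * ((piR (u : ℝ) n 1 : ℝ) - li u / ((n : ℝ) - 1)) ≤ ((n : ℝ) - 1) * err (u : ℝ) n 1 :=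
    mul_le_mul_of_nonneg_left h1 hn1.le
  rw [mul_sub, mul_div_cancel₀ _ hn1.ne'] at h5
  linarith

/-- LARGE for subsets -/
def St_LARGEI : Prop := ∃ C : ℝ, 0 < C ∧ ∀ᶠ y : ℕ in atTop, ∀ Y : ℕ, y ^ 3 ≤ Y → ∀ I : Finset ℕ, I ⊆ PR y →
    ∑ n ∈ I, ∑ l ∈ (Ioc (y ^ 3) Y).filter (fun l => l.Prime ∧ l % n = 1), ((n : ℝ) - 1) / l ≤
      I.card * (Real.log (Real.log Y) - Real.log (Real.log y) + C) + C * y / Real.log y

theorem LARGEI_thm : St_LARGEI := by
  obtain ⟨C, hC, y0, hy03, hbv⟩ := bv_u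
  obtain ⟨M0, hM0⟩ := Pool.Agent.H305R2.mertens_inv_tendsto
  set F : ℕ → ℝ := fun N => ∑ p ∈ (Icc 1 N).filter Nat.Prime, (1 : ℝ) / p with hF
  obtain ⟨z0, hz0⟩ := Metric.tendsto_atTop.1 hM0 (1 / 2) (by norm_num)
  refine ⟨9 * C + 2, by linarith, ?_⟩
  filter_upwards [eventually_ge_atTop (max y0 (max 3 z0))] with y hy
  intro Y hY I hI
  have hyy0 : y0 ≤ y := (le_max_left _ _).trans hy
  have hy3 : 3 ≤ y := (le_max_left _ _).trans ((le_max_right _ _).trans hy)
  have hyz0 : z0 ≤ y := (le_max_right _ _).trans ((le_max_right _ _).trans hy)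
  set z := y ^ 3 with hz
  have hyz : y ≤ z := by
    calc y = y ^ 1 := (pow_one y).symm
      _ ≤ y ^ 3 := Nat.pow_le_pow_right (by omega) (by norm_num)
  have hPR : ∀ n ∈ PR y, n.Prime ∧ y < n ∧ n ≤ 2 * y := by
    intro n hn
    unfold PR at hn
    rw [mem_filter, mem_Ioc] at hn
    exact ⟨hn.2, hn.1⟩
  have hy0r : (0 : ℝ) < y := by exact_mod_cast (by omega : 0 < y)
  have hly : 1 ≤ Real.log (y : ℝ) := by
    rw [Real.le_log_iff_exp_le hy0r]
    have := Real.exp_one_lt_d9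
    have h3 : (3 : ℝ) ≤ y := by exact_mod_cast hy3
    linarith
  set e : ℕ → ℕ → ℝ := fun n u => err (u : ℝ) 1 1 + ((n : ℝ) - 1) * err (u : ℝ) n 1 with he
  set S1 : ℝ := ∑ l ∈ (Ioc z Y).filter (fun l => l.Prime ∧ l ≡ 1 [MOD 1]), (1 : ℝ) / l with hS1
  have hS1F : S1 = F Y - F z := by
    rw [hS1, hF]
    simp only
    have h1 : (Ioc z Y).filter (fun l => l.Prime ∧ l ≡ 1 [MOD 1]) = (Ioc z Y).filter Nat.Prime := by
      apply Finset.filter_congr
      intro l _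
      exact ⟨fun h => h.1, fun h => ⟨h, Nat.modEq_one⟩⟩
    rw [h1, Finset.sum_filter, Finset.sum_filter, Finset.sum_filter]
    have h7 : Icc 1 Y = Ioc 0 Y := rfl
    have h8 : Icc 1 z = Ioc 0 z := rfl
    rw [h7, h8, ← Finset.sum_Ioc_consecutive _ (Nat.zero_le z) hY]
    ring
  have hS1le : S1 ≤ Real.log (Real.log Y) - Real.log (Real.log y) + 1 := by
    have h1 := hz0 Y (by omega)
    have h2 := hz0 z (by omega)
    rw [Real.dist_eq] at h1 h2
    have h3 := abs_lt.1 h1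
    have h4 := abs_lt.1 h2
    have h5 : Real.log (Real.log (y : ℝ)) ≤ Real.log (Real.log (z : ℝ)) := by
      apply Real.log_le_log (by linarith)
      apply Real.log_le_log hy0r
      exact_mod_cast hyz
    rw [hS1F]
    simp only [hF] at h3 h4 ⊢
    linarith [h3.2, h4.1]
  have key : ∀ n ∈ PR y, ∑ l ∈ (Ioc z Y).filter (fun l => l.Prime ∧ l % n = 1), ((n : ℝ) - 1) / l ≤
      S1 + 1 + (e n Y / ((Y : ℝ) + 1) + ∑ u ∈ Ioc z Y, e n u / ((u : ℝ) * (u + 1))) := by
    intro n hn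
    obtain ⟨hnp, hn1, hn2⟩ := hPR n hn
    have hn10 : (0 : ℝ) ≤ (n : ℝ) - 1 := by
      have : (1 : ℝ) ≤ n := by exact_mod_cast hnp.one_lt.le
      linarith
    have h1 : ∑ l ∈ (Ioc z Y).filter (fun l => l.Prime ∧ l % n = 1), ((n : ℝ) - 1) / l =
        ((n : ℝ) - 1) * ∑ l ∈ (Ioc z Y).filter (fun l => l.Prime ∧ l ≡ 1 [MOD n]), (1 : ℝ) / l := by
      rw [Finset.mul_sum]
      apply Finset.sum_congr
      · apply Finset.filter_congr
        intro l _
        unfold Nat.ModEq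
        rw [Nat.mod_eq_of_lt hnp.one_lt]
      · intro l _
        ring
    rw [h1, sum_class n z Y hY, hS1, sum_class 1 z Y hY]
    have h2 : ((n : ℝ) - 1) * ((piR (Y : ℝ) n 1 : ℝ) / ((Y : ℝ) + 1)) ≤
        (piR (Y : ℝ) 1 1 : ℝ) / ((Y : ℝ) + 1) + e n Y / ((Y : ℝ) + 1) := by
      rw [mul_div_assoc', ← add_div]
      exact div_le_div_of_nonneg_right (class_le hnp Y) (by positivity)
    have h3 : 0 ≤ ((n : ℝ) - 1) * ((piR (z : ℝ) n 1 : ℝ) / ((z : ℝ) + 1)) := by positivity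
    have h4 : (piR (z : ℝ) 1 1 : ℝ) / ((z : ℝ) + 1) ≤ 1 := by
      rw [div_le_one (by positivity)]
      have h5 : piR (z : ℝ) 1 1 ≤ z := by
        unfold piR
        refine (Finset.card_filter_le _ _).trans ?_
        rw [Nat.floor_natCast, Nat.card_Icc]
        omega
      have h6 : (piR (z : ℝ) 1 1 : ℝ) ≤ z := by exact_mod_cast h5
      linarith
    have h7 : ((n : ℝ) - 1) * ∑ u ∈ Ioc z Y, (piR (u : ℝ) n 1 : ℝ) / ((u : ℝ) * (u + 1)) ≤
        ∑ u ∈ Ioc z Y, (piR (u : ℝ) 1 1 : ℝ) / ((u : ℝ) * (u + 1)) +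
          ∑ u ∈ Ioc z Y, e n u / ((u : ℝ) * (u + 1)) := by
      rw [Finset.mul_sum, ← Finset.sum_add_distrib]
      apply Finset.sum_le_sum
      intro u _
      rw [mul_div_assoc', ← add_div]
      exact div_le_div_of_nonneg_right (class_le hnp u) (by positivity)
    rw [mul_add, mul_sub]
    linarith
  have hM : ((PR y).card : ℝ) ≤ y := by
    have : (PR y).card ≤ y := by
      unfold PR
      refine (Finset.card_filter_le _ _).trans ?_
      rw [Nat.card_Ioc]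
      omega
    exact_mod_cast this
  have hsum : ∀ u : ℕ, z ≤ u → ∑ n ∈ PR y, e n u ≤ 3 * y * (C * u / Real.log u ^ 2) := by
    intro u hu
    obtain ⟨h1, h2⟩ := hbv y hyy0 u hu
    have hpos : 0 ≤ C * (u : ℝ) / Real.log u ^ 2 := by positivity
    rw [he]
    simp only
    rw [Finset.sum_add_distrib, Finset.sum_const, nsmul_eq_mul]
    have h3 : ∑ n ∈ PR y, ((n : ℝ) - 1) * err (u : ℝ) n 1 ≤ 2 * y * ∑ n ∈ PR y, err (u : ℝ) n 1 := by
      rw [Finset.mul_sum]
      apply Finset.sum_le_sum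
      intro n hn
      apply mul_le_mul_of_nonneg_right _ (err_nonneg _ _ _)
      have : (n : ℝ) ≤ ((2 * y : ℕ) : ℝ) := by exact_mod_cast (hPR n hn).2.2
      push_cast at this
      linarith
    have h4 : ((PR y).card : ℝ) * err (u : ℝ) 1 1 ≤ y * (C * u / Real.log u ^ 2) :=
      mul_le_mul hM h2 (err_nonneg _ _ _) hy0r.le
    have h5 : 2 * (y : ℝ) * ∑ n ∈ PR y, err (u : ℝ) n 1 ≤ 2 * y * (C * u / Real.log u ^ 2) :=
      mul_le_mul_of_nonneg_left h1 (by positivity)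
    linarith
  have htot : ∑ n ∈ PR y, (e n Y / ((Y : ℝ) + 1) + ∑ u ∈ Ioc z Y, e n u / ((u : ℝ) * (u + 1))) ≤
      9 * C * y / Real.log y := by
    rw [Finset.sum_add_distrib, ← Finset.sum_div, Finset.sum_comm]
    have hlY : Real.log (y : ℝ) ≤ Real.log Y := Real.log_le_log hy0r (by exact_mod_cast (by omega : y ≤ Y))
    have hlY0 : 0 < Real.log (Y : ℝ) := by linarith
    have h1 : (∑ n ∈ PR y, e n Y) / ((Y : ℝ) + 1) ≤ 3 * C * y / Real.log y := by
      rw [div_le_iff₀ (by positivity)]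
      refine (hsum Y hY).trans ?_
      have hY0 : (0 : ℝ) ≤ Y := Nat.cast_nonneg Y
      have h2 : C * (Y : ℝ) / Real.log Y ^ 2 ≤ C * (Y + 1) / Real.log y := by
        rw [div_le_div_iff₀ (by positivity) (by positivity)]
        have h3 : Real.log (y : ℝ) ≤ Real.log Y ^ 2 := by nlinarith
        have h4 : C * (Y : ℝ) * Real.log y ≤ C * Y * Real.log Y ^ 2 :=
          mul_le_mul_of_nonneg_left h3 (by positivity)
        have h5 : 0 ≤ C * Real.log (Y : ℝ) ^ 2 := by positivity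
        nlinarith
      calc 3 * (y : ℝ) * (C * Y / Real.log Y ^ 2) ≤ 3 * y * (C * (Y + 1) / Real.log y) :=
            mul_le_mul_of_nonneg_left h2 (by positivity)
        _ = 3 * C * y / Real.log y * (Y + 1) := by ring
    have h6 : ∑ u ∈ Ioc z Y, ∑ n ∈ PR y, e n u / ((u : ℝ) * (u + 1)) ≤ 6 * C * y / Real.log y := by
      have h7 : ∀ u ∈ Ioc z Y, ∑ n ∈ PR y, e n u / ((u : ℝ) * (u + 1)) ≤
          3 * C * y * (1 / (((u : ℝ) + 1) * Real.log u ^ 2)) := by
        intro u hu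
        rw [mem_Ioc] at hu
        have hu0 : (0 : ℝ) < u := by exact_mod_cast (by omega : 0 < u)
        have hlu : 0 < Real.log (u : ℝ) := Real.log_pos (by exact_mod_cast (by omega : 1 < u))
        rw [← Finset.sum_div, div_le_iff₀ (by positivity)]
        refine (hsum u hu.1.le).trans (le_of_eq ?_)
        field_simp
      refine (Finset.sum_le_sum h7).trans ?_
      rw [← Finset.mul_sum]
      have h8 := tele z Y (by omega) hY
      have h9 : 0 ≤ 2 / Real.log ((Y : ℝ) + 1) := by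
        apply div_nonneg (by norm_num)
        apply Real.log_nonneg
        have : (0 : ℝ) ≤ Y := Nat.cast_nonneg Y
        linarith
      have h10 : 2 / Real.log ((z : ℝ) + 1) ≤ 2 / Real.log y := by
        apply div_le_div_of_nonneg_left (by norm_num) (by linarith)
        apply Real.log_le_log hy0r
        have : (y : ℝ) ≤ z := by exact_mod_cast hyz
        linarith
      calc 3 * C * (y : ℝ) * ∑ u ∈ Ioc z Y, 1 / (((u : ℝ) + 1) * Real.log u ^ 2)
          ≤ 3 * C * y * (2 / Real.log y) := by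
            apply mul_le_mul_of_nonneg_left _ (by positivity)
            linarith
        _ = 6 * C * y / Real.log y := by ring
    have h11 : 9 * C * (y : ℝ) / Real.log y = 3 * C * y / Real.log y + 6 * C * y / Real.log y := by ring
    linarith
  have hfin := Finset.sum_le_sum (fun n hn => key n (hI hn))
  rw [Finset.sum_add_distrib, Finset.sum_const, nsmul_eq_mul] at hfin
  have hc0 : (0 : ℝ) ≤ I.card := Nat.cast_nonneg _
  have he0 : ∀ n ∈ PR y, ∀ u : ℕ, 0 ≤ e n u := by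
    intro n hn u
    have h1 : (1 : ℝ) ≤ n := by exact_mod_cast (hPR n hn).1.one_lt.le
    have h2 := err_nonneg (u : ℝ) 1 1
    have h3 := err_nonneg (u : ℝ) n 1
    have h4 : 0 ≤ ((n : ℝ) - 1) * err (u : ℝ) n 1 := mul_nonneg (by linarith) h3
    rw [he]
    simp only
    linarith
  have hsubI : ∑ n ∈ I, (e n Y / ((Y : ℝ) + 1) + ∑ u ∈ Ioc z Y, e n u / ((u : ℝ) * (u + 1))) ≤
      ∑ n ∈ PR y, (e n Y / ((Y : ℝ) + 1) + ∑ u ∈ Ioc z Y, e n u / ((u : ℝ) * (u + 1))) := by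
    apply Finset.sum_le_sum_of_subset_of_nonneg hI
    intro n hn _
    apply add_nonneg (div_nonneg (he0 n hn Y) (by positivity))
    apply Finset.sum_nonneg
    intro u _
    exact div_nonneg (he0 n hn u) (by positivity)
  have h12 : (I.card : ℝ) * (S1 + 1) ≤
      I.card * (Real.log (Real.log Y) - Real.log (Real.log y) + 2) := by
    apply mul_le_mul_of_nonneg_left _ hc0
    linarith
  have h13 : 9 * C * (y : ℝ) / Real.log y ≤ (9 * C + 2) * y / Real.log y := by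
    apply div_le_div_of_nonneg_right _ (by linarith)
    nlinarith
  have h14 : (I.card : ℝ) * (Real.log (Real.log Y) - Real.log (Real.log y) + 2) ≤
      I.card * (Real.log (Real.log Y) - Real.log (Real.log y) + (9 * C + 2)) := by
    apply mul_le_mul_of_nonneg_left _ hc0
    linarith
  linarith

theorem LARGE_thm : St_LARGE := by
  obtain ⟨C, hC, h⟩ := LARGEI_thm
  refine ⟨C, hC, ?_⟩
  filter_upwards [h] with y hy
  intro Y hY
  exact hy Y hY (PR y) (Finset.Subset.refl _)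

end Pool.Agent.L5helper2.RO
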