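import Pool.Agent.L5helper2.RO.Defs

set_option autoImplicit false

namespace Pool.Agent.L5helper2.RO

open Finset MeasureTheory ProbabilityTheory Filter
open scoped ENNReal Topology

/-- the number of units of order `n` -/
lemma PROB_card {l n : ℕ} (hl : l.Prime) (hn : n.Prime) :
    ((Icc 1 (l - 1)).filter fun u => orderOf ((u : ℕ) : ZMod l) = n).card =
      if l % n = 1 then n - 1 else 0 := by
  haveI : Fact l.Prime := ⟨hl⟩
  have hn1 := hn.two_le
  have hl1 := hl.two_le
  have h1 : ((Icc 1 (l - 1)).filter fun u => orderOf ((u : ℕ) : ZMod l) = n).card =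
      ((univ : Finset (ZMod l)).filter fun x => orderOf x = n).card := by
    refine Finset.card_bij' (fun u _ => ((u : ℕ) : ZMod l)) (fun x _ => x.val) ?_ ?_ ?_ ?_
    · intro u hu
      rw [mem_filter] at hu ⊢
      exact ⟨mem_univ _, hu.2⟩
    · intro x hx
      rw [mem_filter] at hx
      have hx0 : x ≠ 0 := by
        rintro rfl
        have h2 : (0 : ZMod l) ^ n = 1 := by
          rw [← hx.2]; exact pow_orderOf_eq_one _
        rw [zero_pow hn.ne_zero] at h2
        exact zero_ne_one h2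
      have h3 : x.val < l := ZMod.val_lt x
      have h4 : x.val ≠ 0 := fun h => hx0 ((ZMod.val_eq_zero x).1 h)
      simp only [mem_filter, mem_Icc, ZMod.natCast_zmod_val]
      refine ⟨⟨by omega, by omega⟩, hx.2⟩
    · intro u hu
      rw [mem_filter, mem_Icc] at hu
      exact ZMod.val_cast_of_lt (by omega)
    · intro x _
      exact ZMod.natCast_zmod_val x
  have h2 : ((univ : Finset (ZMod l)).filter fun x => orderOf x = n).card =
      ((univ : Finset (ZMod l)ˣ).filter fun x => orderOf x = n).card := by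
    symm
    refine Finset.card_bij (fun u _ => (u : ZMod l)) ?_ ?_ ?_
    · intro u hu
      rw [mem_filter] at hu ⊢
      exact ⟨mem_univ _, by rw [orderOf_units]; exact hu.2⟩
    · intro u _ v _ huv
      exact Units.ext huv
    · intro x hx
      rw [mem_filter] at hx
      have h3 : x ^ n = 1 := by rw [← hx.2]; exact pow_orderOf_eq_one _
      have hx0 : x ≠ 0 := by
        rintro rfl
        rw [zero_pow hn.ne_zero] at h3
        exact zero_ne_one h3
      refine ⟨Units.mk0 x hx0, ?_, rfl⟩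
      rw [mem_filter]
      refine ⟨mem_univ _, ?_⟩
      rw [← orderOf_units]
      exact hx.2
  have hcard : Fintype.card (ZMod l)ˣ = l - 1 := ZMod.card_units l
  have hdvd : l % n = 1 ↔ n ∣ l - 1 := by
    constructor
    · intro h
      exact (Nat.modEq_iff_dvd' (by omega)).1 (by rw [Nat.ModEq, h, Nat.mod_eq_of_lt (by omega)])
    · intro h
      have h5 := (Nat.modEq_iff_dvd' (n := n) (a := 1) (b := l) (by omega)).2 h
      rw [Nat.ModEq, Nat.mod_eq_of_lt (by omega : 1 < n)] at h5
      exact h5.symm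
  rw [h1, h2]
  split_ifs with h
  · have h6 := IsCyclic.card_orderOf_eq_totient (α := (ZMod l)ˣ) (d := n)
      (by rw [hcard]; exact hdvd.1 h)
    rw [Nat.totient_prime hn] at h6
    rw [← h6]
  · rw [Finset.card_eq_zero, filter_eq_empty_iff]
    intro u _ hu
    refine h (hdvd.2 ?_)
    rw [← hcard, ← hu]
    exact orderOf_dvd_card

section Model

variable {Ω : Type} [MeasurableSpace Ω] {μ : Measure Ω} [IsProbabilityMeasure μ] {g : ℕ → Ω → ℕ}

open Classical in
lemma PROB_mem (hM : Model μ g) {l : ℕ} (hl : l.Prime) (S : Set ℕ) :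
    μ.real (g l ⁻¹' S) = (((Icc 1 (l - 1)).filter fun u => u ∈ S).card : ℝ) / ((l : ℝ) - 1) := by
  have hl1 := hl.two_le
  have hms : ∀ u : ℕ, MeasurableSet (g l ⁻¹' {u}) := fun u =>
    hM.meas l (measurableSet_singleton u)
  have hu : ∀ u ∈ Icc 1 (l - 1), μ (g l ⁻¹' {u}) = ((l - 1 : ℕ) : ℝ≥0∞)⁻¹ := by
    intro u hu
    rw [mem_Icc] at hu
    exact hM.unif l hl u hu.1 (by omega)
  have hne : ((l - 1 : ℕ) : ℝ≥0∞) ≠ 0 := by
    rw [Nat.cast_ne_zero]; omega
  have h1 : μ (g l ⁻¹' (↑(Icc 1 (l - 1)) : Set ℕ)) = 1 := by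
    rw [← sum_measure_preimage_singleton _ fun u _ => hms u, sum_congr rfl hu, sum_const,
      Nat.card_Icc, nsmul_eq_mul, show l - 1 + 1 - 1 = l - 1 by omega,
      ENNReal.mul_inv_cancel hne (ENNReal.natCast_ne_top _)]
  have hmI : MeasurableSet (g l ⁻¹' (↑(Icc 1 (l - 1)) : Set ℕ)) :=
    hM.meas l (Set.Finite.measurableSet (Finset.finite_toSet _))
  have h2 : ∀ᵐ ω ∂μ, ω ∈ g l ⁻¹' (↑(Icc 1 (l - 1)) : Set ℕ) := by
    rw [ae_iff]
    exact (prob_compl_eq_zero_iff hmI).2 h1
  have h3 : μ (g l ⁻¹' S) = μ (g l ⁻¹' (↑((Icc 1 (l - 1)).filter fun u => u ∈ S) : Set ℕ)) := by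
    refine measure_congr ?_
    filter_upwards [h2] with ω hω
    have : (ω ∈ g l ⁻¹' S) = (ω ∈ g l ⁻¹' (↑((Icc 1 (l - 1)).filter fun u => u ∈ S) : Set ℕ)) := by
      rw [Set.mem_preimage, Set.mem_preimage, mem_coe, mem_filter]
      rw [Set.mem_preimage, mem_coe] at hω
      simp [hω]
    exact this
  rw [measureReal_def, h3, ← sum_measure_preimage_singleton _ fun u _ => hms u,
    sum_congr rfl fun u hu' => hu u (mem_filter.1 hu').1, sum_const, nsmul_eq_mul,
    ENNReal.toReal_mul, ENNReal.toReal_inv, ENNReal.toReal_natCast, ENNReal.toReal_natCast,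
    Nat.cast_sub (by omega), Nat.cast_one, div_eq_mul_inv]

lemma PROB_inter (hM : Model μ g) (L : Finset ℕ) (S : ℕ → Set ℕ) :
    μ.real (⋂ l ∈ L, g l ⁻¹' S l) = ∏ l ∈ L, μ.real (g l ⁻¹' S l) := by
  rw [measureReal_def, hM.indep.measure_inter_preimage_eq_mul L
    (fun i _ => (MeasurableSet.of_discrete : MeasurableSet (S i))), ENNReal.toReal_prod]
  rfl

/-- units of order `n` -/
def PROB_S (l n : ℕ) : Set ℕ := {u | orderOf ((u : ℕ) : ZMod l) = n}

lemma PROB_order (hM : Model μ g) {l n : ℕ} (hl : l.Prime) (hn : n.Prime) :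
    μ.real (g l ⁻¹' PROB_S l n) = if l % n = 1 then ((n : ℝ) - 1) / ((l : ℝ) - 1) else 0 := by
  classical
  rw [PROB_mem hM hl]
  have h1 := PROB_card hl hn
  have h2 : ((Icc 1 (l - 1)).filter fun u => u ∈ PROB_S l n).card =
      if l % n = 1 then n - 1 else 0 := by
    rw [← h1]
    congr 1
    ext u
    simp only [PROB_S, Finset.mem_filter, Finset.mem_Icc, Set.mem_ofPred_eq]
  rw [h2]
  split_ifs
  · rw [Nat.cast_sub hn.one_le, Nat.cast_one]
  · simp

/-- the primes `l` with `l ^ 2 ≤ W b n` -/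
def PROB_L (b n : ℕ) : Finset ℕ := (range (W b n + 1)).filter fun l => l.Prime ∧ l ^ 2 ≤ W b n

lemma PROB_mem_L {b n l : ℕ} : l ∈ PROB_L b n ↔ l.Prime ∧ l ^ 2 ≤ W b n := by
  unfold PROB_L
  rw [mem_filter, mem_range]
  constructor
  · rintro ⟨_, h⟩; exact h
  · rintro ⟨h1, h2⟩
    refine ⟨?_, h1, h2⟩
    have := Nat.le_self_pow (n := 2) (by norm_num) l
    omega

lemma PROB_like (b n : ℕ) :
    {ω | Like b (fun l => g l ω) n} = ⋂ l ∈ PROB_L b n, g l ⁻¹' (PROB_S l n)ᶜ := by
  ext ω
  simp only [Set.mem_setOf_eq, Like, Set.mem_iInter, PROB_mem_L, Set.mem_preimage, Set.mem_compl_iff,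
    PROB_S]
  constructor
  · rintro h l ⟨h1, h2⟩
    exact h l h1 h2
  · intro h l h1 h2
    exact h l ⟨h1, h2⟩

/-- the probability at one prime -/
noncomputable def PROB_c (b n l : ℕ) : ℝ :=
  if l ^ 2 ≤ W b n ∧ l % n = 1 then ((n : ℝ) - 1) / ((l : ℝ) - 1) else 0

lemma PROB_c_nonneg {b n l : ℕ} (hl : l.Prime) (hn : n.Prime) : 0 ≤ PROB_c b n l := by
  unfold PROB_c
  split_ifs
  · have h1 : (1 : ℝ) ≤ n := by exact_mod_cast hn.one_le
    have h2 : (1 : ℝ) ≤ l := by exact_mod_cast hl.one_le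
    exact div_nonneg (by linarith) (by linarith)
  · exact le_rfl

lemma PROB_prod {b n : ℕ} {L : Finset ℕ} (hL : ∀ l ∈ L, l.Prime) (hsub : PROB_L b n ⊆ L) :
    ∏ l ∈ L, (1 - PROB_c b n l) = P b n := by
  unfold P
  have h1 : T b n ⊆ L := by
    intro l hl
    unfold T at hl
    rw [mem_filter] at hl
    exact hsub (PROB_mem_L.2 ⟨hl.2.1, hl.2.2.1⟩)
  rw [← prod_subset h1]
  · refine prod_congr rfl fun l hl => ?_
    unfold T at hl
    rw [mem_filter] at hl
    rw [PROB_c, if_pos ⟨hl.2.2.1, hl.2.2.2⟩]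
  · intro l hl hl'
    rw [PROB_c, if_neg, sub_zero]
    rintro ⟨h2, h3⟩
    refine hl' ?_
    unfold T
    rw [mem_filter, mem_range]
    have := Nat.le_self_pow (n := 2) (by norm_num) l
    exact ⟨by omega, hL l hl, h2, h3⟩

lemma PROB_union (hM : Model μ g) {l n m : ℕ} (hl : l.Prime) (hn : n.Prime) (hm : m.Prime)
    (hnm : n ≠ m) :
    μ.real (g l ⁻¹' (PROB_S l n ∪ PROB_S l m)) =
      (if l % n = 1 then ((n : ℝ) - 1) / ((l : ℝ) - 1) else 0) +
      (if l % m = 1 then ((m : ℝ) - 1) / ((l : ℝ) - 1) else 0) := by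
  rw [Set.preimage_union, measureReal_union, PROB_order hM hl hn, PROB_order hM hl hm]
  · rw [Set.disjoint_left]
    intro ω h1 h2
    exact hnm ((show orderOf _ = n from h1).symm.trans h2)
  · exact hM.meas l MeasurableSet.of_discrete

theorem PROB_thm : St_PROB := by
  intro b hb Ω _ μ _ g hM
  have hcompl : ∀ l (S : Set ℕ), μ.real (g l ⁻¹' Sᶜ) = 1 - μ.real (g l ⁻¹' S) := by
    intro l S
    rw [Set.preimage_compl]
    exact probReal_compl_eq_one_sub (hM.meas l MeasurableSet.of_discrete)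
  refine ⟨fun n hn hn2 => ⟨?_, ?_⟩, fun n m hn hm hn2 hm2 hnm => ?_⟩
  · rw [PROB_like]
    exact Finset.measurableSet_biInter _ fun l _ => hM.meas l MeasurableSet.of_discrete
  · rw [PROB_like, PROB_inter hM, ← PROB_prod (b := b) (n := n) (L := PROB_L b n)
      (fun l hl => (PROB_mem_L.1 hl).1) (Finset.Subset.refl _)]
    refine prod_congr rfl fun l hl => ?_
    have hl' := PROB_mem_L.1 hl
    rw [hcompl, PROB_order hM hl'.1 hn, PROB_c]
    simp [hl'.2]
  · classical
    -- the forbidden sets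
    let S : ℕ → Set ℕ := fun l => (if l ^ 2 ≤ W b n then PROB_S l n else ∅) ∪
      (if l ^ 2 ≤ W b m then PROB_S l m else ∅)
    have hprime : ∀ l ∈ PROB_L b n ∪ PROB_L b m, l.Prime := by
      intro l hl
      rcases mem_union.1 hl with h | h
      · exact (PROB_mem_L.1 h).1
      · exact (PROB_mem_L.1 h).1
    have hset : {ω | Like b (fun l => g l ω) n} ∩ {ω | Like b (fun l => g l ω) m} =
        ⋂ l ∈ PROB_L b n ∪ PROB_L b m, g l ⁻¹' (S l)ᶜ := by
      rw [PROB_like, PROB_like]
      ext ω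
      simp only [Set.mem_inter_iff, Set.mem_iInter, Set.mem_preimage, Set.mem_compl_iff, mem_union, S,
        Set.mem_union, PROB_mem_L, not_or]
      constructor
      · rintro ⟨h1, h2⟩ l hl
        have hlp : l.Prime := by rcases hl with h | h <;> exact h.1
        constructor
        · split_ifs with h3
          · exact h1 l ⟨hlp, h3⟩
          · exact Set.notMem_empty _
        · split_ifs with h3
          · exact h2 l ⟨hlp, h3⟩
          · exact Set.notMem_empty _
      · intro h
        constructor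
        · intro l hl
          have h1 := (h l (Or.inl hl)).1
          rwa [if_pos hl.2] at h1
        · intro l hl
          have h1 := (h l (Or.inr hl)).2
          rwa [if_pos hl.2] at h1
    rw [hset, PROB_inter hM, ← PROB_prod (b := b) (n := n) hprime subset_union_left,
      ← PROB_prod (b := b) (n := m) hprime subset_union_right, ← prod_mul_distrib]
    refine prod_le_prod (fun l _ => measureReal_nonneg) fun l hl => ?_
    have hlp := hprime l hl
    have hval : μ.real (g l ⁻¹' S l) = PROB_c b n l + PROB_c b m l := by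
      show μ.real (g l ⁻¹' ((if l ^ 2 ≤ W b n then PROB_S l n else ∅) ∪
        (if l ^ 2 ≤ W b m then PROB_S l m else ∅))) = _
      unfold PROB_c
      by_cases h1 : l ^ 2 ≤ W b n
      · by_cases h2 : l ^ 2 ≤ W b m
        · simp only [h1, h2, if_true, true_and]
          exact PROB_union hM hlp hn hm hnm
        · simp only [h1, h2, if_true, if_false, true_and, false_and, Set.union_empty, add_zero]
          exact PROB_order hM hlp hn
      · by_cases h2 : l ^ 2 ≤ W b m
        · simp only [h1, h2, if_true, if_false, true_and, false_and, Set.empty_union, zero_add]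
          exact PROB_order hM hlp hm
        · simp [h1, h2]
    rw [hcompl, hval]
    have h3 := PROB_c_nonneg (b := b) hlp hn
    have h4 := PROB_c_nonneg (b := b) hlp hm
    nlinarith [mul_nonneg h3 h4]

end Model

end Pool.Agent.L5helper2.RO
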