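import Pool.Agent.L5helper2.RO.PROB
import Pool.Agent.L5helper2.RO.Defs2

set_option autoImplicit false

namespace Pool.Agent.L5helper2.RO

open Finset MeasureTheory ProbabilityTheory Filter
open scoped ENNReal Topology

section Model

variable {Ω : Type} [MeasurableSpace Ω] {μ : Measure Ω} [IsProbabilityMeasure μ] {g : ℕ → Ω → ℕ}

/-- the primes `l > R n` with `l ^ 2 ≤ W b n` -/
def PROB_LR (b : ℕ) (R : ℕ → ℕ) (n : ℕ) : Finset ℕ := (range (W b n + 1)).filter fun l => l.Prime ∧ l ^ 2 ≤ W b n ∧ R n < l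

lemma PROB_mem_LR {b : ℕ} {R : ℕ → ℕ} {n l : ℕ} : l ∈ PROB_LR b R n ↔ l.Prime ∧ l ^ 2 ≤ W b n ∧ R n < l := by
  unfold PROB_LR
  rw [mem_filter, mem_range]
  constructor
  · rintro ⟨_, h⟩; exact h
  · rintro ⟨h1, h2⟩
    refine ⟨?_, h1, h2⟩
    have := Nat.le_self_pow (n := 2) (by norm_num) l
    have := h2.1
    omega

lemma PROB_likeR (b : ℕ) (R : ℕ → ℕ) (n : ℕ) :
    {ω | LikeR b R (fun l => g l ω) n} = ⋂ l ∈ PROB_LR b R n, g l ⁻¹' (PROB_S l n)ᶜ := by
  ext ω
  simp only [Set.mem_ofPred_eq, LikeR, Set.mem_iInter, PROB_mem_LR, Set.mem_preimage, Set.mem_compl_iff,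
    PROB_S]
  constructor
  · rintro h l ⟨h1, h2, h3⟩
    exact h l h1 h2 h3
  · intro h l h1 h2 h3
    exact h l ⟨h1, h2, h3⟩

/-- the probability at one prime -/
noncomputable def PROB_cR (b : ℕ) (R : ℕ → ℕ) (n l : ℕ) : ℝ :=
  if (l ^ 2 ≤ W b n ∧ R n < l) ∧ l % n = 1 then ((n : ℝ) - 1) / ((l : ℝ) - 1) else 0

lemma PROB_cR_nonneg {b : ℕ} {R : ℕ → ℕ} {n l : ℕ} (hl : l.Prime) (hn : n.Prime) : 0 ≤ PROB_cR b R n l := by
  unfold PROB_cR
  split_ifs
  · have h1 : (1 : ℝ) ≤ n := by exact_mod_cast hn.one_le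
    have h2 : (1 : ℝ) ≤ l := by exact_mod_cast hl.one_le
    exact div_nonneg (by linarith) (by linarith)
  · exact le_rfl

lemma PROB_prodR {b : ℕ} {R : ℕ → ℕ} {n : ℕ} {L : Finset ℕ} (hL : ∀ l ∈ L, l.Prime) (hsub : PROB_LR b R n ⊆ L) :
    ∏ l ∈ L, (1 - PROB_cR b R n l) = PRb b R n := by
  unfold PRb
  have h1 : (T b n).filter (fun l => R n < l) ⊆ L := by
    intro l hl
    unfold T at hl
    rw [mem_filter, mem_filter] at hl
    exact hsub (PROB_mem_LR.2 ⟨hl.1.2.1, hl.1.2.2.1, hl.2⟩)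
  rw [← prod_subset h1]
  · refine prod_congr rfl fun l hl => ?_
    unfold T at hl
    rw [mem_filter, mem_filter] at hl
    rw [PROB_cR, if_pos ⟨⟨hl.1.2.2.1, hl.2⟩, hl.1.2.2.2⟩]
  · intro l hl hl'
    rw [PROB_cR, if_neg, sub_zero]
    rintro ⟨⟨h2, h3⟩, h4⟩
    refine hl' ?_
    unfold T
    rw [mem_filter, mem_filter, mem_range]
    have := Nat.le_self_pow (n := 2) (by norm_num) l
    exact ⟨⟨by omega, hL l hl, h2, h4⟩, h3⟩

theorem PROBR_thm : St_PROBR := by
  intro b hb R Ω _ μ _ g hM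
  have hcompl : ∀ l (S : Set ℕ), μ.real (g l ⁻¹' Sᶜ) = 1 - μ.real (g l ⁻¹' S) := by
    intro l S
    rw [Set.preimage_compl]
    exact probReal_compl_eq_one_sub (hM.meas l MeasurableSet.of_discrete)
  refine ⟨fun n hn hn2 => ⟨?_, ?_⟩, fun n m hn hm hn2 hm2 hnm => ?_⟩
  · rw [PROB_likeR]
    exact Finset.measurableSet_biInter _ fun l _ => hM.meas l MeasurableSet.of_discrete
  · rw [PROB_likeR, PROB_inter hM, ← PROB_prodR (b := b) (R := R) (n := n) (L := PROB_LR b R n)
      (fun l hl => (PROB_mem_LR.1 hl).1) (Finset.Subset.refl _)]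
    refine prod_congr rfl fun l hl => ?_
    have hl' := PROB_mem_LR.1 hl
    rw [hcompl, PROB_order hM hl'.1 hn, PROB_cR]
    simp [hl'.2]
  · classical
    -- the forbidden sets
    let S : ℕ → Set ℕ := fun l => (if l ^ 2 ≤ W b n ∧ R n < l then PROB_S l n else ∅) ∪
      (if l ^ 2 ≤ W b m ∧ R m < l then PROB_S l m else ∅)
    have hprime : ∀ l ∈ PROB_LR b R n ∪ PROB_LR b R m, l.Prime := by
      intro l hl
      rcases mem_union.1 hl with h | h
      · exact (PROB_mem_LR.1 h).1
      · exact (PROB_mem_LR.1 h).1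
    have hset : {ω | LikeR b R (fun l => g l ω) n} ∩ {ω | LikeR b R (fun l => g l ω) m} =
        ⋂ l ∈ PROB_LR b R n ∪ PROB_LR b R m, g l ⁻¹' (S l)ᶜ := by
      rw [PROB_likeR, PROB_likeR]
      ext ω
      simp only [Set.mem_inter_iff, Set.mem_iInter, Set.mem_preimage, Set.mem_compl_iff, mem_union, S,
        Set.mem_union, PROB_mem_LR, not_or]
      constructor
      · rintro ⟨h1, h2⟩ l hl
        have hlp : l.Prime := by rcases hl with h | h <;> exact h.1
        constructor
        · split_ifs with h3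
          · exact h1 l ⟨hlp, h3⟩
          · exact Set.notMem_empty _
        · split_ifs with h3
          · exact h2 l ⟨hlp, h3⟩
          · exact Set.notMem_empty _
      · intro h
        constructor
        · intro l hl
          have h1 := (h l (Or.inl hl)).1
          rwa [if_pos hl.2] at h1
        · intro l hl
          have h1 := (h l (Or.inr hl)).2
          rwa [if_pos hl.2] at h1
    rw [hset, PROB_inter hM, ← PROB_prodR (b := b) (R := R) (n := n) hprime subset_union_left,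
      ← PROB_prodR (b := b) (R := R) (n := m) hprime subset_union_right, ← prod_mul_distrib]
    refine prod_le_prod (fun l _ => measureReal_nonneg) fun l hl => ?_
    have hlp := hprime l hl
    have hval : μ.real (g l ⁻¹' S l) = PROB_cR b R n l + PROB_cR b R m l := by
      show μ.real (g l ⁻¹' ((if l ^ 2 ≤ W b n ∧ R n < l then PROB_S l n else ∅) ∪
        (if l ^ 2 ≤ W b m ∧ R m < l then PROB_S l m else ∅))) = _
      unfold PROB_cR
      by_cases h1 : l ^ 2 ≤ W b n ∧ R n < l
      · by_cases h2 : l ^ 2 ≤ W b m ∧ R m < l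
        · simp only [h1, h2, if_true, true_and]
          exact PROB_union hM hlp hn hm hnm
        · simp only [h1, h2, if_true, if_false, true_and, false_and, Set.union_empty, add_zero]
          exact PROB_order hM hlp hn
      · by_cases h2 : l ^ 2 ≤ W b m ∧ R m < l
        · simp only [h1, h2, if_true, if_false, true_and, false_and, Set.empty_union, zero_add]
          exact PROB_order hM hlp hm
        · simp [h1, h2]
    rw [hcompl, hval]
    have h3 := PROB_cR_nonneg (b := b) (R := R) hlp hn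
    have h4 := PROB_cR_nonneg (b := b) (R := R) hlp hm
    nlinarith [mul_nonneg h3 h4]

end Model

end Pool.Agent.L5helper2.RO
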