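import Pool.Agent.L5helper2.RO.Defs
import Pool.Agent.Helper112.PairSieve
import Pool.Agent.Helper112.Arith

set_option autoImplicit false

/-! Small primes: pairs of primes `n`, `k n + 1` by the sieve. -/

namespace Pool.Agent.L5helper2.RO

open Finset

private lemma small_inner (y n : ℕ) (hy : 2 ≤ y) (hn : n ∈ PR y) :
    ∑ l ∈ (Icc 1 (y ^ 3)).filter (fun l => l.Prime ∧ l % n = 1), ((n : ℝ) - 1) / ((l : ℝ) - 1) ≤
      ∑ k ∈ Icc 1 (y ^ 2), if (k * n + 1).Prime then 1 / (k : ℝ) else 0 := by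
  have hn' := hn
  simp only [PR, mem_filter, mem_Ioc] at hn'
  obtain ⟨⟨hyn, _⟩, hnp⟩ := hn'
  have hn0 : 0 < n := hnp.pos
  have key : ∀ l ∈ (Icc 1 (y ^ 3)).filter (fun l => l.Prime ∧ l % n = 1),
      (l / n) * n + 1 = l ∧ 1 ≤ l / n ∧ l / n ≤ y ^ 2 := by
    intro l hl
    simp only [mem_filter, mem_Icc] at hl
    obtain ⟨⟨_, hl3⟩, hlp, hlm⟩ := hl
    have h1 : (l / n) * n + 1 = l := by
      have := Nat.div_add_mod l n
      rw [hlm, mul_comm] at this
      exact this
    have h2 : 1 ≤ l / n := by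
      rcases Nat.eq_zero_or_pos (l / n) with h | h
      · rw [h] at h1
        have := hlp.two_le
        omega
      · exact h
    refine ⟨h1, h2, ?_⟩
    by_contra hcon
    push Not at hcon
    have : (y ^ 2 + 1) * (y + 1) ≤ (l / n) * n := Nat.mul_le_mul hcon hyn
    nlinarith [this, h1, hl3, pow_succ y 2]
  calc ∑ l ∈ (Icc 1 (y ^ 3)).filter (fun l => l.Prime ∧ l % n = 1), ((n : ℝ) - 1) / ((l : ℝ) - 1)
      ≤ ∑ l ∈ (Icc 1 (y ^ 3)).filter (fun l => l.Prime ∧ l % n = 1), 1 / ((l / n : ℕ) : ℝ) := by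
        refine sum_le_sum fun l hl => ?_
        obtain ⟨h1, h2, _⟩ := key l hl
        have hk : (0 : ℝ) < ((l / n : ℕ) : ℝ) := by exact_mod_cast h2
        have hnr : (0 : ℝ) < n := by exact_mod_cast hn0
        have hl' : (l : ℝ) - 1 = ((l / n : ℕ) : ℝ) * n := by
          have : (((l / n : ℕ) * n + 1 : ℕ) : ℝ) = l := by exact_mod_cast congrArg (Nat.cast (R := ℝ)) h1
          push_cast at this
          push_cast
          linarith
        rw [hl', div_le_div_iff₀ (by positivity) hk]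
        nlinarith
    _ = ∑ k ∈ ((Icc 1 (y ^ 3)).filter (fun l => l.Prime ∧ l % n = 1)).image (fun l => l / n),
          1 / (k : ℝ) := by
        rw [sum_image]
        intro l hl l' hl' h
        have h1 := (key l (by simpa using hl)).1
        have h2 := (key l' (by simpa using hl')).1
        simp only at h
        rw [← h1, ← h2, h]
    _ ≤ ∑ k ∈ (Icc 1 (y ^ 2)).filter (fun k => (k * n + 1).Prime), 1 / (k : ℝ) := by
        refine sum_le_sum_of_subset_of_nonneg ?_ fun k _ _ => by positivity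
        intro k hk
        simp only [mem_image] at hk
        obtain ⟨l, hl, rfl⟩ := hk
        obtain ⟨h1, h2, h3⟩ := key l hl
        simp only [mem_filter, mem_Icc]
        refine ⟨⟨h2, h3⟩, ?_⟩
        rw [h1]
        exact (mem_filter.1 hl).2.1
    _ = ∑ k ∈ Icc 1 (y ^ 2), if (k * n + 1).Prime then 1 / (k : ℝ) else 0 := by
        rw [sum_filter]

theorem SMALL_thm : St_SMALL := by
  obtain ⟨C₁, hC₁, h₁⟩ := Pool.Agent.Helper112.E456.sieve_two
  obtain ⟨C₂, hC₂, h₂⟩ := Pool.Agent.Helper112.sum_ratio_sq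
  refine ⟨6 * C₁ * C₂, by positivity, fun y hy => ?_⟩
  have hyr : (2 : ℝ) ≤ y := by exact_mod_cast hy
  have hlogy : 0 < Real.log y := Real.log_pos (by linarith)
  have hlog2y : Real.log y ≤ Real.log (2 * y) := Real.log_le_log (by linarith) (by linarith)
  have hlog1 : 1 ≤ Real.log (2 * y) := by
    rw [Real.le_log_iff_exp_le (by linarith)]
    have := Real.exp_one_lt_d9
    linarith
  have hcnt : ∀ k ∈ Icc 1 (y ^ 2), (((PR y).filter fun n => (k * n + 1).Prime).card : ℝ) ≤
      C₁ * ((k : ℝ) / (Nat.totient k : ℝ)) ^ 2 * (2 * y) / (Real.log (2 * y)) ^ 2 := by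
    intro k hk
    have hk1 := (mem_Icc.1 hk).1
    have h := h₁ 1 0 k 1 (2 * y) one_pos hk1 (by simp) (by simp) (by simp) (by omega)
    have hsub : ((PR y).filter fun n => (k * n + 1).Prime) ⊆
        (Finset.Icc 1 (2 * y)).filter (fun n => (1 * n + 0).Prime ∧ (k * n + 1).Prime) := by
      intro n hn
      simp only [PR, mem_filter, mem_Ioc] at hn
      simp only [mem_filter, mem_Icc]
      refine ⟨⟨hn.1.2.pos, hn.1.1.2⟩, by simpa using hn.1.2, hn.2⟩
    have hc : (((PR y).filter fun n => (k * n + 1).Prime).card : ℝ) ≤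
        (((Finset.Icc 1 (2 * y)).filter (fun n => (1 * n + 0).Prime ∧ (k * n + 1).Prime)).card : ℝ) := by
      exact_mod_cast card_le_card hsub
    refine hc.trans (h.trans (le_of_eq ?_))
    simp
  calc ∑ n ∈ PR y, ∑ l ∈ (Icc 1 (y ^ 3)).filter (fun l => l.Prime ∧ l % n = 1),
        ((n : ℝ) - 1) / ((l : ℝ) - 1)
      ≤ ∑ n ∈ PR y, ∑ k ∈ Icc 1 (y ^ 2), (if (k * n + 1).Prime then 1 / (k : ℝ) else 0) :=
        sum_le_sum fun n hn => small_inner y n hy hn
    _ = ∑ k ∈ Icc 1 (y ^ 2), 1 / (k : ℝ) * (((PR y).filter fun n => (k * n + 1).Prime).card : ℝ) := by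
        rw [sum_comm]
        refine sum_congr rfl fun k _ => ?_
        rw [← sum_filter, sum_const, nsmul_eq_mul, mul_comm]
    _ ≤ ∑ k ∈ Icc 1 (y ^ 2), 1 / (k : ℝ) *
          (C₁ * ((k : ℝ) / (Nat.totient k : ℝ)) ^ 2 * (2 * y) / (Real.log (2 * y)) ^ 2) :=
        sum_le_sum fun k hk => mul_le_mul_of_nonneg_left (hcnt k hk) (by positivity)
    _ = C₁ * (2 * y) / (Real.log (2 * y)) ^ 2 *
          ∑ k ∈ Icc 1 (y ^ 2), (1 / (k : ℝ)) * ((k : ℝ) / (Nat.totient k : ℝ)) ^ 2 := by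
        rw [mul_sum]
        refine sum_congr rfl fun k _ => ?_
        ring
    _ ≤ C₁ * (2 * y) / (Real.log (2 * y)) ^ 2 * (C₂ * (1 + Real.log ((y ^ 2 : ℕ) : ℝ))) :=
        mul_le_mul_of_nonneg_left (h₂ (y ^ 2) (by nlinarith)) (by positivity)
    _ ≤ C₁ * (2 * y) / (Real.log (2 * y)) ^ 2 * (C₂ * (3 * Real.log (2 * y))) := by
        refine mul_le_mul_of_nonneg_left (mul_le_mul_of_nonneg_left ?_ hC₂.le) (by positivity)
        push_cast
        rw [Real.log_pow]
        push_cast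
        linarith
    _ = 6 * C₁ * C₂ * y / Real.log (2 * y) := by
        field_simp
        ring
    _ ≤ 6 * C₁ * C₂ * y / Real.log y := by
        apply div_le_div_of_nonneg_left (by positivity) hlogy hlog2y

end Pool.Agent.L5helper2.RO
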