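import Pool.Agent.L5helper2.RO.Defs

set_option autoImplicit false

/-! Primality of `(b ^ n + 1) / (b + 1)` in terms of the orders of `-b`. -/

namespace Pool.Agent.L5helper2.RO

open Finset

private theorem TRUE_mul {b n : ℕ} (hn : Odd n) : (b + 1) * W b n = b ^ n + 1 := by
  unfold W
  have h : (b + 1) ∣ b ^ n + 1 := by
    have := Odd.nat_add_dvd_pow_add_pow b 1 hn
    simpa using this
  exact Nat.mul_div_cancel' h

private theorem TRUE_sum {b n : ℕ} (hn : Odd n) : ((W b n : ℕ) : ℤ) = ∑ i ∈ range n, (-(b : ℤ)) ^ i := by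
  have h1 : ((b : ℤ) + 1) * (W b n : ℕ) = (b : ℤ) ^ n + 1 := by exact_mod_cast TRUE_mul (b := b) hn
  have h2 : (1 - (-(b : ℤ))) * ∑ i ∈ range n, (-(b : ℤ)) ^ i = 1 - (-(b : ℤ)) ^ n :=
    mul_neg_geom_sum _ _
  rw [hn.neg_pow] at h2
  have h3 : ((b : ℤ) + 1) ≠ 0 := by positivity
  apply mul_left_cancel₀ h3
  rw [h1]
  linarith

private theorem TRUE_pow {b n l : ℕ} (hn : Odd n) : (-(b : ZMod l)) ^ n = 1 ↔ l ∣ b ^ n + 1 := by
  rw [← ZMod.natCast_eq_zero_iff, hn.neg_pow]
  push_cast
  constructor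
  · intro h
    rw [← h]
    ring
  · intro h
    linear_combination (-1 : ZMod l) * h

private theorem TRUE_one {b l : ℕ} : (-(b : ZMod l)) = 1 ↔ l ∣ b + 1 := by
  rw [← ZMod.natCast_eq_zero_iff]
  push_cast
  constructor
  · intro h
    rw [← h]
    ring
  · intro h
    linear_combination (-1 : ZMod l) * h

theorem TRUE_thm : St_TRUE := by
  intro b n hb hn hn2 hnb
  have hodd : Odd n := hn.odd_of_ne_two hn2
  have hW := TRUE_mul (b := b) hodd
  have hn3 : 3 ≤ n := by
    have := hn.two_le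
    omega
  constructor
  · intro hWp l hl hlW ho
    have hp : (-(b : ZMod l)) ^ n = 1 := by rw [← ho]; exact pow_orderOf_eq_one _
    rw [TRUE_pow hodd, ← hW, hl.dvd_mul] at hp
    rcases hp with h | h
    · rw [← TRUE_one] at h
      rw [h, orderOf_one] at ho
      omega
    · have h1 : l = W b n := (Nat.prime_dvd_prime_iff_eq hl hWp).1 h
      rw [← h1] at hlW
      have := hl.two_le
      nlinarith
  · intro h
    by_contra hWp
    have hW2 : 2 ≤ W b n := by
      have h1 : b ^ 3 ≤ b ^ n := Nat.pow_le_pow_right (by omega) hn3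
      have h2 : (b + 1) * 2 ≤ b ^ 3 + 1 := by
        have : b ^ 3 = b * b * b := by ring
        nlinarith [Nat.mul_le_mul hb hb]
      have h3 : (b + 1) * 2 ≤ (b + 1) * W b n := by rw [hW]; omega
      exact Nat.le_of_mul_le_mul_left h3 (by omega)
    have hl : (W b n).minFac.Prime := Nat.minFac_prime (by omega)
    set l := (W b n).minFac with hldef
    have hlW : l ^ 2 ≤ W b n := Nat.minFac_sq_le_self (by omega) hWp
    have hld : l ∣ W b n := Nat.minFac_dvd _
    have hp : (-(b : ZMod l)) ^ n = 1 := by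
      rw [TRUE_pow hodd, ← hW]
      exact Dvd.dvd.mul_left hld _
    have ho : orderOf (-(b : ZMod l)) ∣ n := orderOf_dvd_of_pow_eq_one hp
    rcases (Nat.dvd_prime hn).1 ho with h1 | h1
    · rw [orderOf_eq_one_iff] at h1
      have h2 : ((W b n : ℕ) : ZMod l) = (n : ZMod l) := by
        have h3 := congrArg (fun z : ℤ => (z : ZMod l)) (TRUE_sum (b := b) hodd)
        simp only [Int.cast_natCast, Int.cast_sum, Int.cast_pow, Int.cast_neg] at h3
        rw [h3, h1]
        simp
      rw [(ZMod.natCast_eq_zero_iff _ _).2 hld] at h2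
      have h4 : l ∣ n := (ZMod.natCast_eq_zero_iff _ _).1 h2.symm
      have h5 : l = n := (Nat.prime_dvd_prime_iff_eq hl hn).1 h4
      apply hnb
      rw [← h5]
      exact TRUE_one.1 h1
    · exact h l hl hlW h1

end Pool.Agent.L5helper2.RO
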