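import Pool.Agent.L5helper2.RO.Asm
import Pool.Agent.L5helper2.RO.Large
import Pool.Agent.L5helper2.RO.SMALL
import Pool.Agent.L5helper2.RO.EXP
import Pool.Agent.L5helper2.RO.TRUE
import Pool.Agent.L5helper2.RO.LAW
import Pool.Agent.L5helper2.RO.PROB
import Pool.Agent.L5helper2.RO.UPPER

/-! MP_ce8d0c_nt (helper2, with helper8, helper45, helper46, helper54, helper94): the numbers `(b ^ n + 1) / (b + 1)`
in the model in which the residue of `-b` modulo every prime `l` is replaced by a random unit. -/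

set_option autoImplicit false

namespace Pool.Agent.L5helper2.RO.Lib

open Finset MeasureTheory ProbabilityTheory Filter
open scoped ENNReal Topology

/-- `(b ^ n + 1) / (b + 1)` -/
def W (b n : ℕ) : ℕ := (b ^ n + 1) / (b + 1)

/-- no prime `l` with `l ^ 2 ≤ W b n` has `orderOf (g l) = n` modulo `l`; for an odd prime `n` that does not divide
`b + 1` and `g l = -b` modulo `l` this says that `W b n` is prime -/
def Like (b : ℕ) (g : ℕ → ℕ) (n : ℕ) : Prop :=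
  ∀ l : ℕ, l.Prime → l ^ 2 ≤ W b n → orderOf ((g l : ℕ) : ZMod l) ≠ n

/-- independent random numbers `g l`; for a prime `l` the number `g l` is uniformly distributed in `{1, ..., l - 1}` -/
structure Units {Ω : Type} [MeasurableSpace Ω] (μ : Measure Ω) (g : ℕ → Ω → ℕ) : Prop where
  meas : ∀ l, Measurable (g l)
  indep : iIndepFun g μ
  unif : ∀ l : ℕ, l.Prime → ∀ u : ℕ, 1 ≤ u → u < l → μ {ω | g l ω = u} = ((l - 1 : ℕ) : ℝ≥0∞)⁻¹

/-- the product of the `1 - (n - 1) / (l - 1)` over the primes `l ≡ 1 (mod n)` with `l ^ 2 ≤ W b n` -/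
noncomputable def P (b n : ℕ) : ℝ :=
  ∏ l ∈ (range (W b n + 1)).filter (fun l => l.Prime ∧ l ^ 2 ≤ W b n ∧ l % n = 1),
    (1 - ((n : ℝ) - 1) / ((l : ℝ) - 1))

open Classical in
/-- the sum of the `P b n` over the `n ≤ x` in `S` -/
noncomputable def E (b : ℕ) (S : Set ℕ) (x : ℕ) : ℝ := ∑ n ∈ (Icc 1 x).filter (fun n => n ∈ S), P b n

open Classical in
/-- the number of the `n ≤ x` in `S` with `Like b g n` -/
noncomputable def N (b : ℕ) (g : ℕ → ℕ) (S : Set ℕ) (x : ℕ) : ℕ :=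
  ((Icc 1 x).filter (fun n => n ∈ S ∧ Like b g n)).card

theorem law (b : ℕ) (hb : 2 ≤ b) (S : Set ℕ) (hS : ∀ n ∈ S, n.Prime ∧ n ≠ 2) {Ω : Type} [MeasurableSpace Ω]
    (μ : Measure Ω) [IsProbabilityMeasure μ] (g : ℕ → Ω → ℕ) (hg : Units μ g)
    (hE : Tendsto (E b S) atTop atTop) :
    ∀ᵐ ω ∂μ, Tendsto (fun x : ℕ => (N b (fun l => g l ω) S x : ℝ) / E b S x) atTop (𝓝 1) := by
  classical
  obtain ⟨h1, h2⟩ := Pool.Agent.L5helper2.RO.PROB_thm b hb Ω _ μ inferInstance g ⟨hg.meas, hg.indep, hg.unif⟩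
  have hsum : ∀ x : ℕ, ∑ n ∈ (Icc 1 x).filter (fun n => n ∈ S), μ.real {ω | Like b (fun l => g l ω) n} = E b S x := by
    intro x
    unfold E
    apply Finset.sum_congr rfl
    intro n hn
    rw [Finset.mem_filter] at hn
    obtain ⟨h3, h4⟩ := hS n hn.2
    exact (h1 n h3 h4).2
  have h5 := Pool.Agent.L5helper2.RO.LAW_thm Ω _ μ inferInstance (fun n => {ω | Like b (fun l => g l ω) n}) S
    (fun n hn => (h1 n (hS n hn).1 (hS n hn).2).1)
    (fun n hn m hm hnm => by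
      obtain ⟨h3, h4⟩ := hS n hn
      obtain ⟨h5, h6⟩ := hS m hm
      have h7 := h2 n m h3 h5 h4 h6 hnm
      rw [← (h1 n h3 h4).2, ← (h1 m h5 h6).2] at h7
      exact h7)
    (by
      refine hE.congr fun x => ?_
      rw [← hsum x])
  filter_upwards [h5] with ω hω
  refine hω.congr fun x => ?_
  rw [← hsum x]
  rfl

theorem few (b : ℕ) (hb : 2 ≤ b) (S : Set ℕ) (hS : ∀ n ∈ S, n.Prime ∧ n ≠ 2) {Ω : Type} [MeasurableSpace Ω]
    (μ : Measure Ω) [IsProbabilityMeasure μ] (g : ℕ → Ω → ℕ) (hg : Units μ g)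
    (hE : ∃ C : ℝ, ∀ x : ℕ, E b S x ≤ C) :
    ∀ᵐ ω ∂μ, {n | n ∈ S ∧ Like b (fun l => g l ω) n}.Finite := by
  classical
  obtain ⟨C, hC⟩ := hE
  obtain ⟨h1, _⟩ := Pool.Agent.L5helper2.RO.PROB_thm b hb Ω _ μ inferInstance g ⟨hg.meas, hg.indep, hg.unif⟩
  have hP0 : ∀ n ∈ S, 0 ≤ P b n := by
    intro n hn
    have h2 := (h1 n (hS n hn).1 (hS n hn).2).2
    exact (measureReal_nonneg).trans (le_of_eq h2)
  set s : ℕ → Set Ω := fun n => if n ∈ S then {ω | Like b (fun l => g l ω) n} else ∅ with hs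
  have hμ : ∀ n, μ (s n) = ENNReal.ofReal (if n ∈ S then P b n else 0) := by
    intro n
    rw [hs]
    simp only
    split_ifs with h
    · have h2 := (h1 n (hS n h).1 (hS n h).2).2
      have h3 : P b n = μ.real {ω | Like b (fun l => g l ω) n} := h2.symm
      rw [h3, measureReal_def, ENNReal.ofReal_toReal (measure_ne_top μ _)]
    · simp
  have hle : ∑' n, μ (s n) ≤ ENNReal.ofReal C := by
    rw [ENNReal.tsum_eq_iSup_sum]
    apply iSup_le
    intro F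
    have h4 : F ⊆ Icc 0 (F.sup id) := by
      intro n hn
      exact mem_Icc.2 ⟨Nat.zero_le _, Finset.le_sup (f := id) hn⟩
    calc ∑ n ∈ F, μ (s n) = ENNReal.ofReal (∑ n ∈ F, if n ∈ S then P b n else 0) := by
          rw [ENNReal.ofReal_sum_of_nonneg]
          · exact Finset.sum_congr rfl fun n _ => hμ n
          · intro n _
            split_ifs with h
            · exact hP0 n h
            · exact le_rfl
      _ ≤ ENNReal.ofReal C := by
          apply ENNReal.ofReal_le_ofReal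
          refine le_trans ?_ (hC (F.sup id))
          unfold E
          rw [← Finset.sum_filter]
          apply Finset.sum_le_sum_of_subset_of_nonneg
          · intro n hn
            rw [Finset.mem_filter] at hn ⊢
            have h5 := (hS n hn.2).1.one_lt
            have h6 := mem_Icc.1 (h4 hn.1)
            exact ⟨mem_Icc.2 ⟨by omega, h6.2⟩, hn.2⟩
          · intro n hn _
            exact hP0 n (Finset.mem_filter.1 hn).2
  have hfin := ae_finite_setOfPred_mem (μ := μ) (s := s) (ne_top_of_le_ne_top ENNReal.ofReal_ne_top hle)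
  filter_upwards [hfin] with ω hω
  refine hω.subset ?_
  rintro n ⟨h2, h3⟩
  show ω ∈ s n
  rw [hs]
  simp only
  rw [if_pos h2]
  exact h3

theorem exists_units : ∃ (Ω : Type) (_ : MeasurableSpace Ω) (μ : Measure Ω) (_ : IsProbabilityMeasure μ)
    (g : ℕ → Ω → ℕ), Units μ g := by
  classical
  have hne : ∀ l : ℕ, (if l.Prime then Icc 1 (l - 1) else ({0} : Finset ℕ)).Nonempty := by
    intro l
    split_ifs with hl
    · have := hl.two_le
      exact ⟨1, mem_Icc.2 ⟨le_rfl, by omega⟩⟩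
    · exact Finset.singleton_nonempty _
  obtain ⟨Ω, mΩ, μ, g, h1, h2, h3, h4⟩ := exists_hasLaw_indepFun (fun _ : ℕ => ℕ)
    (fun l => (PMF.uniformOfFinset _ (hne l)).toMeasure)
  refine ⟨Ω, mΩ, μ, h4, g, h1, h3, ?_⟩
  intro l hl u hu1 hu2
  have h5 : μ {ω | g l ω = u} = μ.map (g l) {u} := by
    rw [Measure.map_apply (h1 l) (measurableSet_singleton u)]
    rfl
  rw [h5, (h2 l).map_eq, PMF.toMeasure_uniformOfFinset_apply (hne l) {u} (measurableSet_singleton u)]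
  have h6 : (if l.Prime then Icc 1 (l - 1) else ({0} : Finset ℕ)) = Icc 1 (l - 1) := if_pos hl
  rw [h6, Nat.card_Icc, div_eq_mul_inv]
  have h7 : l - 1 + 1 - 1 = l - 1 := by omega
  rw [h7]
  convert one_mul _
  rw [Nat.cast_eq_one, Finset.card_eq_one]
  refine ⟨u, ?_⟩
  ext x
  simp only [Finset.mem_filter, Finset.mem_Icc, Set.mem_singleton_iff, Finset.mem_singleton]
  constructor
  · exact fun h => h.2
  · rintro rfl
    exact ⟨⟨hu1, by omega⟩, rfl⟩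

theorem truth (b : ℕ) (hb : 2 ≤ b) (g : ℕ → ℕ) (hg : ∀ l, l.Prime → ((g l : ℕ) : ZMod l) = -(b : ZMod l))
    (n : ℕ) (hn : n.Prime) (hn2 : n ≠ 2) (hnb : ¬ n ∣ b + 1) : Like b g n ↔ (W b n).Prime := by
  have h1 := Pool.Agent.L5helper2.RO.TRUE_thm b n hb hn hn2 hnb
  unfold Like
  constructor
  · intro h
    apply h1.2
    intro l hl hl2
    rw [← hg l hl]
    exact h l hl hl2
  · intro h l hl hl2
    rw [hg l hl]
    exact h1.1 h l hl hl2

theorem lower (b : ℕ) (hb : 2 ≤ b) : ∃ c : ℝ, 0 < c ∧ ∀ᶠ x : ℕ in atTop,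
    c * Real.log x ≤ E b {n | n.Prime ∧ n ≠ 2} x := by
  classical
  obtain ⟨c, hc, h⟩ := Pool.Agent.L5helper2.RO.E_lower Pool.Agent.L5helper2.RO.SMALL_thm
    Pool.Agent.L5helper2.RO.LARGE_thm Pool.Agent.L5helper2.RO.EXP_thm b hb
  refine ⟨c, hc, ?_⟩
  filter_upwards [h] with x hx
  refine hx.trans (le_of_eq ?_)
  unfold E Pool.Agent.L5helper2.RO.E
  apply Finset.sum_congr
  · ext n
    simp only [Finset.mem_filter, Set.mem_ofPred_eq]
  · intro n _
    rfl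

theorem upper (b : ℕ) (S : Set ℕ) (hS : ∀ n ∈ S, n.Prime ∧ n ≠ 2) (hU : ∀ ε : ℝ, 0 < ε → ∃ C : ℝ, 0 < C ∧ ∀ n : ℕ, n.Prime → n ≠ 2 → P b n ≤ C * (n : ℝ) ^ (ε - 1)) :
    ∀ ε : ℝ, 0 < ε → ∃ C : ℝ, ∀ x : ℕ, 1 ≤ x → E b S x ≤ C * (x : ℝ) ^ ε := by
  classical
  intro ε hε
  obtain ⟨C, hC, h⟩ := hU (ε / 2) (by linarith)
  refine ⟨C * (1 + 1 / (ε / 2)), fun x hx => ?_⟩
  have hx0 : (0 : ℝ) < x := by exact_mod_cast hx
  have hx1 : (1 : ℝ) ≤ x := by exact_mod_cast hx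
  have h1 : E b S x ≤ ∑ n ∈ Icc 1 x, C * ((x : ℝ) ^ (ε / 2) * (1 / (n : ℝ))) := by
    unfold E
    refine le_trans (Finset.sum_le_sum (g := fun n : ℕ => C * ((x : ℝ) ^ (ε / 2) * (1 / (n : ℝ)))) ?_)
      (Finset.sum_le_sum_of_subset_of_nonneg (filter_subset _ _) ?_)
    · intro n hn
      rw [Finset.mem_filter, mem_Icc] at hn
      obtain ⟨⟨hn1, hn2⟩, hn5⟩ := hn
      obtain ⟨hn3, hn4⟩ := hS n hn5
      refine (h n hn3 hn4).trans ?_
      apply mul_le_mul_of_nonneg_left _ hC.le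
      have hn0 : (0 : ℝ) < n := by exact_mod_cast hn1
      rw [Real.rpow_sub hn0, Real.rpow_one, mul_one_div]
      apply div_le_div_of_nonneg_right _ hn0.le
      exact Real.rpow_le_rpow hn0.le (by exact_mod_cast hn2) (by linarith)
    · intro n _ _
      positivity
  refine h1.trans ?_
  rw [← Finset.mul_sum, ← Finset.mul_sum]
  have h2 : ∑ n ∈ Icc 1 x, 1 / (n : ℝ) ≤ 1 + Real.log x := by
    have h3 := harmonic_le_one_add_log x
    rw [harmonic_eq_sum_Icc] at h3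
    push_cast at h3
    simpa [one_div] using h3
  have h4 : Real.log x ≤ (x : ℝ) ^ (ε / 2) / (ε / 2) := Real.log_le_rpow_div hx0.le (by linarith)
  have h5 : (1 : ℝ) ≤ (x : ℝ) ^ (ε / 2) := Real.one_le_rpow hx1 (by linarith)
  have h6 : (x : ℝ) ^ ε = (x : ℝ) ^ (ε / 2) * (x : ℝ) ^ (ε / 2) := by
    rw [← Real.rpow_add hx0]
    congr 1
    ring
  rw [h6]
  have h7 : ∑ n ∈ Icc 1 x, 1 / (n : ℝ) ≤ (1 + 1 / (ε / 2)) * (x : ℝ) ^ (ε / 2) := by
    have h8 : (x : ℝ) ^ (ε / 2) / (ε / 2) = 1 / (ε / 2) * (x : ℝ) ^ (ε / 2) := by ring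
    rw [h8] at h4
    linarith
  calc C * ((x : ℝ) ^ (ε / 2) * ∑ n ∈ Icc 1 x, 1 / (n : ℝ))
      ≤ C * ((x : ℝ) ^ (ε / 2) * ((1 + 1 / (ε / 2)) * (x : ℝ) ^ (ε / 2))) := by
        apply mul_le_mul_of_nonneg_left _ hC.le
        exact mul_le_mul_of_nonneg_left h7 (by positivity)
    _ = C * (1 + 1 / (ε / 2)) * ((x : ℝ) ^ (ε / 2) * (x : ℝ) ^ (ε / 2)) := by ring

open Classical in
/-- the random order model of the generalized Wagstaff primes -/
theorem result : ∀ b : ℕ, 2 ≤ b →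
    (∃ (Ω : Type) (_ : MeasurableSpace Ω) (μ : Measure Ω) (_ : IsProbabilityMeasure μ) (g : ℕ → Ω → ℕ), Units μ g) ∧
    (∀ g : ℕ → ℕ, (∀ l, l.Prime → ((g l : ℕ) : ZMod l) = -(b : ZMod l)) →
      ∀ n : ℕ, n.Prime → n ≠ 2 → ¬ n ∣ b + 1 → (Like b g n ↔ (W b n).Prime)) ∧
    (∀ S : Set ℕ, (∀ n ∈ S, n.Prime ∧ n ≠ 2) → ∀ (Ω : Type) (_ : MeasurableSpace Ω) (μ : Measure Ω)
      (_ : IsProbabilityMeasure μ) (g : ℕ → Ω → ℕ), Units μ g →
      (Tendsto (E b S) atTop atTop →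
        ∀ᵐ ω ∂μ, Tendsto (fun x : ℕ => (N b (fun l => g l ω) S x : ℝ) / E b S x) atTop (𝓝 1)) ∧
      ((∃ C : ℝ, ∀ x : ℕ, E b S x ≤ C) → ∀ᵐ ω ∂μ, {n | n ∈ S ∧ Like b (fun l => g l ω) n}.Finite)) ∧
    (∃ c : ℝ, 0 < c ∧ ∀ᶠ x : ℕ in atTop, c * Real.log x ≤ E b {n | n.Prime ∧ n ≠ 2} x) ∧
    (∀ ε : ℝ, 0 < ε → ∃ C : ℝ, ∀ x : ℕ, 1 ≤ x → E b {n | n.Prime ∧ n ≠ 2} x ≤ C * (x : ℝ) ^ ε) := by
  intro b hb
  refine ⟨exists_units, truth b hb, ?_, lower b hb, upper b _ (fun n hn => hn) (fun ε hε => ?_)⟩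
  · intro S hS Ω _ μ _ g hg
    exact ⟨law b hb S hS μ g hg, few b hb S hS μ g hg⟩
  · exact Pool.Agent.L5helper2.RO.UPPER_thm b hb ε hε

end Pool.Agent.L5helper2.RO.Lib
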